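import Mathlib

/-!
# The configuration of residue classes
-/

namespace Pool.Agent.Helper73.RK

open Finset

/-- the moduli in `P` whose residue class contains `n` -/
def AA (P : Finset ℕ) (a : ℕ → ℤ) (n : ℤ) : Finset ℕ := P.filter (fun p => (p : ℤ) ∣ n - a p)

/-- `n ∈ [1, N]` lies on the residue classes of `p` and `q` -/
def Meet (a : ℕ → ℤ) (N p q : ℕ) (n : ℤ) : Prop :=
  1 ≤ n ∧ n ≤ N ∧ (p : ℤ) ∣ n - a p ∧ (q : ℤ) ∣ n - a q

open Classical in
/-- the common point of two residue classes -/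
noncomputable def pt (a : ℕ → ℤ) (N p q : ℕ) : ℤ :=
  if h : ∃ n, Meet a N p q n then h.choose else 0

lemma pt_spec {a : ℕ → ℤ} {N p q : ℕ} (h : ∃ n, Meet a N p q n) : Meet a N p q (pt a N p q) := by
  rw [pt, dif_pos h]
  exact h.choose_spec

lemma meet_unique {a : ℕ → ℤ} {N p q : ℕ} (hp : p.Prime) (hq : q.Prime) (hpq : p ≠ q)
    (hN : N ≤ p * q) {n n' : ℤ} (h : Meet a N p q n) (h' : Meet a N p q n') : n = n' := by
  have h1 : (p : ℤ) ∣ n - n' := by
    have := dvd_sub h.2.2.1 h'.2.2.1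
    rwa [sub_sub_sub_cancel_right] at this
  have h2 : (q : ℤ) ∣ n - n' := by
    have := dvd_sub h.2.2.2 h'.2.2.2
    rwa [sub_sub_sub_cancel_right] at this
  have hcop : IsCoprime (p : ℤ) (q : ℤ) := by
    rw [Nat.isCoprime_iff_coprime]
    exact (Nat.coprime_primes hp hq).2 hpq
  have h3 : (p : ℤ) * q ∣ n - n' := hcop.mul_dvd h1 h2
  have h4 : |n - n'| < (p : ℤ) * q := by
    have h5 : (N : ℤ) ≤ (p : ℤ) * q := by exact_mod_cast hN
    have h6 : |n - n'| < N := by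
      rw [abs_lt]
      have := h.1; have := h.2.1; have := h'.1; have := h'.2.1
      constructor <;> omega
    omega
  have h7 := Int.eq_zero_of_abs_lt_dvd h3 h4
  omega

open Classical in
/-- the pairs of moduli whose classes meet at a point of multiplicity at most `Λ` -/
noncomputable def GG (P : Finset ℕ) (a : ℕ → ℤ) (N Λ : ℕ) : Finset (ℕ × ℕ) :=
  (P ×ˢ P).filter (fun z => z.1 ≠ z.2 ∧ ∃ n, Meet a N z.1 z.2 n ∧ (AA P a n).card ≤ Λ)

variable {P : Finset ℕ} {a : ℕ → ℤ} {N Λ R : ℕ}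

lemma mem_GG {z : ℕ × ℕ} : z ∈ GG P a N Λ ↔ z.1 ∈ P ∧ z.2 ∈ P ∧ z.1 ≠ z.2 ∧
    ∃ n, Meet a N z.1 z.2 n ∧ (AA P a n).card ≤ Λ := by
  classical
  rw [GG, Finset.mem_filter, Finset.mem_product, and_assoc]

lemma GG_pt (hP : ∀ p ∈ P, p.Prime ∧ R ≤ p) (hN : N ≤ R * R) {p q : ℕ}
    (h : (p, q) ∈ GG P a N Λ) :
    Meet a N p q (pt a N p q) ∧ (AA P a (pt a N p q)).card ≤ Λ := by
  obtain ⟨hp, hq, hpq, n, hn, hΛ⟩ := mem_GG.1 h
  simp only at hp hq hpq hn
  have h1 := pt_spec ⟨n, hn⟩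
  have h2 : pt a N p q = n := meet_unique (hP p hp).1 (hP q hq).1 hpq
    (hN.trans (Nat.mul_le_mul (hP p hp).2 (hP q hq).2)) h1 hn
  exact ⟨h1, by rw [h2]; exact hΛ⟩

/-- the total number of incidences -/
noncomputable def inc (P : Finset ℕ) (a : ℕ → ℤ) (N : ℕ) : ℕ :=
  ∑ p ∈ P, ((Icc (1 : ℤ) N).filter (fun n => (p : ℤ) ∣ n - a p)).card

lemma sum_AA (P : Finset ℕ) (a : ℕ → ℤ) (N : ℕ) :
    ∑ n ∈ Icc (1 : ℤ) N, (AA P a n).card = inc P a N := by
  simp only [AA, inc, Finset.card_filter]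
  exact Finset.sum_comm

lemma sum_AA_sq (hP : ∀ p ∈ P, p.Prime ∧ R ≤ p) (hN : N ≤ R * R) :
    ∑ n ∈ Icc (1 : ℤ) N, (AA P a n).card ^ 2 ≤ inc P a N + P.card ^ 2 := by
  have h1 : ∀ n : ℤ, (AA P a n).card ^ 2 = ∑ z ∈ P ×ˢ P,
      (if (z.1 : ℤ) ∣ n - a z.1 ∧ (z.2 : ℤ) ∣ n - a z.2 then 1 else 0) := by
    intro n
    rw [sq, ← Finset.card_product, AA, ← Finset.filter_product, Finset.card_filter]
  calc ∑ n ∈ Icc (1 : ℤ) N, (AA P a n).card ^ 2
      = ∑ z ∈ P ×ˢ P, ∑ n ∈ Icc (1 : ℤ) N,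
        (if (z.1 : ℤ) ∣ n - a z.1 ∧ (z.2 : ℤ) ∣ n - a z.2 then 1 else 0) := by
        rw [Finset.sum_comm]
        exact Finset.sum_congr rfl fun n _ => h1 n
    _ = ∑ z ∈ P ×ˢ P, ((Icc (1 : ℤ) N).filter (fun n =>
          (z.1 : ℤ) ∣ n - a z.1 ∧ (z.2 : ℤ) ∣ n - a z.2)).card := by
        simp only [Finset.card_filter]
    _ ≤ ∑ z ∈ P ×ˢ P, ((if z.1 = z.2 then
          ((Icc (1 : ℤ) N).filter (fun n => (z.1 : ℤ) ∣ n - a z.1)).card else 0) + 1) := by
        refine Finset.sum_le_sum fun z hz => ?_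
        obtain ⟨hz1, hz2⟩ := Finset.mem_product.1 hz
        split_ifs with he
        · refine le_trans (Finset.card_le_card ?_) (Nat.le_succ _)
          intro n hn
          obtain ⟨hn1, hn2⟩ := Finset.mem_filter.1 hn
          exact Finset.mem_filter.2 ⟨hn1, hn2.1⟩
        · rw [zero_add, Finset.card_le_one]
          intro n hn n' hn'
          obtain ⟨hn1, hn2⟩ := Finset.mem_filter.1 hn
          obtain ⟨hn1', hn2'⟩ := Finset.mem_filter.1 hn'
          rw [Finset.mem_Icc] at hn1 hn1'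
          exact meet_unique (hP _ hz1).1 (hP _ hz2).1 he
            (hN.trans (Nat.mul_le_mul (hP _ hz1).2 (hP _ hz2).2))
            ⟨hn1.1, hn1.2, hn2.1, hn2.2⟩ ⟨hn1'.1, hn1'.2, hn2'.1, hn2'.2⟩
    _ = inc P a N + P.card ^ 2 := by
        rw [Finset.sum_add_distrib, Finset.sum_const, Finset.card_product, smul_eq_mul, mul_one,
          ← sq, Finset.sum_product, inc]
        congr 1
        refine Finset.sum_congr rfl fun p hp => ?_
        rw [Finset.sum_ite_eq, if_pos hp]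

/-- many pairs of classes meet at points of bounded multiplicity, if the union is small -/
theorem GG_large (hP : ∀ p ∈ P, p.Prime ∧ R ≤ p) (hN : N ≤ R * R)
    (hΛ : 2 * (inc P a N + P.card ^ 2) ≤ Λ * inc P a N) :
    inc P a N ^ 2 ≤ 4 * (((Icc (1 : ℤ) N).filter (fun n => (AA P a n).Nonempty)).card *
      ((GG P a N Λ).card + inc P a N)) := by
  classical
  set T := (Icc (1 : ℤ) N).filter (fun n => (AA P a n).card ≤ Λ) with hT
  set S := (Icc (1 : ℤ) N).filter (fun n => (AA P a n).Nonempty) with hS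
  -- the points of high multiplicity carry few incidences
  have h1 : Λ * ∑ n ∈ (Icc (1 : ℤ) N).filter (fun n => ¬ (AA P a n).card ≤ Λ), (AA P a n).card ≤
      inc P a N + P.card ^ 2 := by
    refine le_trans ?_ (sum_AA_sq (a := a) hP hN)
    rw [Finset.mul_sum]
    calc ∑ n ∈ (Icc (1 : ℤ) N).filter (fun n => ¬ (AA P a n).card ≤ Λ), Λ * (AA P a n).card
        ≤ ∑ n ∈ (Icc (1 : ℤ) N).filter (fun n => ¬ (AA P a n).card ≤ Λ), (AA P a n).card ^ 2 := by
          refine Finset.sum_le_sum fun n hn => ?_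
          rw [sq]
          exact Nat.mul_le_mul_right _ (not_le.1 (Finset.mem_filter.1 hn).2).le
      _ ≤ _ := Finset.sum_le_sum_of_subset (Finset.filter_subset _ _)
  have h2 : inc P a N = ∑ n ∈ T, (AA P a n).card +
      ∑ n ∈ (Icc (1 : ℤ) N).filter (fun n => ¬ (AA P a n).card ≤ Λ), (AA P a n).card := by
    rw [← sum_AA, Finset.sum_filter_add_sum_filter_not]
  have h3 : inc P a N ≤ 2 * ∑ n ∈ T, (AA P a n).card := by
    rcases Nat.eq_zero_or_pos Λ with h0 | h0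
    · rw [h0, zero_mul] at hΛ
      omega
    · set U := ∑ n ∈ (Icc (1 : ℤ) N).filter (fun n => ¬ (AA P a n).card ≤ Λ), (AA P a n).card
      have h4 : Λ * (2 * U) ≤ Λ * inc P a N := by
        calc Λ * (2 * U) = 2 * (Λ * U) := by ring
          _ ≤ 2 * (inc P a N + P.card ^ 2) := Nat.mul_le_mul_left _ h1
          _ ≤ _ := hΛ
      have h5 := Nat.le_of_mul_le_mul_left h4 h0
      omega
  -- Cauchy-Schwarz
  have h4 : (∑ n ∈ T, (AA P a n).card) ^ 2 ≤ S.card * ∑ n ∈ T, (AA P a n).card ^ 2 := by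
    have h5 : ∑ n ∈ T, (AA P a n).card = ∑ n ∈ T ∩ S, (AA P a n).card := by
      symm
      refine Finset.sum_subset Finset.inter_subset_left fun n hn hn' => ?_
      rw [Finset.card_eq_zero]
      by_contra hne
      apply hn'
      refine Finset.mem_inter.2 ⟨hn, Finset.mem_filter.2 ⟨(Finset.mem_filter.1 hn).1, ?_⟩⟩
      exact Finset.nonempty_iff_ne_empty.2 hne
    rw [h5]
    calc (∑ n ∈ T ∩ S, (AA P a n).card) ^ 2 ≤ (T ∩ S).card * ∑ n ∈ T ∩ S, (AA P a n).card ^ 2 :=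
          sq_sum_le_card_mul_sum_sq
      _ ≤ S.card * ∑ n ∈ T, (AA P a n).card ^ 2 := by
          refine Nat.mul_le_mul (Finset.card_le_card Finset.inter_subset_right) ?_
          exact Finset.sum_le_sum_of_subset Finset.inter_subset_left
  -- the off-diagonal pairs
  have h5 : ∑ n ∈ T, (AA P a n).card ^ 2 ≤ (GG P a N Λ).card + inc P a N := by
    have h6 : ∀ n ∈ T, (AA P a n).card ^ 2 = (AA P a n).offDiag.card + (AA P a n).card := by
      intro n _
      rw [Finset.offDiag_card, sq]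
      have : (AA P a n).card ≤ (AA P a n).card * (AA P a n).card := Nat.le_mul_self _
      omega
    rw [Finset.sum_congr rfl h6, Finset.sum_add_distrib]
    refine add_le_add ?_ ?_
    · rw [← Finset.card_biUnion]
      · refine Finset.card_le_card ?_
        intro z hz
        obtain ⟨n, hn, hz'⟩ := Finset.mem_biUnion.1 hz
        obtain ⟨hz1, hz2, hz3⟩ := Finset.mem_offDiag.1 hz'
        obtain ⟨hn1, hn2⟩ := Finset.mem_filter.1 hn
        rw [Finset.mem_Icc] at hn1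
        rw [mem_GG]
        have hz1' := Finset.mem_filter.1 hz1
        have hz2' := Finset.mem_filter.1 hz2
        exact ⟨hz1'.1, hz2'.1, hz3, n, ⟨hn1.1, hn1.2, hz1'.2, hz2'.2⟩, hn2⟩
      · intro n hn n' hn' hne
        change Disjoint (AA P a n).offDiag (AA P a n').offDiag
        rw [Finset.disjoint_left]
        intro z hz hz'
        apply hne
        obtain ⟨hz1, hz2, hz3⟩ := Finset.mem_offDiag.1 hz
        obtain ⟨hz1', hz2', -⟩ := Finset.mem_offDiag.1 hz'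
        have hn1 := Finset.mem_Icc.1 (Finset.mem_filter.1 (Finset.mem_coe.1 hn)).1
        have hn1' := Finset.mem_Icc.1 (Finset.mem_filter.1 (Finset.mem_coe.1 hn')).1
        have e1 := Finset.mem_filter.1 hz1
        have e2 := Finset.mem_filter.1 hz2
        have e1' := Finset.mem_filter.1 hz1'
        have e2' := Finset.mem_filter.1 hz2'
        exact meet_unique (hP _ e1.1).1 (hP _ e2.1).1 hz3
          (hN.trans (Nat.mul_le_mul (hP _ e1.1).2 (hP _ e2.1).2))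
          ⟨hn1.1, hn1.2, e1.2, e2.2⟩ ⟨hn1'.1, hn1'.2, e1'.2, e2'.2⟩
    · omega
  calc inc P a N ^ 2 ≤ (2 * ∑ n ∈ T, (AA P a n).card) ^ 2 := Nat.pow_le_pow_left h3 2
    _ = 4 * (∑ n ∈ T, (AA P a n).card) ^ 2 := by ring
    _ ≤ 4 * (S.card * ∑ n ∈ T, (AA P a n).card ^ 2) := Nat.mul_le_mul_left _ h4
    _ ≤ _ := Nat.mul_le_mul_left _ (Nat.mul_le_mul_left _ h5)

end Pool.Agent.Helper73.RK
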