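import Mathlib

/-!
# The divisor bound
-/

namespace Pool.Agent.Helper73.RK

open Finset

lemma succ_pow_le (j v : ℕ) : (v + 1) ^ j ≤ (j.factorial * 2 ^ j) * 2 ^ v := by
  have h1 : (v + 1) ^ j ≤ (v + 1).ascFactorial j := Nat.pow_succ_le_ascFactorial (v + 1) j
  have h2 : (v + 1).ascFactorial j = j.factorial * (v + j).choose j :=
    Nat.ascFactorial_eq_factorial_mul_choose v j
  have h3 : (v + j).choose j ≤ 2 ^ (v + j) := Nat.choose_le_two_pow _ _
  calc (v + 1) ^ j ≤ j.factorial * (v + j).choose j := h1.trans h2.le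
    _ ≤ j.factorial * 2 ^ (v + j) := Nat.mul_le_mul_left _ h3
    _ = _ := by ring

/-- `d(n) ^ j ≤ C n` -/
theorem card_divisors_pow_le (j : ℕ) : ∃ C : ℕ, 1 ≤ C ∧ ∀ n : ℕ, n ≠ 0 →
    n.divisors.card ^ j ≤ C * n := by
  classical
  set c := j.factorial * 2 ^ j with hc
  have hc1 : 1 ≤ c := Nat.one_le_iff_ne_zero.2 (by positivity)
  refine ⟨c ^ (2 ^ j), Nat.one_le_pow _ _ hc1, fun n hn => ?_⟩
  rw [Nat.card_divisors hn, ← Finset.prod_pow]
  have h1 : ∏ p ∈ n.primeFactors, (n.factorization p + 1) ^ j ≤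
      ∏ p ∈ n.primeFactors, ((if p < 2 ^ j then c else 1) * p ^ (n.factorization p)) := by
    refine Finset.prod_le_prod' fun p hp => ?_
    have hpp : p.Prime := Nat.prime_of_mem_primeFactors hp
    split_ifs with h
    · refine (succ_pow_le j _).trans ?_
      rw [← hc]
      exact Nat.mul_le_mul_left _ (Nat.pow_le_pow_left hpp.two_le _)
    · rw [one_mul]
      have h2 : n.factorization p + 1 ≤ 2 ^ n.factorization p := Nat.lt_two_pow_self
      calc (n.factorization p + 1) ^ j ≤ (2 ^ n.factorization p) ^ j := Nat.pow_le_pow_left h2 _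
        _ = (2 ^ j) ^ n.factorization p := by rw [← pow_mul, ← pow_mul, mul_comm]
        _ ≤ _ := Nat.pow_le_pow_left (not_lt.1 h) _
  refine h1.trans ?_
  rw [Finset.prod_mul_distrib]
  have h3 : ∏ p ∈ n.primeFactors, p ^ n.factorization p = n :=
    Nat.prod_factorization_pow_eq_self hn
  rw [h3]
  refine Nat.mul_le_mul_right _ ?_
  rw [Finset.prod_ite, Finset.prod_const, Finset.prod_const_one, mul_one]
  refine Nat.pow_le_pow_right hc1 ?_
  calc (n.primeFactors.filter (fun p => p < 2 ^ j)).card ≤ (Finset.range (2 ^ j)).card := by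
        refine Finset.card_le_card fun p hp => ?_
        exact Finset.mem_range.2 (Finset.mem_filter.1 hp).2
    _ = _ := Finset.card_range _

/-- for large `x`, numbers up to `x ^ κ` have at most `x` divisors -/
theorem card_divisors_le (κ : ℕ) : ∃ x₀ : ℕ, ∀ x : ℕ, x₀ ≤ x → ∀ n : ℕ, n ≠ 0 → n ≤ x ^ κ →
    n.divisors.card ≤ x := by
  obtain ⟨C, hC1, hC⟩ := card_divisors_pow_le (κ + 1)
  refine ⟨C, fun x hx n hn hnx => ?_⟩
  have h1 : n.divisors.card ^ (κ + 1) ≤ x ^ (κ + 1) := by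
    calc n.divisors.card ^ (κ + 1) ≤ C * n := hC n hn
      _ ≤ x * x ^ κ := Nat.mul_le_mul hx hnx
      _ = x ^ (κ + 1) := by ring
  exact (Nat.pow_le_pow_iff_left (by omega)).1 h1

end Pool.Agent.Helper73.RK
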