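import Mathlib
import Pool.Agent.Helper73.RK.DivBound

/-!
# Many primes in dyadic intervals
-/

namespace Pool.Agent.Helper73.RK

open Finset Nat

/-- the primes in `(n, 2n]` -/
def dyadic (n : ℕ) : Finset ℕ := (Finset.Ioc n (2 * n)).filter Nat.Prime

lemma centralBinom_le (n : ℕ) (n_large : 2 < n) :
    centralBinom n ≤ (2 * n) ^ sqrt (2 * n) * 4 ^ (2 * n / 3) * (2 * n) ^ (dyadic n).card := by
  have n_pos : 0 < n := (Nat.zero_le _).trans_lt n_large
  have n2_pos : 1 ≤ 2 * n := mul_pos (zero_lt_two' ℕ) n_pos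
  let f : ℕ → ℕ := fun x => x ^ n.centralBinom.factorization x
  let S := (Finset.range (2 * n / 3 + 1)).filter Nat.Prime
  have hprod : centralBinom n = (∏ p ∈ S, f p) * ∏ p ∈ dyadic n, f p := by
    have hdisj : Disjoint S (dyadic n) := by
      rw [Finset.disjoint_left]
      intro p hp hp'
      have h1 := Finset.mem_range.1 (Finset.mem_filter.1 hp).1
      have h2 := Finset.mem_Ioc.1 (Finset.mem_filter.1 hp').1
      omega
    rw [← Finset.prod_union hdisj]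
    refine (Eq.trans ?_ n.prod_pow_factorization_centralBinom).symm
    apply Finset.prod_subset
    · intro p hp
      rcases Finset.mem_union.1 hp with h | h
      · have h1 := Finset.mem_range.1 (Finset.mem_filter.1 h).1
        exact Finset.mem_range.2 (by omega)
      · have h2 := Finset.mem_Ioc.1 (Finset.mem_filter.1 h).1
        exact Finset.mem_range.2 (by omega)
    intro x hx h2x
    by_cases hxp : x.Prime
    · have h3 : ¬ (x < 2 * n / 3 + 1) := fun h => h2x (Finset.mem_union_left _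
        (Finset.mem_filter.2 ⟨Finset.mem_range.2 h, hxp⟩))
      have h4 : ¬ (n < x ∧ x ≤ 2 * n) := fun h => h2x (Finset.mem_union_right _
        (Finset.mem_filter.2 ⟨Finset.mem_Ioc.2 h, hxp⟩))
      have h5 := Finset.mem_range.1 hx
      have h6 : x ≤ n := by omega
      change x ^ n.centralBinom.factorization x = 1
      rw [factorization_centralBinom_of_two_mul_self_lt_three_mul n_large h6 (by omega), Nat.pow_zero]
    · change x ^ n.centralBinom.factorization x = 1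
      rw [factorization_eq_zero_of_not_prime n.centralBinom hxp, Nat.pow_zero]
  rw [hprod]
  refine Nat.mul_le_mul ?_ ?_
  · rw [← Finset.prod_filter_mul_prod_filter_not S (· ≤ sqrt (2 * n))]
    apply mul_le_mul'
    · refine (Finset.prod_le_prod' fun p _ => (?_ : f p ≤ 2 * n)).trans ?_
      · exact pow_factorization_choose_le (mul_pos two_pos n_pos)
      have : (Finset.Icc 1 (sqrt (2 * n))).card = sqrt (2 * n) := by rw [card_Icc, Nat.add_sub_cancel]
      rw [Finset.prod_const]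
      refine pow_right_mono₀ n2_pos ((Finset.card_le_card fun x hx => ?_).trans this.le)
      obtain ⟨h1, h2⟩ := Finset.mem_filter.1 hx
      exact Finset.mem_Icc.mpr ⟨(Finset.mem_filter.1 h1).2.one_lt.le, h2⟩
    · refine le_trans ?_ (primorial_le_four_pow (2 * n / 3))
      refine (Finset.prod_le_prod' fun p hp => (?_ : f p ≤ p)).trans ?_
      · obtain ⟨h1, h2⟩ := Finset.mem_filter.1 hp
        refine (pow_right_mono₀ (Finset.mem_filter.1 h1).2.one_lt.le ?_).trans (pow_one p).le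
        exact Nat.factorization_choose_le_one (sqrt_lt'.mp <| not_le.1 h2)
      refine Finset.prod_le_prod_of_subset_of_one_le' ?_ ?_
      · intro p hp
        have h1 := (Finset.mem_filter.1 hp).1
        exact h1
      · intro p hp _
        exact (Nat.mem_primesLE.1 hp).2.one_lt.le
  · calc ∏ p ∈ dyadic n, f p ≤ ∏ _p ∈ dyadic n, (2 * n) :=
        Finset.prod_le_prod' fun p _ => pow_factorization_choose_le (mul_pos two_pos n_pos)
      _ = _ := Finset.prod_const _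

/-- for large `x` and `x ≤ n ≤ x ^ κ` there are at least `n / x` primes in `(n, 2n]` -/
theorem le_mul_card_dyadic (κ : ℕ) : ∃ x₀ : ℕ, ∀ x : ℕ, x₀ ≤ x → ∀ n : ℕ, x ≤ n → n ≤ x ^ κ →
    n ≤ x * (dyadic n).card := by
  obtain ⟨c8, hc8⟩ : ∃ c8 : ℕ, ∀ v : ℕ, (v + 1) ^ 8 ≤ c8 * 2 ^ v := ⟨_, succ_pow_le 8⟩
  obtain ⟨c, hc⟩ : ∃ c : ℕ, ∀ v : ℕ, (v + 1) ^ (κ + 1) ≤ c * 2 ^ v := ⟨_, succ_pow_le (κ + 1)⟩
  refine ⟨6 ^ (κ + 1) * (2 * c) + 3 ^ 8 * 4 ^ 8 * (2 * c8) + 512, fun x hx n hxn hnx => ?_⟩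
  by_contra hcon
  push Not at hcon
  have hn : 512 ≤ n := by omega
  set ℓ := Nat.log 2 (2 * n) + 1 with hℓ
  have h1 : 4 ^ n < n * centralBinom n := Nat.four_pow_lt_mul_centralBinom n (by omega)
  have h2 := centralBinom_le n (by omega)
  have h3 : 2 * n < 2 ^ ℓ := Nat.lt_pow_succ_log_self (by norm_num) _
  have h3' : 2 ^ (ℓ - 1) ≤ 2 * n := by
    rw [hℓ, Nat.add_sub_cancel]
    exact Nat.pow_log_le_self 2 (by omega)
  have h4 : 2 * (n - 2 * n / 3) < ℓ * (sqrt (2 * n) + 1 + (dyadic n).card) := by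
    have h5 : 4 ^ n < 4 ^ (2 * n / 3) * (2 ^ ℓ) ^ (sqrt (2 * n) + 1 + (dyadic n).card) := by
      calc 4 ^ n < n * centralBinom n := h1
        _ ≤ n * ((2 * n) ^ sqrt (2 * n) * 4 ^ (2 * n / 3) * (2 * n) ^ (dyadic n).card) :=
          Nat.mul_le_mul_left _ h2
        _ ≤ (2 * n) * ((2 * n) ^ sqrt (2 * n) * 4 ^ (2 * n / 3) * (2 * n) ^ (dyadic n).card) :=
          Nat.mul_le_mul_right _ (by omega)
        _ = 4 ^ (2 * n / 3) * (2 * n) ^ (sqrt (2 * n) + 1 + (dyadic n).card) := by ring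
        _ ≤ _ := Nat.mul_le_mul_left _ (Nat.pow_le_pow_left h3.le _)
    have h6 : 4 ^ n = 4 ^ (2 * n / 3) * 4 ^ (n - 2 * n / 3) := by
      rw [← pow_add]; congr 1; omega
    rw [h6] at h5
    have h7 := lt_of_mul_lt_mul_left h5 (Nat.zero_le _)
    rw [show (4 : ℕ) = 2 ^ 2 by norm_num, ← pow_mul, ← pow_mul] at h7
    exact (Nat.pow_lt_pow_iff_right (by norm_num)).1 h7
  have h8 : 6 * ℓ ≤ x := by
    refine (Nat.pow_le_pow_iff_left (n := κ + 1) (by omega)).1 ?_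
    have h9 : ℓ ^ (κ + 1) ≤ c * (2 * n) := by
      calc ℓ ^ (κ + 1) = ((ℓ - 1) + 1) ^ (κ + 1) := by congr 1
        _ ≤ c * 2 ^ (ℓ - 1) := hc _
        _ ≤ _ := Nat.mul_le_mul_left _ h3'
    calc (6 * ℓ) ^ (κ + 1) = 6 ^ (κ + 1) * ℓ ^ (κ + 1) := mul_pow _ _ _
      _ ≤ 6 ^ (κ + 1) * (c * (2 * n)) := Nat.mul_le_mul_left _ h9
      _ ≤ 6 ^ (κ + 1) * (c * (2 * x ^ κ)) := by gcongr
      _ = (6 ^ (κ + 1) * (2 * c)) * x ^ κ := by ring
      _ ≤ x * x ^ κ := Nat.mul_le_mul_right _ (by omega)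
      _ = x ^ (κ + 1) := by ring
  have h10 : 3 * (ℓ * (sqrt (2 * n) + 1)) ≤ n := by
    refine (Nat.pow_le_pow_iff_left (n := 8) (by omega)).1 ?_
    have h9 : ℓ ^ 8 ≤ c8 * (2 * n) := by
      calc ℓ ^ 8 = ((ℓ - 1) + 1) ^ 8 := by congr 1
        _ ≤ c8 * 2 ^ (ℓ - 1) := hc8 _
        _ ≤ _ := Nat.mul_le_mul_left _ h3'
    have h11 : (sqrt (2 * n) + 1) ^ 2 ≤ 4 ^ 2 * n := by
      have h12 : sqrt (2 * n) * sqrt (2 * n) ≤ 2 * n := Nat.sqrt_le (2 * n)
      have h13 : sqrt (2 * n) ≤ 2 * n := Nat.sqrt_le_self _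
      nlinarith
    have h14 : (sqrt (2 * n) + 1) ^ 8 ≤ 4 ^ 8 * n ^ 4 := by
      calc (sqrt (2 * n) + 1) ^ 8 = ((sqrt (2 * n) + 1) ^ 2) ^ 4 := by ring
        _ ≤ (4 ^ 2 * n) ^ 4 := Nat.pow_le_pow_left h11 4
        _ = _ := by ring
    calc (3 * (ℓ * (sqrt (2 * n) + 1))) ^ 8 = 3 ^ 8 * (ℓ ^ 8 * (sqrt (2 * n) + 1) ^ 8) := by ring
      _ ≤ 3 ^ 8 * ((c8 * (2 * n)) * (4 ^ 8 * n ^ 4)) := by gcongr
      _ = (3 ^ 8 * 4 ^ 8 * (2 * c8)) * n ^ 5 := by ring
      _ ≤ n * n ^ 5 := Nat.mul_le_mul_right _ (by omega)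
      _ ≤ n ^ 2 * (n * n ^ 5) := Nat.le_mul_of_pos_left _ (by positivity)
      _ = n ^ 8 := by ring
  have h15 : 6 * (ℓ * (dyadic n).card) ≤ n := by
    have h16 : (6 * ℓ) * (dyadic n).card ≤ x * (dyadic n).card := Nat.mul_le_mul_right _ h8
    have h17 : 6 * (ℓ * (dyadic n).card) = (6 * ℓ) * (dyadic n).card := by ring
    omega
  have h18 : ℓ * (sqrt (2 * n) + 1 + (dyadic n).card) =
      ℓ * (sqrt (2 * n) + 1) + ℓ * (dyadic n).card := by ring
  rw [h18] at h4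
  omega

end Pool.Agent.Helper73.RK
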