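import Mathlib

/-!
# Complete bipartite subgraphs of dense bipartite graphs
-/

namespace Pool.Agent.Helper73.RK

open Finset

variable {α β : Type*} [DecidableEq α] [DecidableEq β]

/-- choose the vertices on the left one after another -/
lemma biclique_aux (E : Finset (α × β)) (X : Finset α) (Y₁ : Finset β) (m K₀ : ℕ)
    (hdeg : ∀ y ∈ Y₁, K₀ ≤ (X.filter (fun a => (a, y) ∈ E)).card) (hK : m < K₀)
    (hY : 0 < Y₁.card) (j : ℕ) (hj : j ≤ m) :
    ∃ T : Finset α, T ⊆ X ∧ T.card = j ∧ ∃ W : Finset β, W ⊆ Y₁ ∧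
      (∀ w ∈ W, ∀ a ∈ T, (a, w) ∈ E) ∧ Y₁.card * (K₀ - m) ^ j ≤ W.card * X.card ^ j := by
  induction j with
  | zero => exact ⟨∅, Finset.empty_subset _, rfl, Y₁, Finset.Subset.refl _, by simp, by simp⟩
  | succ j ih =>
    obtain ⟨T, hTX, hTj, W, hWY, hWE, hcard⟩ := ih (by omega)
    have hWpos : 0 < W.card := by
      rcases Nat.eq_zero_or_pos W.card with h | h
      · rw [h, zero_mul] at hcard
        have : 0 < Y₁.card * (K₀ - m) ^ j := Nat.mul_pos hY (Nat.pow_pos (by omega))
        omega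
      · exact h
    -- edges between `W` and `X \ T`
    have h1 : W.card * (K₀ - m) ≤ ∑ w ∈ W, ((X \ T).filter (fun a => (a, w) ∈ E)).card := by
      rw [← smul_eq_mul, ← Finset.sum_const]
      refine Finset.sum_le_sum fun w hw => ?_
      have h2 := hdeg w (hWY hw)
      have h3 : X.filter (fun a => (a, w) ∈ E) ⊆ ((X \ T).filter (fun a => (a, w) ∈ E)) ∪ T := by
        intro a ha
        have ha' := Finset.mem_filter.1 ha
        rw [Finset.mem_union, Finset.mem_filter, Finset.mem_sdiff]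
        by_cases haT : a ∈ T
        · exact Or.inr haT
        · exact Or.inl ⟨⟨ha'.1, haT⟩, ha'.2⟩
      have h4 := (Finset.card_le_card h3).trans (Finset.card_union_le _ _)
      omega
    have h2 : ∑ w ∈ W, ((X \ T).filter (fun a => (a, w) ∈ E)).card =
        ∑ a ∈ X \ T, (W.filter (fun w => (a, w) ∈ E)).card := by
      simp only [Finset.card_filter]
      exact Finset.sum_comm
    rw [h2] at h1
    have hXT : 0 < (X \ T).card := by
      rcases Nat.eq_zero_or_pos (X \ T).card with h | h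
      · rw [Finset.card_eq_zero] at h
        rw [h, Finset.sum_empty] at h1
        have : 0 < W.card * (K₀ - m) := Nat.mul_pos hWpos (by omega)
        omega
      · exact h
    obtain ⟨a, ha, hmax⟩ := Finset.exists_max_image (X \ T)
      (fun a => (W.filter (fun w => (a, w) ∈ E)).card) (Finset.card_pos.1 hXT)
    have h3 : W.card * (K₀ - m) ≤ X.card * (W.filter (fun w => (a, w) ∈ E)).card := by
      calc W.card * (K₀ - m) ≤ ∑ a ∈ X \ T, (W.filter (fun w => (a, w) ∈ E)).card := h1
        _ ≤ ∑ _a ∈ X \ T, (W.filter (fun w => (a, w) ∈ E)).card := Finset.sum_le_sum hmax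
        _ = (X \ T).card * (W.filter (fun w => (a, w) ∈ E)).card := by
            rw [Finset.sum_const, smul_eq_mul]
        _ ≤ _ := Nat.mul_le_mul_right _ (Finset.card_le_card Finset.sdiff_subset)
    obtain ⟨haX, haT⟩ := Finset.mem_sdiff.1 ha
    refine ⟨insert a T, Finset.insert_subset haX hTX,
      by rw [Finset.card_insert_of_notMem haT, hTj], W.filter (fun w => (a, w) ∈ E),
      (Finset.filter_subset _ _).trans hWY, ?_, ?_⟩
    · intro w hw a' ha'
      obtain ⟨hw1, hw2⟩ := Finset.mem_filter.1 hw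
      rcases Finset.mem_insert.1 ha' with rfl | h
      · exact hw2
      · exact hWE w hw1 a' h
    · calc Y₁.card * (K₀ - m) ^ (j + 1) = (Y₁.card * (K₀ - m) ^ j) * (K₀ - m) := by ring
        _ ≤ (W.card * X.card ^ j) * (K₀ - m) := Nat.mul_le_mul_right _ hcard
        _ = (W.card * (K₀ - m)) * X.card ^ j := by ring
        _ ≤ (X.card * (W.filter (fun w => (a, w) ∈ E)).card) * X.card ^ j :=
            Nat.mul_le_mul_right _ h3
        _ = _ := by ring

/-- a dense bipartite graph contains a large complete bipartite subgraph -/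
theorem biclique (E : Finset (α × β)) (X : Finset α) (Y : Finset β) (hE : E ⊆ X ×ˢ Y) (m K₀ : ℕ)
    (hK : m < K₀) (hY : 2 * (Y.card * K₀) ≤ E.card) (hE0 : 0 < E.card) :
    ∃ T : Finset α, T ⊆ X ∧ T.card = m ∧ ∃ W : Finset β, W ⊆ Y ∧
      (∀ w ∈ W, ∀ a ∈ T, (a, w) ∈ E) ∧
      E.card * (K₀ - m) ^ m ≤ 2 * (W.card * X.card ^ (m + 1)) := by
  set deg : β → ℕ := fun y => (X.filter (fun a => (a, y) ∈ E)).card with hdeg
  have h1 : E.card = ∑ y ∈ Y, deg y := by
    have h2 : E.card = ∑ y ∈ Y, (E.filter (fun e => e.2 = y)).card :=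
      Finset.card_eq_sum_card_fiberwise fun e he => (Finset.mem_product.1 (hE he)).2
    rw [h2]
    refine Finset.sum_congr rfl fun y _ => ?_
    rw [hdeg]
    refine Finset.card_bij' (fun e _ => e.1) (fun a _ => (a, y)) ?_ ?_ ?_ ?_
    · intro e he
      obtain ⟨he1, he2⟩ := Finset.mem_filter.1 he
      refine Finset.mem_filter.2 ⟨(Finset.mem_product.1 (hE he1)).1, ?_⟩
      rw [← he2]; exact he1
    · intro a ha
      exact Finset.mem_filter.2 ⟨(Finset.mem_filter.1 ha).2, rfl⟩
    · intro e he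
      rw [← (Finset.mem_filter.1 he).2]
    · intro a _; rfl
  set Y₁ := Y.filter (fun y => K₀ ≤ deg y) with hY₁
  have h3 : E.card ≤ 2 * (Y₁.card * X.card) := by
    have h4 : ∑ y ∈ Y, deg y ≤ Y₁.card * X.card + Y.card * K₀ := by
      rw [← Finset.sum_filter_add_sum_filter_not Y (fun y => K₀ ≤ deg y)]
      refine add_le_add ?_ ?_
      · rw [← hY₁, ← smul_eq_mul, ← Finset.sum_const]
        refine Finset.sum_le_sum fun y _ => Finset.card_le_card (Finset.filter_subset _ _)
      · calc ∑ y ∈ Y.filter (fun y => ¬ K₀ ≤ deg y), deg y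
            ≤ ∑ _y ∈ Y.filter (fun y => ¬ K₀ ≤ deg y), K₀ :=
              Finset.sum_le_sum fun y hy => (not_le.1 (Finset.mem_filter.1 hy).2).le
          _ = (Y.filter (fun y => ¬ K₀ ≤ deg y)).card * K₀ := by
              rw [Finset.sum_const, smul_eq_mul]
          _ ≤ _ := Nat.mul_le_mul_right _ (Finset.card_le_card (Finset.filter_subset _ _))
    omega
  have hY₁pos : 0 < Y₁.card := by
    rcases Nat.eq_zero_or_pos Y₁.card with h | h
    · rw [h, zero_mul, mul_zero] at h3; omega
    · exact h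
  obtain ⟨T, hTX, hTm, W, hWY, hWE, hcard⟩ := biclique_aux E X Y₁ m K₀
    (fun y hy => (Finset.mem_filter.1 hy).2) hK hY₁pos m le_rfl
  refine ⟨T, hTX, hTm, W, hWY.trans (Finset.filter_subset _ _), hWE, ?_⟩
  calc E.card * (K₀ - m) ^ m ≤ (2 * (Y₁.card * X.card)) * (K₀ - m) ^ m :=
        Nat.mul_le_mul_right _ h3
    _ = 2 * X.card * (Y₁.card * (K₀ - m) ^ m) := by ring
    _ ≤ 2 * X.card * (W.card * X.card ^ m) := Nat.mul_le_mul_left _ hcard
    _ = _ := by ring

end Pool.Agent.Helper73.RK
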