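import Mathlib

/-!
# Most integers `q` lie in many of the residue classes `b p (mod D)`
-/

namespace Pool.Agent.Helper73.RK

open Finset

lemma class_card (a b r v : ℕ) (hab : a ≤ b) (hr : 0 < r) :
    (((Ico a b).filter (fun q => q ≡ v [MOD r])).card : ℝ) ≤ ((b : ℝ) - a) / r + 1 ∧
    ((b : ℝ) - a) / r - 1 ≤ (((Ico a b).filter (fun q => q ≡ v [MOD r])).card : ℝ) := by
  have h1 := Nat.Ico_filter_modEq_card a b hr v
  set c := ((Ico a b).filter (fun q => q ≡ v [MOD r])).card with hc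
  have hr' : (0 : ℚ) < r := by exact_mod_cast hr
  have h2 : (⌈((b : ℚ) - v) / r⌉ : ℚ) < ((b : ℚ) - v) / r + 1 := Int.ceil_lt_add_one _
  have h3 : ((b : ℚ) - v) / r ≤ (⌈((b : ℚ) - v) / r⌉ : ℚ) := Int.le_ceil _
  have h4 : (⌈((a : ℚ) - v) / r⌉ : ℚ) < ((a : ℚ) - v) / r + 1 := Int.ceil_lt_add_one _
  have h5 : ((a : ℚ) - v) / r ≤ (⌈((a : ℚ) - v) / r⌉ : ℚ) := Int.le_ceil _
  have h6 : ((b : ℚ) - v) / r - ((a : ℚ) - v) / r = ((b : ℚ) - a) / r := by ring
  have h7 : (0 : ℚ) ≤ ((b : ℚ) - a) / r := by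
    have : (a : ℚ) ≤ b := by exact_mod_cast hab
    exact div_nonneg (by linarith) hr'.le
  have h8 : (c : ℚ) = max ((⌈((b : ℚ) - v) / r⌉ : ℚ) - ⌈((a : ℚ) - v) / r⌉) 0 := by
    have := congrArg (fun z : ℤ => (z : ℚ)) h1
    push_cast at this
    exact this
  have h9 : (c : ℚ) ≤ ((b : ℚ) - a) / r + 1 := by
    rw [h8]
    exact max_le (by linarith) (by linarith)
  have h10 : ((b : ℚ) - a) / r - 1 ≤ (c : ℚ) := by
    rw [h8]
    exact le_max_of_le_left (by linarith)
  constructor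
  · have h11 : ((c : ℚ) : ℝ) ≤ (((((b : ℚ) - a) / r + 1 : ℚ)) : ℝ) := by exact_mod_cast h9
    push_cast at h11
    exact h11
  · have h11 : (((((b : ℚ) - a) / r - 1 : ℚ)) : ℝ) ≤ ((c : ℚ) : ℝ) := by exact_mod_cast h10
    push_cast at h11
    exact h11

lemma ind_mul (A B : Prop) [Decidable A] [Decidable B] :
    (if A then (1 : ℝ) else 0) * (if B then (1 : ℝ) else 0) = if A ∧ B then (1 : ℝ) else 0 := by
  by_cases hA : A <;> by_cases hB : B <;> simp [hA, hB]

/-- the number of pairs `(b, D)` with `b p ≡ q (mod D)` -/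
def rep (B : ℕ) (𝓓 : Finset ℕ) (p q : ℕ) : ℕ :=
  ((Ico B (2 * B) ×ˢ 𝓓).filter (fun z => q ≡ z.1 * p [MOD z.2])).card

/-- few integers `q` have few representations -/
theorem variance (R B D₀ p F₀ V : ℕ) (𝓓 : Finset ℕ)
    (hD : ∀ D ∈ 𝓓, D.Prime ∧ D₀ ≤ D ∧ D < 2 * D₀) (hp : p.Prime) (hpD : 2 * D₀ ≤ p)
    (hB : B ≤ D₀) (hD₀ : 1 ≤ D₀) (hF : 4 * F₀ * D₀ ≤ B * 𝓓.card)
    (hVF : V ≤ F₀) (hR : 16 * (D₀ * D₀) * V ≤ R) :
    ((Ico R (2 * R)).filter (fun q => rep B 𝓓 p q < F₀)).card * V ≤ 4 * R := by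
  classical
  rcases Nat.eq_zero_or_pos V with hV0 | hV0
  · rw [hV0, mul_zero]; exact Nat.zero_le _
  have hF0 : 0 < F₀ := by omega
  set Z := Ico B (2 * B) ×ˢ 𝓓 with hZ
  have hZcard : Z.card = B * 𝓓.card := by
    rw [hZ, Finset.card_product, Nat.card_Ico]
    congr 1
    omega
  have hZD : ∀ z ∈ Z, z.2.Prime ∧ D₀ ≤ z.2 ∧ z.2 < 2 * D₀ := fun z hz =>
    hD _ (Finset.mem_product.1 hz).2
  set nZ : ℝ := (Z.card : ℝ) with hnZ
  set μ : ℝ := ∑ z ∈ Z, (1 : ℝ) / z.2 with hμ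
  have hD₀r : (0 : ℝ) < D₀ := by exact_mod_cast hD₀
  have hnZ0 : (0 : ℝ) ≤ nZ := by positivity
  have hμlow : nZ / (2 * D₀) ≤ μ := by
    have h1 : ∑ _z ∈ Z, (1 : ℝ) / (2 * D₀) ≤ μ := by
      refine Finset.sum_le_sum fun z hz => ?_
      have h2 := (hZD z hz).2
      have h3 : (0 : ℝ) < z.2 := by exact_mod_cast (by omega : 0 < z.2)
      have h4 : (z.2 : ℝ) ≤ 2 * D₀ := by exact_mod_cast h2.2.le
      exact one_div_le_one_div_of_le h3 h4
    rw [Finset.sum_const, nsmul_eq_mul] at h1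
    rw [hnZ]
    calc ((Z.card : ℝ)) / (2 * D₀) = (Z.card : ℝ) * (1 / (2 * D₀)) := by ring
      _ ≤ μ := h1
  have hμup : μ ≤ nZ := by
    have h1 : μ ≤ ∑ _z ∈ Z, (1 : ℝ) := by
      refine Finset.sum_le_sum fun z hz => ?_
      have h3 : (1 : ℝ) ≤ z.2 := by exact_mod_cast (hZD z hz).1.one_lt.le
      rw [div_le_one (by linarith)]
      exact h3
    rw [Finset.sum_const, nsmul_eq_mul, mul_one] at h1
    exact h1
  have hRr : (0 : ℝ) ≤ R := by positivity
  have hμ0 : 0 ≤ μ := le_trans (by positivity) hμlow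
  -- the indicator
  let ind : ℕ × ℕ → ℕ → ℝ := fun z q => if q ≡ z.1 * p [MOD z.2] then 1 else 0
  have hrep : ∀ q, (rep B 𝓓 p q : ℝ) = ∑ z ∈ Z, ind z q := by
    intro q
    rw [rep, ← hZ, Finset.card_filter]
    push_cast
    rfl
  set I := Ico R (2 * R) with hI
  have hIcard : (I.card : ℝ) = R := by
    rw [hI, Nat.card_Ico]
    congr 1
    omega
  have hdiff : ((2 * R : ℕ) : ℝ) - R = R := by push_cast; ring
  -- first moment
  have hS1 : (R : ℝ) * μ - nZ ≤ ∑ q ∈ I, ∑ z ∈ Z, ind z q := by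
    rw [Finset.sum_comm]
    have h1 : ∀ z ∈ Z, (R : ℝ) / z.2 - 1 ≤ ∑ q ∈ I, ind z q := by
      intro z hz
      have h2 := (class_card R (2 * R) z.2 (z.1 * p) (by omega) (hZD z hz).1.pos).2
      rw [hdiff] at h2
      refine h2.trans (le_of_eq ?_)
      rw [Finset.card_filter]
      push_cast
      rfl
    calc (R : ℝ) * μ - nZ = ∑ z ∈ Z, ((R : ℝ) / z.2 - 1) := by
          rw [Finset.sum_sub_distrib, Finset.sum_const, nsmul_eq_mul, mul_one, hμ, Finset.mul_sum]
          congr 1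
          refine Finset.sum_congr rfl fun z _ => by ring
      _ ≤ _ := Finset.sum_le_sum h1
  -- second moment
  have hS2 : ∑ q ∈ I, (∑ z ∈ Z, ind z q) ^ 2 ≤ (R : ℝ) * μ ^ 2 + nZ ^ 2 + R * μ := by
    have h0 : ∑ q ∈ I, (∑ z ∈ Z, ind z q) ^ 2 = ∑ z ∈ Z, ∑ z' ∈ Z, ∑ q ∈ I, ind z q * ind z' q := by
      calc ∑ q ∈ I, (∑ z ∈ Z, ind z q) ^ 2 = ∑ q ∈ I, ∑ z ∈ Z, ∑ z' ∈ Z, ind z q * ind z' q := by
            refine Finset.sum_congr rfl fun q _ => ?_
            rw [sq, Finset.sum_mul_sum]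
        _ = ∑ z ∈ Z, ∑ q ∈ I, ∑ z' ∈ Z, ind z q * ind z' q := Finset.sum_comm
        _ = _ := Finset.sum_congr rfl fun z _ => Finset.sum_comm
    rw [h0]
    have h1 : ∀ z ∈ Z, ∀ z' ∈ Z, ∑ q ∈ I, ind z q * ind z' q ≤
        ((R : ℝ) * ((1 / z.2) * (1 / z'.2)) + 1) + if z = z' then (R : ℝ) / z.2 else 0 := by
      intro z hz z' hz'
      have hzp := (hZD z hz).1
      have hzp' := (hZD z' hz').1
      have hz0 : (0 : ℝ) < z.2 := by exact_mod_cast hzp.pos
      have hz0' : (0 : ℝ) < z'.2 := by exact_mod_cast hzp'.pos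
      have hnn : (0 : ℝ) ≤ (R : ℝ) * ((1 / z.2) * (1 / z'.2)) := by positivity
      have h2 : ∑ q ∈ I, ind z q * ind z' q =
          ((I.filter (fun q => q ≡ z.1 * p [MOD z.2] ∧ q ≡ z'.1 * p [MOD z'.2])).card : ℝ) := by
        rw [Finset.card_filter]
        push_cast
        exact Finset.sum_congr rfl fun q _ => ind_mul _ _
      rw [h2]
      by_cases he : z = z'
      · subst he
        rw [if_pos rfl]
        have h3 := (class_card R (2 * R) z.2 (z.1 * p) (by omega) hzp.pos).1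
        rw [hdiff] at h3
        have h4 : ((I.filter (fun q => q ≡ z.1 * p [MOD z.2] ∧ q ≡ z.1 * p [MOD z.2])).card : ℝ) ≤
            ((I.filter (fun q => q ≡ z.1 * p [MOD z.2])).card : ℝ) := by
          refine Nat.cast_le.2 (Finset.card_le_card fun q hq => ?_)
          have hq' := Finset.mem_filter.1 hq
          exact Finset.mem_filter.2 ⟨hq'.1, hq'.2.1⟩
        linarith
      · rw [if_neg he, add_zero]
        by_cases h22 : z.2 = z'.2
        · -- empty
          rw [Finset.filter_false_of_mem]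
          · simp only [Finset.card_empty, Nat.cast_zero]
            linarith
          · rintro q _ ⟨h3, h4⟩
            rw [← h22] at h4
            have h5 : z.1 * p ≡ z'.1 * p [MOD z.2] := h3.symm.trans h4
            have hcop : Nat.gcd z.2 p = 1 := by
              rw [← Nat.coprime_iff_gcd_eq_one, Nat.coprime_primes hzp hp]
              have := (hZD z hz).2.2
              omega
            have h6 : z.1 ≡ z'.1 [MOD z.2] := Nat.ModEq.cancel_right_of_coprime hcop h5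
            have hb := Finset.mem_Ico.1 (Finset.mem_product.1 hz).1
            have hb' := Finset.mem_Ico.1 (Finset.mem_product.1 hz').1
            have hzD := (hZD z hz).2.1
            apply he
            refine Prod.ext ?_ h22
            rcases Nat.lt_trichotomy z.1 z'.1 with h | h | h
            · exfalso
              have h7 := (Nat.modEq_iff_dvd' h.le).1 h6
              have h8 := Nat.le_of_dvd (by omega) h7
              omega
            · exact h
            · exfalso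
              have h7 := (Nat.modEq_iff_dvd' h.le).1 h6.symm
              have h8 := Nat.le_of_dvd (by omega) h7
              omega
        · have hcop : Nat.Coprime z.2 z'.2 := (Nat.coprime_primes hzp hzp').2 h22
          obtain ⟨v, hv1, hv2⟩ := Nat.chineseRemainder hcop (z.1 * p) (z'.1 * p)
          have h3 := (class_card R (2 * R) (z.2 * z'.2) v (by omega)
            (Nat.mul_pos hzp.pos hzp'.pos)).1
          rw [hdiff] at h3
          have h4 : I.filter (fun q => q ≡ z.1 * p [MOD z.2] ∧ q ≡ z'.1 * p [MOD z'.2]) ⊆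
              I.filter (fun q => q ≡ v [MOD z.2 * z'.2]) := by
            intro q hq
            obtain ⟨hq1, hq2, hq3⟩ := Finset.mem_filter.1 hq
            refine Finset.mem_filter.2 ⟨hq1, ?_⟩
            exact (Nat.modEq_and_modEq_iff_modEq_mul hcop).1
              ⟨hq2.trans hv1.symm, hq3.trans hv2.symm⟩
          have h5 : ((I.filter (fun q => q ≡ z.1 * p [MOD z.2] ∧
              q ≡ z'.1 * p [MOD z'.2])).card : ℝ) ≤
              ((I.filter (fun q => q ≡ v [MOD z.2 * z'.2])).card : ℝ) := by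
            exact_mod_cast Finset.card_le_card h4
          have h6 : (R : ℝ) / ((z.2 * z'.2 : ℕ) : ℝ) = (R : ℝ) * ((1 / z.2) * (1 / z'.2)) := by
            push_cast
            field_simp
          linarith
    calc ∑ z ∈ Z, ∑ z' ∈ Z, ∑ q ∈ I, ind z q * ind z' q
        ≤ ∑ z ∈ Z, ∑ z' ∈ Z, (((R : ℝ) * ((1 / z.2) * (1 / z'.2)) + 1) +
            if z = z' then (R : ℝ) / z.2 else 0) :=
          Finset.sum_le_sum fun z hz => Finset.sum_le_sum fun z' hz' => h1 z hz z' hz'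
      _ = ∑ z ∈ Z, ((R : ℝ) * ((1 / z.2) * μ) + nZ + (R : ℝ) / z.2) := by
          refine Finset.sum_congr rfl fun z hz => ?_
          rw [Finset.sum_add_distrib, Finset.sum_add_distrib, Finset.sum_const, nsmul_eq_mul,
            mul_one, Finset.sum_ite_eq, if_pos hz, ← Finset.mul_sum, ← Finset.mul_sum]
      _ = _ := by
          rw [Finset.sum_add_distrib, Finset.sum_add_distrib, Finset.sum_const, nsmul_eq_mul,
            ← Finset.mul_sum, ← Finset.sum_mul]
          have h7 : ∑ z ∈ Z, (R : ℝ) / z.2 = R * μ := by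
            rw [hμ, Finset.mul_sum]
            exact Finset.sum_congr rfl fun z _ => by ring
          rw [h7]
          ring
  -- the variance
  have h3 : nZ ≤ 2 * D₀ * μ := by
    rw [div_le_iff₀ (by positivity)] at hμlow
    linarith
  have hD1 : (1 : ℝ) ≤ D₀ := by exact_mod_cast hD₀
  have hVar : ∑ q ∈ I, ((rep B 𝓓 p q : ℝ) - μ) ^ 2 ≤ R * μ + 8 * (D₀ * D₀) * μ ^ 2 := by
    have h1 : ∑ q ∈ I, ((rep B 𝓓 p q : ℝ) - μ) ^ 2 =
        ∑ q ∈ I, (∑ z ∈ Z, ind z q) ^ 2 - 2 * μ * ∑ q ∈ I, ∑ z ∈ Z, ind z q + R * μ ^ 2 := by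
      calc ∑ q ∈ I, ((rep B 𝓓 p q : ℝ) - μ) ^ 2
          = ∑ q ∈ I, ((∑ z ∈ Z, ind z q) ^ 2 - 2 * μ * (∑ z ∈ Z, ind z q) + μ ^ 2) := by
            refine Finset.sum_congr rfl fun q _ => ?_
            rw [hrep]; ring
        _ = _ := by
            rw [Finset.sum_add_distrib, Finset.sum_sub_distrib, Finset.sum_const, nsmul_eq_mul,
              hIcard, ← Finset.mul_sum]
    rw [h1]
    have h4 : nZ ^ 2 ≤ 4 * (D₀ * D₀) * μ ^ 2 := by
      calc nZ ^ 2 ≤ (2 * D₀ * μ) ^ 2 := pow_le_pow_left₀ hnZ0 h3 2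
        _ = _ := by ring
    have h5 : 2 * μ * nZ ≤ 4 * (D₀ * D₀) * μ ^ 2 := by
      calc 2 * μ * nZ ≤ 2 * μ * (2 * D₀ * μ) := mul_le_mul_of_nonneg_left h3 (by positivity)
        _ = 4 * D₀ * μ ^ 2 * 1 := by ring
        _ ≤ 4 * D₀ * μ ^ 2 * D₀ := mul_le_mul_of_nonneg_left hD1 (by positivity)
        _ = _ := by ring
    have h6 := mul_le_mul_of_nonneg_left hS1 hμ0
    nlinarith
  -- conclusion
  have hFμ : 2 * (F₀ : ℝ) ≤ μ := by
    have h1 : 4 * (F₀ : ℝ) * D₀ ≤ nZ := by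
      rw [hnZ, hZcard]; exact_mod_cast hF
    refine le_trans ?_ hμlow
    rw [le_div_iff₀ (by positivity)]
    linarith
  have hF0r : (0 : ℝ) < F₀ := by exact_mod_cast hF0
  set bad := I.filter (fun q => rep B 𝓓 p q < F₀) with hbad
  have h6 : (bad.card : ℝ) * (μ ^ 2 / 4) ≤ R * μ + 8 * (D₀ * D₀) * μ ^ 2 := by
    refine le_trans ?_ hVar
    calc (bad.card : ℝ) * (μ ^ 2 / 4) = ∑ _q ∈ bad, μ ^ 2 / 4 := by
          rw [Finset.sum_const, nsmul_eq_mul]
      _ ≤ ∑ q ∈ bad, ((rep B 𝓓 p q : ℝ) - μ) ^ 2 := by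
          refine Finset.sum_le_sum fun q hq => ?_
          have h7 : (rep B 𝓓 p q : ℝ) < F₀ := by exact_mod_cast (Finset.mem_filter.1 hq).2
          nlinarith
      _ ≤ _ := Finset.sum_le_sum_of_subset_of_nonneg (Finset.filter_subset _ _)
          fun q _ _ => sq_nonneg _
  have hμpos : 0 < μ := by linarith
  have h8 : (bad.card : ℝ) * μ ≤ 4 * R + 32 * (D₀ * D₀) * μ := by
    have h9 : ((bad.card : ℝ) * μ) * μ ≤ (4 * R + 32 * (D₀ * D₀) * μ) * μ := by nlinarith
    exact le_of_mul_le_mul_right h9 hμpos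
  have hVr : (0 : ℝ) < V := by exact_mod_cast hV0
  have hVμ : 2 * (V : ℝ) ≤ μ := by
    have : (V : ℝ) ≤ F₀ := by exact_mod_cast hVF
    linarith
  have hRV : 16 * ((D₀ : ℝ) * D₀) * V ≤ R := by exact_mod_cast hR
  have h10 : (bad.card : ℝ) * V ≤ 4 * R := by
    have h11 : ((bad.card : ℝ) * V) * μ ≤ (4 * R) * μ := by
      calc ((bad.card : ℝ) * V) * μ = ((bad.card : ℝ) * μ) * V := by ring
        _ ≤ (4 * R + 32 * (D₀ * D₀) * μ) * V := mul_le_mul_of_nonneg_right h8 hVr.le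
        _ = 2 * R * (2 * V) + 2 * (16 * ((D₀ : ℝ) * D₀) * V) * μ := by ring
        _ ≤ 2 * R * μ + 2 * R * μ := by
            refine add_le_add (mul_le_mul_of_nonneg_left hVμ (by positivity)) ?_
            exact mul_le_mul_of_nonneg_right (by linarith) hμ0
        _ = _ := by ring
    exact le_of_mul_le_mul_right h11 hμpos
  exact_mod_cast h10

end Pool.Agent.Helper73.RK
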