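import Mathlib
import Pool.Agent.Helper73.RK.Config
import Pool.Agent.Helper73.RK.Variance

/-!
# Edges in planes
-/

namespace Pool.Agent.Helper73.RK

open Finset

/-- the two representations are determined by the three moduli -/
lemma inj_key {p q q' R B D₀ b b' b₁ b₁' D D' D₁ D₁' d d₁ : ℕ} (hp : p.Prime) (hpR : R ≤ p)
    (hq : R ≤ q ∧ q < 2 * R) (hq' : R ≤ q' ∧ q' < 2 * R) (hpq : ¬ p ∣ q)
    (hqq : q' ≠ q) (hsmall : (2 * D₀) * (2 * D₀) ≤ R) (hB : B ≤ D₀)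
    (hb : B ≤ b ∧ b < 2 * B)
    (hb₁ : B ≤ b₁ ∧ b₁ < 2 * B)
    (hD : D.Prime ∧ D₀ ≤ D ∧ D < 2 * D₀) (hD' : D'.Prime ∧ D₀ ≤ D' ∧ D' < 2 * D₀)
    (hD₁ : D₁.Prime ∧ D₀ ≤ D₁ ∧ D₁ < 2 * D₀) (hD₁' : D₁'.Prime ∧ D₀ ≤ D₁' ∧ D₁' < 2 * D₀)
    (e : b * p = q + d * D) (e' : b' * p = q' + d * D')
    (e₁ : b₁ * p = q + d₁ * D₁) (e₁' : b₁' * p = q' + d₁ * D₁') :
    b = b₁ ∧ D = D₁ ∧ b' = b₁' ∧ D' = D₁' := by
  have hpz : (0 : ℤ) < p := by exact_mod_cast hp.pos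
  have f : (b : ℤ) * p = q + d * D := by exact_mod_cast e
  have f' : (b' : ℤ) * p = q' + d * D' := by exact_mod_cast e'
  have f₁ : (b₁ : ℤ) * p = q + d₁ * D₁ := by exact_mod_cast e₁
  have f₁' : (b₁' : ℤ) * p = q' + d₁ * D₁' := by exact_mod_cast e₁'
  have g : (D' : ℤ) * q - D * q' = (D' * b - D * b') * p := by
    linear_combination (D : ℤ) * f' - D' * f
  have g₁ : (D₁' : ℤ) * q - D₁ * q' = (D₁' * b₁ - D₁ * b₁') * p := by
    linear_combination (D₁ : ℤ) * f₁' - D₁' * f₁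
  -- no coincidence `D = D'`
  have hne : ∀ x y : ℕ, ∀ b b' : ℤ, (x : ℤ) * q - y * q' = (x * b - y * b') * p → 0 < x → x ≠ y := by
    rintro x y b b' h hx rfl
    have hxz : (x : ℤ) ≠ 0 := by exact_mod_cast hx.ne'
    have h1 : (q : ℤ) - q' = (b - b') * p := by
      refine mul_left_cancel₀ hxz ?_
      linear_combination h
    have h2 : |(q : ℤ) - q'| < p := by
      rw [abs_lt]; constructor <;> omega
    have h3 : (q : ℤ) - q' = 0 := Int.eq_zero_of_abs_lt_dvd ⟨b - b', by rw [h1]; ring⟩ h2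
    apply hqq
    omega
  have hDD' : D' ≠ D := hne D' D b b' g hD'.1.pos
  have hDD₁' : D₁' ≠ D₁ := hne D₁' D₁ b₁ b₁' g₁ hD₁'.1.pos
  -- the proportionality
  have h1 : ((D' : ℤ) * D₁ - D₁' * D) * q = ((D' * b - D * b') * D₁ - (D₁' * b₁ - D₁ * b₁') * D) * p := by
    linear_combination (D₁ : ℤ) * g - D * g₁
  have hcop : IsCoprime (p : ℤ) (q : ℤ) := by
    rw [Nat.isCoprime_iff_coprime]
    exact (Nat.Prime.coprime_iff_not_dvd hp).2 hpq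
  have h2 : (p : ℤ) ∣ (D' : ℤ) * D₁ - D₁' * D :=
    hcop.dvd_of_dvd_mul_right (Dvd.intro_left _ h1.symm)
  have h3 : (D' : ℤ) * D₁ - D₁' * D = 0 := by
    refine Int.eq_zero_of_abs_lt_dvd h2 ?_
    have h4 : D' * D₁ < (2 * D₀) * (2 * D₀) := Nat.mul_lt_mul'' hD'.2.2 hD₁.2.2
    have h5 : D₁' * D < (2 * D₀) * (2 * D₀) := Nat.mul_lt_mul'' hD₁'.2.2 hD.2.2
    have h4' : ((D' : ℤ) * D₁) < p := by exact_mod_cast lt_of_lt_of_le h4 (hsmall.trans hpR)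
    have h5' : ((D₁' : ℤ) * D) < p := by exact_mod_cast lt_of_lt_of_le h5 (hsmall.trans hpR)
    have h6 : (0 : ℤ) ≤ (D' : ℤ) * D₁ := by positivity
    have h7 : (0 : ℤ) ≤ (D₁' : ℤ) * D := by positivity
    rw [abs_lt]; constructor <;> linarith
  have h4 : D' * D₁ = D₁' * D := by
    have : (D' : ℤ) * D₁ = D₁' * D := by linarith
    exact_mod_cast this
  have h5 : D ∣ D' * D₁ := ⟨D₁', by rw [h4, mul_comm]⟩
  have h6 : D = D₁ := by
    rcases (hD.1.dvd_mul).1 h5 with h | h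
    · exact absurd ((Nat.prime_dvd_prime_iff_eq hD.1 hD'.1).1 h).symm hDD'
    · exact (Nat.prime_dvd_prime_iff_eq hD.1 hD₁.1).1 h
  subst h6
  have h7 : D' = D₁' := Nat.eq_of_mul_eq_mul_right hD.1.pos h4
  subst h7
  have h8 : (D' : ℤ) * (b - b₁) = D * (b' - b₁') := by
    have h9 : ((D' : ℤ) * b - D * b') * p = (D' * b₁ - D * b₁') * p := by rw [← g, ← g₁]
    have h10 := mul_right_cancel₀ hpz.ne' h9
    linarith
  have h11 : (D : ℤ) ∣ (b : ℤ) - b₁ := by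
    have hc : IsCoprime (D : ℤ) (D' : ℤ) := by
      rw [Nat.isCoprime_iff_coprime]
      exact (Nat.coprime_primes hD.1 hD'.1).2 hDD'.symm
    exact hc.dvd_of_dvd_mul_left (Dvd.intro _ h8.symm)
  have h12 : (b : ℤ) - b₁ = 0 := by
    refine Int.eq_zero_of_abs_lt_dvd h11 ?_
    rw [abs_lt]; constructor <;> omega
  have h13 : (b' : ℤ) - b₁' = 0 := by
    rw [h12, mul_zero] at h8
    exact (mul_eq_zero.1 h8.symm).resolve_left (by exact_mod_cast hD.1.pos.ne')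
  exact ⟨by omega, rfl, by omega, rfl⟩

/-- the edges of all planes: `((p, q), (b, D))` with `b p = q + d D` -/
noncomputable def edges (P : Finset ℕ) (a : ℕ → ℤ) (N Λ B : ℕ) (𝓓 : Finset ℕ) :
    Finset ((ℕ × ℕ) × (ℕ × ℕ)) :=
  (GG P a N Λ ×ˢ (Ico B (2 * B) ×ˢ 𝓓)).filter (fun e => e.1.2 ≡ e.2.1 * e.1.1 [MOD e.2.2])

/-- the modulus of the plane -/
def dd (e : (ℕ × ℕ) × (ℕ × ℕ)) : ℕ := (e.2.1 * e.1.1 - e.1.2) / e.2.2

variable {P : Finset ℕ} {a : ℕ → ℤ} {N Λ R B D₀ : ℕ} {𝓓 : Finset ℕ}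

lemma mem_edges {e : (ℕ × ℕ) × (ℕ × ℕ)} : e ∈ edges P a N Λ B 𝓓 ↔
    e.1 ∈ GG P a N Λ ∧ (B ≤ e.2.1 ∧ e.2.1 < 2 * B) ∧ e.2.2 ∈ 𝓓 ∧
      e.1.2 ≡ e.2.1 * e.1.1 [MOD e.2.2] := by
  rw [edges, Finset.mem_filter, Finset.mem_product, Finset.mem_product, Finset.mem_Ico]
  tauto

lemma card_edges (P : Finset ℕ) (a : ℕ → ℤ) (N Λ B : ℕ) (𝓓 : Finset ℕ) :
    (edges P a N Λ B 𝓓).card = ∑ g ∈ GG P a N Λ, rep B 𝓓 g.1 g.2 := by
  simp only [edges, rep, Finset.card_filter]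
  exact Finset.sum_product _ _ _

lemma edge_eq (hP : ∀ p ∈ P, p.Prime ∧ R ≤ p ∧ p < 2 * R) (hB : 2 ≤ B)
    {e : (ℕ × ℕ) × (ℕ × ℕ)} (he : e ∈ edges P a N Λ B 𝓓) :
    e.2.1 * e.1.1 = e.1.2 + dd e * e.2.2 := by
  obtain ⟨h1, h2, h3, h4⟩ := mem_edges.1 he
  obtain ⟨h5, h6, -, -⟩ := mem_GG.1 h1
  have h7 : e.1.2 ≤ e.2.1 * e.1.1 := by
    have h8 := (hP _ h5).2.1
    have h9 := (hP _ h6).2.2
    calc e.1.2 ≤ 2 * R := h9.le
      _ ≤ e.2.1 * e.1.1 := Nat.mul_le_mul (by omega) h8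
  have h8 : e.2.2 ∣ e.2.1 * e.1.1 - e.1.2 := (Nat.modEq_iff_dvd' h7).1 h4
  rw [dd, Nat.div_mul_cancel h8]
  omega

/-- the other edges of the same plane, with the same first modulus, meeting at the same point -/
noncomputable def near (P : Finset ℕ) (a : ℕ → ℤ) (N Λ B : ℕ) (𝓓 : Finset ℕ)
    (e : (ℕ × ℕ) × (ℕ × ℕ)) : Finset ((ℕ × ℕ) × (ℕ × ℕ)) :=
  (edges P a N Λ B 𝓓).filter (fun e' => e'.1.1 = e.1.1 ∧ dd e' = dd e ∧
    pt a N e.1.1 e'.1.2 = pt a N e.1.1 e.1.2 ∧ e'.1.2 ≠ e.1.2)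

theorem sum_near (hP : ∀ p ∈ P, p.Prime ∧ R ≤ p ∧ p < 2 * R)
    (hD : ∀ D ∈ 𝓓, D.Prime ∧ D₀ ≤ D ∧ D < 2 * D₀) (hB : 2 ≤ B) (hBD : B ≤ D₀)
    (hsmall : (2 * D₀) * (2 * D₀) ≤ R) (hN : N ≤ R * R) :
    ∑ e ∈ edges P a N Λ B 𝓓, (near P a N Λ B 𝓓 e).card ≤ (GG P a N Λ).card * Λ := by
  classical
  have hP' : ∀ p ∈ P, p.Prime ∧ R ≤ p := fun p hp => ⟨(hP p hp).1, (hP p hp).2.1⟩
  rw [← Finset.card_sigma]
  calc ((edges P a N Λ B 𝓓).sigma (near P a N Λ B 𝓓)).card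
      ≤ ((GG P a N Λ).sigma (fun g => AA P a (pt a N g.1 g.2))).card := by
        refine Finset.card_le_card_of_injOn (fun x => ⟨x.1.1, x.2.1.2⟩) ?_ ?_
        · rintro ⟨e, e'⟩ hx
          rw [Finset.mem_coe, Finset.mem_sigma] at hx
          obtain ⟨he, he'⟩ := hx
          simp only at he he'
          obtain ⟨h1, h2, h3, h4, h5⟩ := Finset.mem_filter.1 he'
          rw [Finset.mem_coe, Finset.mem_sigma]
          have hg := (mem_edges.1 he).1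
          have hg' := (mem_edges.1 h1).1
          refine ⟨hg, ?_⟩
          simp only
          rw [AA, Finset.mem_filter]
          refine ⟨(mem_GG.1 hg').2.1, ?_⟩
          have h6 : (e'.1.1, e'.1.2) ∈ GG P a N Λ := hg'
          have h7 := (GG_pt hP' hN h6).1.2.2.2
          rw [h2, h4] at h7
          exact h7
        · rintro ⟨e, e'⟩ hx ⟨f, f'⟩ hy hxy
          rw [Finset.mem_coe, Finset.mem_sigma] at hx hy
          obtain ⟨he, he'⟩ := hx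
          obtain ⟨hf, hf'⟩ := hy
          simp only at he he' hf hf'
          obtain ⟨h1, h2, h3, h4, h5⟩ := Finset.mem_filter.1 he'
          obtain ⟨k1, k2, k3, k4, k5⟩ := Finset.mem_filter.1 hf'
          simp only [Sigma.mk.injEq, heq_eq_eq] at hxy
          obtain ⟨hxy1, hxy2⟩ := hxy
          have e1 := edge_eq hP hB he
          have e2 := edge_eq hP hB h1
          have e3 := edge_eq hP hB hf
          have e4 := edge_eq hP hB k1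
          rw [h2, h3] at e2
          rw [k2, k3, ← hxy1, ← hxy2] at e4
          rw [← hxy1] at e3
          obtain ⟨m1, m2, m3, -⟩ := mem_edges.1 he
          obtain ⟨m1', m2', m3', -⟩ := mem_edges.1 h1
          obtain ⟨n1, n2, n3, -⟩ := mem_edges.1 hf
          obtain ⟨n1', n2', n3', -⟩ := mem_edges.1 k1
          obtain ⟨g1, g2, g3, -⟩ := mem_GG.1 m1
          obtain ⟨-, g2', -, -⟩ := mem_GG.1 m1'
          obtain ⟨r1, r2, r3, r4⟩ := inj_key (hP _ g1).1 (hP _ g1).2.1 (hP _ g2).2 (hP _ g2').2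
            (fun h => g3 ((Nat.prime_dvd_prime_iff_eq (hP _ g1).1 (hP _ g2).1).1 h))
            h5 hsmall hBD m2 n2 (hD _ m3) (hD _ m3') (hD _ n3) (hD _ n3') e1 e2 e3 e4
          have he1 : e = f := Prod.ext hxy1 (Prod.ext r1 r2)
          have he2 : e' = f' := by
            refine Prod.ext (Prod.ext ?_ hxy2) (Prod.ext r3 r4)
            rw [h2, k2, hxy1]
          rw [he1, he2]
    _ = ∑ g ∈ GG P a N Λ, (AA P a (pt a N g.1 g.2)).card := Finset.card_sigma _ _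
    _ ≤ ∑ _g ∈ GG P a N Λ, Λ := by
        refine Finset.sum_le_sum fun g hg => ?_
        exact (GG_pt hP' hN (show (g.1, g.2) ∈ GG P a N Λ from hg)).2
    _ = _ := by rw [Finset.sum_const, smul_eq_mul]

end Pool.Agent.Helper73.RK
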