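import Mathlib

/-!
# Siegel's lemma, integer version with entrywise bounds
-/

namespace Pool.Agent.Helper73.RK

attribute [local instance] Matrix.seminormedAddCommGroup

open Matrix

/-- Siegel's lemma: an integer system with more unknowns than equations and entries bounded by `H`
has a non-zero solution with entries bounded by `(n H) ^ e`, if `m ≤ e (n - m)`. -/
theorem siegel {α β : Type*} [Fintype α] [Fintype β] (M : Matrix α β ℤ) (H : ℕ) (hH1 : 1 ≤ H)
    (hH : ∀ i j, |M i j| ≤ (H : ℤ)) (e : ℕ) (hlt : Fintype.card α < Fintype.card β)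
    (hpos : 0 < Fintype.card α)
    (he : Fintype.card α ≤ e * (Fintype.card β - Fintype.card α)) :
    ∃ t : β → ℤ, t ≠ 0 ∧ M *ᵥ t = 0 ∧ ∀ j, |t j| ≤ (((Fintype.card β * H) ^ e : ℕ) : ℤ) := by
  obtain ⟨t, ht, hMt, hn⟩ := Int.Matrix.exists_ne_zero_int_vec_norm_le M hlt hpos
  refine ⟨t, ht, hMt, fun j => ?_⟩
  have h1 : ‖M‖ ≤ (H : ℝ) := by
    rw [Matrix.norm_le_iff (by positivity)]
    intro i j
    rw [Int.norm_eq_abs]
    exact_mod_cast hH i j
  have h2 : max 1 ‖M‖ ≤ (H : ℝ) := max_le (by exact_mod_cast hH1) h1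
  have hsub : (0 : ℝ) < (Fintype.card β : ℝ) - Fintype.card α := by
    have : (Fintype.card α : ℝ) < Fintype.card β := by exact_mod_cast hlt
    linarith
  have h3 : ((Fintype.card α : ℝ) / (Fintype.card β - Fintype.card α)) ≤ (e : ℝ) := by
    rw [div_le_iff₀ hsub]
    have : ((Fintype.card β - Fintype.card α : ℕ) : ℝ) = (Fintype.card β : ℝ) - Fintype.card α :=
      Nat.cast_sub hlt.le
    rw [← this]
    exact_mod_cast he
  have h4 : (1 : ℝ) ≤ (Fintype.card β : ℝ) * max 1 ‖M‖ := by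
    have hb : (1 : ℝ) ≤ (Fintype.card β : ℝ) := by
      exact_mod_cast (by omega : 1 ≤ Fintype.card β)
    calc (1 : ℝ) = 1 * 1 := by ring
      _ ≤ _ := mul_le_mul hb (le_max_left _ _) (by norm_num) (by positivity)
  have h5 : ‖t‖ ≤ ((Fintype.card β : ℝ) * H) ^ (e : ℕ) := by
    refine hn.trans ?_
    calc ((Fintype.card β : ℝ) * max 1 ‖M‖) ^ ((Fintype.card α : ℝ) /
          (Fintype.card β - Fintype.card α))
        ≤ ((Fintype.card β : ℝ) * max 1 ‖M‖) ^ ((e : ℕ) : ℝ) :=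
          Real.rpow_le_rpow_of_exponent_le h4 h3
      _ = ((Fintype.card β : ℝ) * max 1 ‖M‖) ^ (e : ℕ) := Real.rpow_natCast _ _
      _ ≤ _ := by gcongr
  have h6 : ‖t j‖ ≤ ‖t‖ := norm_le_pi_norm t j
  rw [Int.norm_eq_abs] at h6
  have h7 : ((|t j| : ℤ) : ℝ) ≤ (((Fintype.card β * H) ^ e : ℕ) : ℝ) := by
    push_cast
    exact h6.trans h5
  exact_mod_cast h7

end Pool.Agent.Helper73.RK
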