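import Mathlib
import Pool.Agent.Helper73.RK.Siegel

/-!
# Integer polynomials with controlled coefficients
-/

namespace Pool.Agent.Helper73.RK

open Finset Polynomial

/-- the value at `(b, y)` of the degree `k` homogenisation of `P` -/
def hom (k : ℕ) (P : ℤ[X]) (b y : ℤ) : ℤ := ∑ j ∈ range (k + 1), P.coeff j * (b ^ (k - j) * y ^ j)

lemma hom_cast {k : ℕ} {P : ℤ[X]} (hP : P.natDegree ≤ k) {b : ℤ} (hb : b ≠ 0) (y : ℤ) :
    ((hom k P b y : ℤ) : ℚ) =
      (b : ℚ) ^ k * (P.map (Int.castRingHom ℚ)).eval ((y : ℚ) / b) := by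
  have hb' : (b : ℚ) ≠ 0 := by exact_mod_cast hb
  rw [eval_eq_sum_range' (n := k + 1) (lt_of_le_of_lt natDegree_map_le (by omega)), hom,
    Finset.mul_sum, Int.cast_sum]
  refine Finset.sum_congr rfl fun j hj => ?_
  have hjk : j ≤ k := Nat.lt_succ_iff.1 (Finset.mem_range.1 hj)
  rw [coeff_map, div_pow]
  push_cast
  have h1 : (b : ℚ) ^ k = (b : ℚ) ^ (k - j) * (b : ℚ) ^ j := by
    rw [← pow_add]; congr 1; omega
  rw [h1]
  field_simp
  simp [mul_comm]

lemma abs_hom_le {k : ℕ} {P : ℤ[X]} {H V : ℤ} (hH : ∀ j, |P.coeff j| ≤ H) {b y : ℤ}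
    (hb : |b| ≤ V) (hy : |y| ≤ V) : |hom k P b y| ≤ (k + 1) * (H * V ^ k) := by
  have hV : 0 ≤ V := (abs_nonneg b).trans hb
  refine (Finset.abs_sum_le_sum_abs _ _).trans ?_
  calc ∑ j ∈ range (k + 1), |P.coeff j * (b ^ (k - j) * y ^ j)|
      ≤ ∑ _j ∈ range (k + 1), H * V ^ k := by
        refine Finset.sum_le_sum fun j hj => ?_
        have hjk : j ≤ k := Nat.lt_succ_iff.1 (Finset.mem_range.1 hj)
        rw [abs_mul, abs_mul, abs_pow, abs_pow]
        have h1 : |b| ^ (k - j) * |y| ^ j ≤ V ^ k := by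
          calc |b| ^ (k - j) * |y| ^ j ≤ V ^ (k - j) * V ^ j := by gcongr
            _ = V ^ k := by rw [← pow_add]; congr 1; omega
        exact mul_le_mul (hH j) h1 (by positivity) ((abs_nonneg _).trans (hH j))
    _ = _ := by rw [Finset.sum_const, card_range, nsmul_eq_mul]; push_cast; ring

/-- Siegel's lemma for rational functions -/
lemma siegel_nodes {ι : Type*} (T : Finset ι) (b y s : ι → ℤ) (k : ℕ) (V : ℕ) (hV : 1 ≤ V)
    (hT : T.card = 2 * k + 1)
    (hb : ∀ w ∈ T, |b w| ≤ V) (hy : ∀ w ∈ T, |y w| ≤ V) (hs : ∀ w ∈ T, |s w| ≤ V) :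
    ∃ A C : ℤ[X], ¬ (A = 0 ∧ C = 0) ∧ A.natDegree ≤ k ∧ C.natDegree ≤ k ∧
      (∀ j, |A.coeff j| ≤ ((((2 * k + 2) * V ^ (k + 1)) ^ (2 * k + 1) : ℕ) : ℤ)) ∧
      (∀ j, |C.coeff j| ≤ ((((2 * k + 2) * V ^ (k + 1)) ^ (2 * k + 1) : ℕ) : ℤ)) ∧
      ∀ w ∈ T, hom k A (b w) (y w) = s w * hom k C (b w) (y w) := by
  classical
  let M : Matrix T (Fin (k + 1) ⊕ Fin (k + 1)) ℤ := fun w j =>
    Sum.elim (fun j : Fin (k + 1) => b w ^ (k - (j : ℕ)) * y w ^ (j : ℕ))
      (fun j : Fin (k + 1) => - (s w * (b w ^ (k - (j : ℕ)) * y w ^ (j : ℕ)))) j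
  have hcardα : Fintype.card T = 2 * k + 1 := by rw [Fintype.card_coe, hT]
  have hcardβ : Fintype.card (Fin (k + 1) ⊕ Fin (k + 1)) = 2 * k + 2 := by
    rw [Fintype.card_sum, Fintype.card_fin]; omega
  have hent : ∀ w : T, ∀ j : Fin (k + 1), |b w ^ (k - (j : ℕ)) * y w ^ (j : ℕ)| ≤ (V : ℤ) ^ k := by
    intro w j
    have hj : (j : ℕ) ≤ k := Nat.lt_succ_iff.1 j.2
    rw [abs_mul, abs_pow, abs_pow]
    calc |b w| ^ (k - (j : ℕ)) * |y w| ^ (j : ℕ) ≤ (V : ℤ) ^ (k - (j : ℕ)) * (V : ℤ) ^ (j : ℕ) := by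
          gcongr
          · exact hb w w.2
          · exact hy w w.2
      _ = (V : ℤ) ^ k := by rw [← pow_add]; congr 1; omega
  have hVz : (1 : ℤ) ≤ V := by exact_mod_cast hV
  obtain ⟨t, ht0, hMt, ht⟩ := siegel M (V ^ (k + 1)) (Nat.one_le_pow _ _ hV) (by
    intro w j
    push_cast
    rcases j with j | j
    · change |b w ^ (k - (j : ℕ)) * y w ^ (j : ℕ)| ≤ _
      refine (hent w j).trans ?_
      exact pow_le_pow_right₀ hVz (Nat.le_succ k)
    · change |- (s w * (b w ^ (k - (j : ℕ)) * y w ^ (j : ℕ)))| ≤ _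
      rw [abs_neg, abs_mul]
      calc |s w| * |b w ^ (k - (j : ℕ)) * y w ^ (j : ℕ)| ≤ V * (V : ℤ) ^ k :=
            mul_le_mul (hs w w.2) (hent w j) (abs_nonneg _) (by positivity)
        _ = _ := by ring) (2 * k + 1) (by omega) (by omega) (by rw [hcardα, hcardβ]; simp)
  rw [hcardβ] at ht
  refine ⟨ofFn (k + 1) (fun j => t (Sum.inl j)), ofFn (k + 1) (fun j => t (Sum.inr j)), ?_,
    Nat.lt_succ_iff.1 (ofFn_natDegree_lt (by omega) _),
    Nat.lt_succ_iff.1 (ofFn_natDegree_lt (by omega) _), ?_, ?_, ?_⟩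
  · rintro ⟨h1, h2⟩
    apply ht0
    funext j
    rcases j with j | j
    · have := congrArg (fun P => P.coeff (j : ℕ)) h1
      simpa [ofFn_coeff_eq_val_of_lt _ j.2] using this
    · have := congrArg (fun P => P.coeff (j : ℕ)) h2
      simpa [ofFn_coeff_eq_val_of_lt _ j.2] using this
  · intro j
    by_cases hj : j < k + 1
    · rw [ofFn_coeff_eq_val_of_lt _ hj]; exact ht _
    · rw [ofFn_coeff_eq_zero_of_ge _ (not_lt.1 hj)]; simp only [abs_zero]; positivity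
  · intro j
    by_cases hj : j < k + 1
    · rw [ofFn_coeff_eq_val_of_lt _ hj]; exact ht _
    · rw [ofFn_coeff_eq_zero_of_ge _ (not_lt.1 hj)]; simp only [abs_zero]; positivity
  · intro w hw
    have h1 : (M.mulVec t) ⟨w, hw⟩ = 0 := by rw [hMt]; rfl
    rw [Matrix.mulVec, dotProduct, Fintype.sum_sum_type] at h1
    simp only [M, Sum.elim_inl, Sum.elim_inr] at h1
    rw [hom, hom, Finset.sum_range, Finset.sum_range, Finset.mul_sum]
    rw [add_eq_zero_iff_eq_neg, ← Finset.sum_neg_distrib] at h1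
    calc ∑ i : Fin (k + 1), (ofFn (k + 1) fun j => t (Sum.inl j)).coeff (i : ℕ) *
          (b w ^ (k - (i : ℕ)) * y w ^ (i : ℕ))
        = ∑ i : Fin (k + 1), b w ^ (k - (i : ℕ)) * y w ^ (i : ℕ) * t (Sum.inl i) := by
          refine Finset.sum_congr rfl fun i _ => ?_
          rw [ofFn_coeff_eq_val_of_lt _ i.2, mul_comm]
      _ = _ := h1
      _ = _ := by
          refine Finset.sum_congr rfl fun i _ => ?_
          rw [ofFn_coeff_eq_val_of_lt _ i.2]
          simp only [Fin.eta]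
          ring

lemma coeff_mul_eq_sum {k : ℕ} {U A : ℤ[X]} (hU : U.natDegree < k) (n : ℕ) :
    (U * A).coeff n = ∑ j ∈ range k, U.coeff j * (if j ≤ n then A.coeff (n - j) else 0) := by
  conv_lhs => rw [U.as_sum_range' k hU]
  rw [Finset.sum_mul, finsetSum_coeff]
  refine Finset.sum_congr rfl fun j _ => ?_
  rw [← C_mul_X_pow_eq_monomial, mul_assoc, coeff_C_mul, coeff_X_pow_mul']

/-- Bezout's identity with controlled coefficients -/
lemma siegel_bezout (k : ℕ) (hk : 1 ≤ k) (A C : ℤ[X]) (hA : A.natDegree ≤ k) (hC : C.natDegree ≤ k)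
    (H : ℕ) (hH1 : 1 ≤ H) (hAH : ∀ j, |A.coeff j| ≤ (H : ℤ)) (hCH : ∀ j, |C.coeff j| ≤ (H : ℤ)) :
    ∃ U V : ℤ[X], ¬ (U = 0 ∧ V = 0) ∧ U.natDegree < k ∧ V.natDegree < k ∧
      (∀ j, |U.coeff j| ≤ (((2 * k * H) ^ (2 * k - 1) : ℕ) : ℤ)) ∧
      (∀ j, |V.coeff j| ≤ (((2 * k * H) ^ (2 * k - 1) : ℕ) : ℤ)) ∧
      ∃ R₀ : ℤ, U * A + V * C = Polynomial.C R₀ ∧
        |R₀| ≤ 2 * ((((2 * k * H) ^ (2 * k - 1) : ℕ) : ℤ) * H) := by
  classical
  let M : Matrix (Fin (2 * k - 1)) (Fin k ⊕ Fin k) ℤ := fun i j =>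
    Sum.elim (fun j : Fin k => if (j : ℕ) ≤ (i : ℕ) + 1 then A.coeff ((i : ℕ) + 1 - j) else 0)
      (fun j : Fin k => if (j : ℕ) ≤ (i : ℕ) + 1 then C.coeff ((i : ℕ) + 1 - j) else 0) j
  have hcardα : Fintype.card (Fin (2 * k - 1)) = 2 * k - 1 := Fintype.card_fin _
  have hcardβ : Fintype.card (Fin k ⊕ Fin k) = 2 * k := by
    rw [Fintype.card_sum, Fintype.card_fin]; omega
  have hHz : (0 : ℤ) ≤ H := by positivity
  obtain ⟨t, ht0, hMt, ht⟩ := siegel M H hH1 (by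
    intro i j
    rcases j with j | j
    · change |if (j : ℕ) ≤ (i : ℕ) + 1 then A.coeff ((i : ℕ) + 1 - j) else 0| ≤ _
      split_ifs
      · exact hAH _
      · simp
    · change |if (j : ℕ) ≤ (i : ℕ) + 1 then C.coeff ((i : ℕ) + 1 - j) else 0| ≤ _
      split_ifs
      · exact hCH _
      · simp) (2 * k - 1) (by omega) (by omega) (by
        rw [hcardα, hcardβ]
        have : 2 * k - (2 * k - 1) = 1 := by omega
        rw [this, mul_one])
  rw [hcardβ] at ht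
  set U : ℤ[X] := ofFn k (fun j => t (Sum.inl j)) with hU
  set V : ℤ[X] := ofFn k (fun j => t (Sum.inr j)) with hV
  have hUd : U.natDegree < k := ofFn_natDegree_lt hk _
  have hVd : V.natDegree < k := ofFn_natDegree_lt hk _
  have hUc : ∀ j : Fin k, U.coeff (j : ℕ) = t (Sum.inl j) := fun j =>
    ofFn_coeff_eq_val_of_lt _ j.2
  have hVc : ∀ j : Fin k, V.coeff (j : ℕ) = t (Sum.inr j) := fun j =>
    ofFn_coeff_eq_val_of_lt _ j.2
  have hUb : ∀ j, |U.coeff j| ≤ (((2 * k * H) ^ (2 * k - 1) : ℕ) : ℤ) := by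
    intro j
    by_cases hj : j < k
    · rw [hUc ⟨j, hj⟩]; exact ht _
    · rw [hU, ofFn_coeff_eq_zero_of_ge _ (not_lt.1 hj)]; simp only [abs_zero]; positivity
  have hVb : ∀ j, |V.coeff j| ≤ (((2 * k * H) ^ (2 * k - 1) : ℕ) : ℤ) := by
    intro j
    by_cases hj : j < k
    · rw [hVc ⟨j, hj⟩]; exact ht _
    · rw [hV, ofFn_coeff_eq_zero_of_ge _ (not_lt.1 hj)]; simp only [abs_zero]; positivity
  refine ⟨U, V, ?_, hUd, hVd, hUb, hVb, (U * A + V * C).coeff 0, ?_, ?_⟩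
  · rintro ⟨h1, h2⟩
    apply ht0
    funext j
    rcases j with j | j
    · rw [← hUc j, h1]; simp
    · rw [← hVc j, h2]; simp
  · ext n
    rcases Nat.eq_zero_or_pos n with rfl | hn
    · rw [coeff_C_zero]
    · rw [coeff_C_of_ne_zero hn.ne']
      by_cases hn2 : n < 2 * k
      · have h1 : (M.mulVec t) ⟨n - 1, by omega⟩ = 0 := by rw [hMt]; rfl
        rw [Matrix.mulVec, dotProduct, Fintype.sum_sum_type] at h1
        simp only [M, Sum.elim_inl, Sum.elim_inr] at h1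
        rw [Nat.sub_add_cancel hn] at h1
        rw [coeff_add, coeff_mul_eq_sum hUd, coeff_mul_eq_sum hVd, Finset.sum_range,
          Finset.sum_range]
        refine Eq.trans ?_ h1
        congr 1
        · refine Finset.sum_congr rfl fun j _ => ?_
          rw [hUc, mul_comm]
        · refine Finset.sum_congr rfl fun j _ => ?_
          rw [hVc, mul_comm]
      · rw [coeff_add, coeff_eq_zero_of_natDegree_lt, coeff_eq_zero_of_natDegree_lt, add_zero]
        · refine lt_of_le_of_lt natDegree_mul_le ?_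
          omega
        · refine lt_of_le_of_lt natDegree_mul_le ?_
          omega
  · rw [coeff_add, mul_coeff_zero, mul_coeff_zero]
    refine (abs_add_le _ _).trans ?_
    rw [abs_mul, abs_mul, two_mul]
    refine add_le_add ?_ ?_
    · exact mul_le_mul (hUb 0) (hAH 0) (abs_nonneg _) (by positivity)
    · exact mul_le_mul (hVb 0) (hCH 0) (abs_nonneg _) (by positivity)

end Pool.Agent.Helper73.RK
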