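import Mathlib
import Pool.Agent.Helper73.RK.Bezout

/-!
# Rational functions taking integer values at many rational points of small height
-/

namespace Pool.Agent.Helper73.RK

open Finset Polynomial

lemma slope_inj {b y b' y' : ℤ} (hb : 1 ≤ b) (hb' : 1 ≤ b') (hc : IsCoprime b y)
    (hc' : IsCoprime b' y') (h : (y : ℚ) / b = (y' : ℚ) / b') : b = b' ∧ y = y' := by
  have hb0 : (b : ℚ) ≠ 0 := by exact_mod_cast (by omega : b ≠ 0)
  have hb0' : (b' : ℚ) ≠ 0 := by exact_mod_cast (by omega : b' ≠ 0)
  rw [div_eq_div_iff hb0 hb0'] at h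
  have h1 : y * b' = y' * b := by exact_mod_cast h
  have h2 : b ∣ b' := hc.dvd_of_dvd_mul_left (Dvd.intro_left y' h1.symm)
  have h3 : b' ∣ b := hc'.dvd_of_dvd_mul_left (Dvd.intro_left y h1)
  have h4 : b = b' := Int.dvd_antisymm (by omega) (by omega) h2 h3
  refine ⟨h4, ?_⟩
  rw [h4] at h1
  exact mul_right_cancel₀ (by omega : b' ≠ 0) h1

variable {ι : Type*}

lemma card_zeros_le (W : Finset ι) (t : ι → ℚ) (hinj : Set.InjOn t W) (P : ℚ[X]) (hP : P ≠ 0) :
    (W.filter (fun w => P.eval (t w) = 0)).card ≤ P.natDegree := by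
  calc (W.filter (fun w => P.eval (t w) = 0)).card ≤ P.roots.toFinset.card := by
        refine Finset.card_le_card_of_injOn t ?_ ?_
        · intro w hw
          have hw' := Finset.mem_filter.1 (Finset.mem_coe.1 hw)
          rw [Finset.mem_coe, Multiset.mem_toFinset, mem_roots hP]
          exact hw'.2
        · exact hinj.mono fun w hw => (Finset.mem_filter.1 (Finset.mem_coe.1 hw)).1
    _ ≤ P.roots.card := Multiset.toFinset_card_le _
    _ ≤ P.natDegree := card_roots' P

variable [DecidableEq ι]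

/-- a relation `A (t w) = s w * C (t w)` of degree `k`, valid with few exceptions -/
def Rel (W : Finset ι) (t : ι → ℚ) (s : ι → ℤ) (h k : ℕ) : Prop :=
  ∃ A C : ℚ[X], ¬ (A = 0 ∧ C = 0) ∧ A.natDegree ≤ k ∧ C.natDegree ≤ k ∧
    (W.filter (fun w => A.eval (t w) ≠ s w * C.eval (t w))).card ≤ (h - k) * h

lemma minimal_rel {W : Finset ι} {t : ι → ℚ} {s : ι → ℤ} {h k : ℕ} (hinj : Set.InjOn t W)
    (hk : 1 ≤ k) (hkh : k ≤ h) (hmin : ∀ j < k, ¬ Rel W t s h j) {A C : ℚ[X]}
    (hAC : ¬ (A = 0 ∧ C = 0)) (hA : A.natDegree ≤ k) (hC : C.natDegree ≤ k)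
    (hcard : (W.filter (fun w => A.eval (t w) ≠ s w * C.eval (t w))).card ≤ (h - k) * h) :
    IsCoprime A C ∧ (A.natDegree = k ∨ C.natDegree = k) := by
  constructor
  · by_contra hcop
    obtain ⟨G, hG⟩ : ∃ G, G = EuclideanDomain.gcd A C := ⟨_, rfl⟩
    have hG0 : G ≠ 0 := by
      rw [hG, Ne, EuclideanDomain.gcd_eq_zero_iff]
      exact hAC
    have hGu : ¬ IsUnit G := by
      rw [hG, EuclideanDomain.gcd_isUnit_iff]
      exact hcop
    have hGd : 1 ≤ G.natDegree := by
      rcases Nat.eq_zero_or_pos G.natDegree with h0 | h0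
      · exfalso
        apply hGu
        rw [Polynomial.isUnit_iff_degree_eq_zero]
        exact (degree_eq_iff_natDegree_eq hG0).2 h0
      · exact h0
    obtain ⟨A', hA'⟩ : G ∣ A := hG ▸ EuclideanDomain.gcd_dvd_left A C
    obtain ⟨C', hC'⟩ : G ∣ C := hG ▸ EuclideanDomain.gcd_dvd_right A C
    set g := G.natDegree with hg
    have hgk : g ≤ k := by
      by_cases hA0 : A = 0
      · have hC0 : C ≠ 0 := fun h => hAC ⟨hA0, h⟩
        exact (natDegree_le_of_dvd (Dvd.intro _ hC'.symm) hC0).trans hC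
      · exact (natDegree_le_of_dvd (Dvd.intro _ hA'.symm) hA0).trans hA
    have hdeg : ∀ P P' : ℚ[X], P = G * P' → P.natDegree ≤ k → P'.natDegree ≤ k - g := by
      intro P P' hP hPk
      by_cases hP' : P' = 0
      · rw [hP', natDegree_zero]; exact Nat.zero_le _
      · rw [hP, natDegree_mul hG0 hP'] at hPk
        omega
    refine hmin (k - g) (by omega) ⟨A', C', ?_, hdeg A A' hA' hA, hdeg C C' hC' hC, ?_⟩
    · rintro ⟨h1, h2⟩
      apply hAC
      rw [hA', hC', h1, h2]
      simp
    · have hsub : W.filter (fun w => A'.eval (t w) ≠ s w * C'.eval (t w)) ⊆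
          (W.filter (fun w => A.eval (t w) ≠ s w * C.eval (t w))) ∪
            (W.filter (fun w => G.eval (t w) = 0)) := by
        intro w hw
        have hw' := Finset.mem_filter.1 hw
        rw [Finset.mem_union, Finset.mem_filter, Finset.mem_filter]
        by_cases hGw : G.eval (t w) = 0
        · exact Or.inr ⟨hw'.1, hGw⟩
        · refine Or.inl ⟨hw'.1, fun he => hw'.2 ?_⟩
          rw [hA', hC', eval_mul, eval_mul] at he
          refine mul_left_cancel₀ hGw ?_
          rw [he]; ring
      refine (Finset.card_le_card hsub).trans ((Finset.card_union_le _ _).trans ?_)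
      have h1 := card_zeros_le W t hinj G hG0
      have h2 : (h - (k - g)) = (h - k) + g := by omega
      rw [h2, add_mul]
      have h3 : g ≤ g * h := Nat.le_mul_of_pos_right _ (by omega)
      rw [← hg] at h1
      omega
  · by_contra hcon
    push Not at hcon
    refine hmin (k - 1) (by omega) ⟨A, C, hAC, by omega, by omega, hcard.trans ?_⟩
    exact Nat.mul_le_mul_right _ (by omega)

/-- the size of the coefficients -/
def H1 (h V : ℕ) : ℕ := ((2 * h + 2) * V ^ (h + 1)) ^ (2 * h + 1)

/-- the size of the coefficients of the cofactors -/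
def H2 (h V : ℕ) : ℕ := (2 * h * H1 h V) ^ (2 * h)

/-- the size of the numbers whose divisors are counted -/
def HD (h V : ℕ) : ℕ := 2 * (H2 h V * H1 h V) * V ^ (2 * h)

lemma one_le_H1 (h : ℕ) {V : ℕ} (hV : 1 ≤ V) : 1 ≤ H1 h V :=
  Nat.one_le_pow _ _ (Nat.mul_pos (by omega) (Nat.pow_pos hV))

lemma one_le_H2 {h : ℕ} (hh : 1 ≤ h) {V : ℕ} (hV : 1 ≤ V) : 1 ≤ H2 h V :=
  Nat.one_le_pow _ _ (Nat.mul_pos (by omega) (one_le_H1 h hV))

lemma H1_le {h k V : ℕ} (hk : k ≤ h) (hV : 1 ≤ V) :
    ((2 * k + 2) * V ^ (k + 1)) ^ (2 * k + 1) ≤ H1 h V := by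
  unfold H1
  calc ((2 * k + 2) * V ^ (k + 1)) ^ (2 * k + 1)
      ≤ ((2 * h + 2) * V ^ (h + 1)) ^ (2 * k + 1) := by
        refine Nat.pow_le_pow_left (Nat.mul_le_mul (by omega) ?_) _
        exact Nat.pow_le_pow_right hV (by omega)
    _ ≤ _ := Nat.pow_le_pow_right (Nat.mul_pos (by omega) (Nat.pow_pos hV)) (by omega)

lemma H2_le {h k V : ℕ} (hk1 : 1 ≤ k) (hk : k ≤ h) (hV : 1 ≤ V) :
    (2 * k * H1 h V) ^ (2 * k - 1) ≤ H2 h V := by
  unfold H2
  calc (2 * k * H1 h V) ^ (2 * k - 1) ≤ (2 * h * H1 h V) ^ (2 * k - 1) := by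
        refine Nat.pow_le_pow_left (Nat.mul_le_mul_right _ (by omega)) _
    _ ≤ _ := Nat.pow_le_pow_right (Nat.mul_pos (by omega) (one_le_H1 h hV)) (by omega)

omit [DecidableEq ι] in
/-- the number of solutions of `hom k C b y = c` with given `b` -/
lemma card_hom_eq_le (W : Finset ι) (b y : ι → ℤ) (k : ℕ) (C : ℤ[X]) (hC : C.natDegree ≤ k)
    (hC1 : 1 ≤ C.natDegree) (β c : ℤ) (hβ : β ≠ 0)
    (hinj : ∀ w ∈ W, ∀ w' ∈ W, b w = b w' → y w = y w' → w = w') :
    (W.filter (fun w => b w = β ∧ hom k C (b w) (y w) = c)).card ≤ k := by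
  set Q : ℤ[X] := ∑ j ∈ range (k + 1), Polynomial.C (C.coeff j * β ^ (k - j)) * X ^ j -
    Polynomial.C c with hQ
  have hQc : Q.coeff C.natDegree = C.leadingCoeff * β ^ (k - C.natDegree) := by
    rw [hQ, coeff_sub, finsetSum_coeff, coeff_C_of_ne_zero (by omega), sub_zero]
    rw [Finset.sum_eq_single C.natDegree]
    · rw [coeff_C_mul, coeff_X_pow, if_pos rfl, mul_one]; rfl
    · intro j _ hj
      rw [coeff_C_mul, coeff_X_pow, if_neg (fun h => hj h.symm), mul_zero]
    · intro hj
      exact absurd (Finset.mem_range.2 (by omega)) hj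
  have hC0 : C ≠ 0 := by
    rintro rfl
    simp at hC1
  have hQ0 : Q ≠ 0 := by
    intro h0
    rw [h0, coeff_zero] at hQc
    exact mul_ne_zero (leadingCoeff_ne_zero.2 hC0) (pow_ne_zero _ hβ) hQc.symm
  have hQd : Q.natDegree ≤ k := by
    rw [hQ]
    refine (natDegree_sub_le _ _).trans (max_le ?_ ?_)
    · refine natDegree_sum_le_of_forall_le _ _ fun j hj => ?_
      refine (natDegree_C_mul_X_pow_le _ _).trans ?_
      exact Nat.lt_succ_iff.1 (Finset.mem_range.1 hj)
    · rw [natDegree_C]; exact Nat.zero_le _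
  calc (W.filter (fun w => b w = β ∧ hom k C (b w) (y w) = c)).card ≤ Q.roots.toFinset.card := by
        refine Finset.card_le_card_of_injOn y ?_ ?_
        · intro w hw
          have hw' := (Finset.mem_filter.1 (Finset.mem_coe.1 hw)).2
          rw [Finset.mem_coe, Multiset.mem_toFinset, mem_roots hQ0, IsRoot, hQ]
          rw [eval_sub, eval_C, eval_finsetSum, sub_eq_zero, ← hw'.2, hom]
          refine Finset.sum_congr rfl fun j _ => ?_
          rw [eval_mul, eval_C, eval_pow, eval_X, hw'.1, mul_assoc]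
        · intro w hw w' hw' hyy
          have h1 := Finset.mem_filter.1 (Finset.mem_coe.1 hw)
          have h2 := Finset.mem_filter.1 (Finset.mem_coe.1 hw')
          exact hinj w h1.1 w' h2.1 (h1.2.1.trans h2.2.1.symm) hyy
    _ ≤ Q.roots.card := Multiset.toFinset_card_le _
    _ ≤ Q.natDegree := card_roots' Q
    _ ≤ k := hQd

lemma dvd_lead {k : ℕ} {A : ℤ[X]} {b y : ℤ} (h : b ∣ hom k A b y) : b ∣ A.coeff k * y ^ k := by
  rw [hom, Finset.sum_range_succ, Nat.sub_self, pow_zero, one_mul] at h
  refine (dvd_add_right ?_).1 h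
  refine Finset.dvd_sum fun j hj => ?_
  have hjk := Finset.mem_range.1 hj
  have h1 : b ∣ b ^ (k - j) := dvd_pow_self b (by omega)
  exact Dvd.dvd.mul_left (Dvd.dvd.mul_right h1 _) _

lemma hom_const {k : ℕ} {C : ℤ[X]} (hC : C.natDegree = 0) (b y : ℤ) :
    hom k C b y = C.coeff 0 * b ^ k := by
  rw [hom, Finset.sum_range_succ', Finset.sum_eq_zero]
  · simp
  · intro j _
    rw [coeff_eq_zero_of_natDegree_lt (by omega), zero_mul]

/-- **Endgame.** -/
theorem endgame (W : Finset ι) (b y s : ι → ℤ) (h V 𝒟 f : ℕ) (hh : 1 ≤ h) (hV : 1 ≤ V)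
    (hb1 : ∀ w ∈ W, 1 ≤ b w) (hbV : ∀ w ∈ W, |b w| ≤ V) (hyV : ∀ w ∈ W, |y w| ≤ V)
    (hsV : ∀ w ∈ W, |s w| ≤ V) (hcop : ∀ w ∈ W, IsCoprime (b w) (y w))
    (hinj : ∀ w ∈ W, ∀ w' ∈ W, b w = b w' → y w = y w' → w = w')
    (hf : ∀ β : ℤ, (W.filter (fun w => b w = β)).card ≤ f)
    (A₀ C₀ : ℚ[X]) (hAC₀ : ¬ (A₀ = 0 ∧ C₀ = 0)) (hA₀ : A₀.natDegree ≤ h) (hC₀ : C₀.natDegree ≤ h)
    (hrel₀ : ∀ w ∈ W, A₀.eval ((y w : ℚ) / b w) = s w * C₀.eval ((y w : ℚ) / b w))
    (hD : ∀ n : ℕ, n ≠ 0 → n ≤ HD h V → n.divisors.card ≤ 𝒟) :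
    (∃ s₀ : ℤ, (W.filter (fun w => s w ≠ s₀)).card ≤ h * h) ∨
      W.card ≤ h * h + (2 * h + 1) + h * ((W.image b).card * (2 * 𝒟)) + f * 𝒟 := by
  set t : ι → ℚ := fun w => (y w : ℚ) / b w with ht
  have htinj : Set.InjOn t W := by
    intro w hw w' hw' he
    obtain ⟨h1, h2⟩ := slope_inj (hb1 w hw) (hb1 w' hw') (hcop w hw) (hcop w' hw') he
    exact hinj w hw w' hw' h1 h2
  have hRelh : Rel W t s h h := by
    refine ⟨A₀, C₀, hAC₀, hA₀, hC₀, ?_⟩
    rw [Finset.filter_false_of_mem]
    · simp
    · intro w hw hne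
      exact hne (hrel₀ w hw)
  classical
  obtain ⟨k, hk⟩ : ∃ k, k = Nat.find (⟨h, hRelh⟩ : ∃ k, Rel W t s h k) := ⟨_, rfl⟩
  have hkspec : Rel W t s h k := hk ▸ Nat.find_spec (⟨h, hRelh⟩ : ∃ k, Rel W t s h k)
  have hkmin : ∀ j < k, ¬ Rel W t s h j := by
    intro j hj
    rw [hk] at hj
    exact Nat.find_min _ hj
  have hkh : k ≤ h := by rw [hk]; exact Nat.find_min' _ hRelh
  obtain ⟨A, C, hAC, hA, hC, hfail⟩ := hkspec
  set W' := W.filter (fun w => A.eval (t w) = s w * C.eval (t w)) with hW'
  have hcardW : W.card ≤ W'.card + (h - k) * h := by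
    have h3 : W'.card + (W.filter (fun w => A.eval (t w) ≠ s w * C.eval (t w))).card = W.card := by
      convert Finset.card_filter_add_card_filter_not (s := W)
        (fun w => A.eval (t w) = s w * C.eval (t w)) using 2
    omega
  have hkk : (h - k) * h ≤ h * h := Nat.mul_le_mul_right _ (Nat.sub_le _ _)
  rcases Nat.eq_zero_or_pos k with hk0 | hk1
  · -- constant pair
    subst hk0
    by_cases hempty : W'.card = 0
    · right; omega
    obtain ⟨w₀, hw₀⟩ := Finset.card_pos.1 (Nat.pos_of_ne_zero hempty)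
    left
    refine ⟨s w₀, ?_⟩
    rw [eq_C_of_natDegree_le_zero hA, eq_C_of_natDegree_le_zero hC] at hW' hfail hAC
    obtain ⟨a0, ha0⟩ : ∃ a0, a0 = A.coeff 0 := ⟨_, rfl⟩
    obtain ⟨c0, hc0⟩ : ∃ c0, c0 = C.coeff 0 := ⟨_, rfl⟩
    rw [← ha0, ← hc0] at hW' hfail hAC
    simp only [eval_C] at hW' hfail
    have h1 : a0 = s w₀ * c0 := by
      rw [hW'] at hw₀
      exact (Finset.mem_filter.1 hw₀).2
    have hc0 : c0 ≠ 0 := by
      intro h2
      apply hAC
      rw [h1, h2]
      simp
    refine (Finset.card_le_card ?_).trans (hfail.trans (by simp))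
    intro w hw
    obtain ⟨hw1, hw2⟩ := Finset.mem_filter.1 hw
    refine Finset.mem_filter.2 ⟨hw1, fun he => hw2 ?_⟩
    rw [h1] at he
    have := mul_right_cancel₀ hc0 he
    exact_mod_cast this.symm
  · right
    obtain ⟨hcopAC, hdeg⟩ := minimal_rel htinj hk1 hkh hkmin hAC hA hC hfail
    by_cases hsmall : W'.card < 2 * k + 1
    · have : W.card ≤ h * h + (2 * h + 1) := by omega
      omega
    push Not at hsmall
    obtain ⟨T, hTW, hTcard⟩ := Finset.exists_subset_card_eq hsmall
    have hWW' : W' ⊆ W := Finset.filter_subset _ _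
    have hrelW' : ∀ w ∈ W', A.eval (t w) = s w * C.eval (t w) := fun w hw =>
      (Finset.mem_filter.1 hw).2
    obtain ⟨A1, C1, hAC1, hA1, hC1, hA1b, hC1b, hrel1⟩ := siegel_nodes T b y s k V hV hTcard
      (fun w hw => hbV w (hWW' (hTW hw))) (fun w hw => hyV w (hWW' (hTW hw)))
      (fun w hw => hsV w (hWW' (hTW hw)))
    set φ := Int.castRingHom ℚ with hφ
    have hφinj : Function.Injective φ := Int.cast_injective
    have hb0 : ∀ w ∈ W, b w ≠ 0 := fun w hw => by have := hb1 w hw; omega
    have hbq : ∀ w ∈ W, (b w : ℚ) ≠ 0 := fun w hw => by exact_mod_cast hb0 w hw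
    have hrelT : ∀ w ∈ T, (A1.map φ).eval (t w) = s w * (C1.map φ).eval (t w) := by
      intro w hw
      have hwW := hWW' (hTW hw)
      have h1 := congrArg (fun z : ℤ => (z : ℚ)) (hrel1 w hw)
      simp only [Int.cast_mul] at h1
      rw [hom_cast hA1 (hb0 w hwW), hom_cast hC1 (hb0 w hwW)] at h1
      have h2 : (b w : ℚ) ^ k ≠ 0 := pow_ne_zero _ (hbq w hwW)
      refine mul_left_cancel₀ h2 ?_
      rw [h1]; ring
    have hcross : A * C1.map φ = A1.map φ * C := by
      by_contra hne
      have hP : A * C1.map φ - A1.map φ * C ≠ 0 := sub_ne_zero.2 hne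
      have hPd : (A * C1.map φ - A1.map φ * C).natDegree ≤ 2 * k := by
        refine (natDegree_sub_le _ _).trans (max_le ?_ ?_)
        · refine natDegree_mul_le.trans ?_
          have : (C1.map φ).natDegree ≤ k := natDegree_map_le.trans hC1
          omega
        · refine natDegree_mul_le.trans ?_
          have : (A1.map φ).natDegree ≤ k := natDegree_map_le.trans hA1
          omega
      have h1 := card_zeros_le T t (htinj.mono fun w hw => hWW' (hTW hw)) _ hP
      rw [Finset.filter_true_of_mem] at h1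
      · omega
      · intro w hw
        rw [eval_sub, eval_mul, eval_mul, hrelT w hw, hrelW' w (hTW hw)]
        ring
    have hA0 : A ≠ 0 := by
      intro h0
      rw [h0, isCoprime_zero_left] at hcopAC
      have h1 : C.natDegree = 0 := natDegree_eq_zero_of_isUnit hcopAC
      rw [h0, natDegree_zero] at hdeg
      omega
    obtain ⟨e, he⟩ : A ∣ A1.map φ := by
      refine hcopAC.dvd_of_dvd_mul_right ?_
      rw [← hcross]
      exact Dvd.intro _ rfl
    have heC : C1.map φ = e * C := by
      refine mul_left_cancel₀ hA0 ?_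
      rw [hcross, he]; ring
    have he0 : e ≠ 0 := by
      rintro rfl
      apply hAC1
      rw [mul_zero] at he
      rw [zero_mul] at heC
      exact ⟨(Polynomial.map_eq_zero_iff hφinj).1 he, (Polynomial.map_eq_zero_iff hφinj).1 heC⟩
    have hed : e.natDegree = 0 := by
      rcases hdeg with h1 | h1
      · have h2 : (A1.map φ).natDegree ≤ k := natDegree_map_le.trans hA1
        rw [he, natDegree_mul hA0 he0] at h2
        omega
      · have hC0 : C ≠ 0 := by rintro rfl; rw [natDegree_zero] at h1; omega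
        have h2 : (C1.map φ).natDegree ≤ k := natDegree_map_le.trans hC1
        rw [heC, natDegree_mul he0 hC0] at h2
        omega
    -- the relation for the integral pair
    have hrelint : ∀ w ∈ W', hom k A1 (b w) (y w) = s w * hom k C1 (b w) (y w) := by
      intro w hw
      have hwW := hWW' hw
      have h1 : ((hom k A1 (b w) (y w) : ℤ) : ℚ) = ((s w * hom k C1 (b w) (y w) : ℤ) : ℚ) := by
        rw [Int.cast_mul, hom_cast hA1 (hb0 w hwW), hom_cast hC1 (hb0 w hwW)]
        change (b w : ℚ) ^ k * (A1.map φ).eval (t w) = s w * ((b w : ℚ) ^ k * (C1.map φ).eval (t w))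
        rw [he, heC, eval_mul, eval_mul, hrelW' w hw]
        ring
      exact_mod_cast h1
    set H := H1 h V with hH
    have hHpos : 1 ≤ H := one_le_H1 h hV
    have hA1H : ∀ j, |A1.coeff j| ≤ (H : ℤ) := fun j => (hA1b j).trans (by
      exact_mod_cast H1_le hkh hV)
    have hC1H : ∀ j, |C1.coeff j| ≤ (H : ℤ) := fun j => (hC1b j).trans (by
      exact_mod_cast H1_le hkh hV)
    obtain ⟨U, U', hUU, hUd, hUd', hUb, hUb', R₀, hbez, hR₀⟩ :=
      siegel_bezout k hk1 A1 C1 hA1 hC1 H hHpos hA1H hC1H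
    have hR0 : R₀ ≠ 0 := by
      intro h0
      rw [h0, C_0] at hbez
      have h1 := congrArg (fun P => P.map φ) hbez
      simp only [Polynomial.map_add, Polynomial.map_mul, Polynomial.map_zero] at h1
      rw [he, heC] at h1
      have h2 : U.map φ * A + U'.map φ * C = 0 := by
        refine mul_left_cancel₀ he0 ?_
        rw [mul_zero, ← h1]; ring
      have h3 : C ∣ U.map φ * A := ⟨- U'.map φ, by
        rw [mul_neg, mul_comm C]; exact eq_neg_of_add_eq_zero_left h2⟩
      have h4 : A ∣ U'.map φ * C := ⟨- U.map φ, by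
        rw [mul_neg, mul_comm A]; exact eq_neg_of_add_eq_zero_right h2⟩
      have h5 : C ∣ U.map φ := hcopAC.symm.dvd_of_dvd_mul_right h3
      have h6 : A ∣ U'.map φ := hcopAC.dvd_of_dvd_mul_right h4
      apply hUU
      rcases hdeg with h7 | h7
      · have h8 : U'.map φ = 0 := by
          by_contra hne
          have := natDegree_le_of_dvd h6 hne
          have h9 : (U'.map φ).natDegree ≤ U'.natDegree := natDegree_map_le
          omega
        rw [h8, zero_mul, add_zero] at h2
        have h9 : U.map φ = 0 := (mul_eq_zero.1 h2).resolve_right hA0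
        exact ⟨(Polynomial.map_eq_zero_iff hφinj).1 h9, (Polynomial.map_eq_zero_iff hφinj).1 h8⟩
      · have hC0 : C ≠ 0 := by rintro rfl; rw [natDegree_zero] at h7; omega
        have h8 : U.map φ = 0 := by
          by_contra hne
          have := natDegree_le_of_dvd h5 hne
          have h9 : (U.map φ).natDegree ≤ U.natDegree := natDegree_map_le
          omega
        rw [h8, zero_mul, zero_add] at h2
        have h9 : U'.map φ = 0 := (mul_eq_zero.1 h2).resolve_right hC0
        exact ⟨(Polynomial.map_eq_zero_iff hφinj).1 h8, (Polynomial.map_eq_zero_iff hφinj).1 h9⟩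
    have hdvd : ∀ w ∈ W', hom k C1 (b w) (y w) ∣ R₀ * b w ^ (2 * k - 1) := by
      intro w hw
      have hwW := hWW' hw
      refine ⟨hom (k - 1) U (b w) (y w) * s w + hom (k - 1) U' (b w) (y w), ?_⟩
      have h1 : ((R₀ * b w ^ (2 * k - 1) : ℤ) : ℚ) = ((hom (k - 1) U (b w) (y w) *
          hom k A1 (b w) (y w) + hom (k - 1) U' (b w) (y w) * hom k C1 (b w) (y w) : ℤ) : ℚ) := by
        have h2 : (U.map φ).eval (t w) * (A1.map φ).eval (t w) +
            (U'.map φ).eval (t w) * (C1.map φ).eval (t w) = R₀ := by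
          have h3 := congrArg (fun P => (P.map φ).eval (t w)) hbez
          simpa using h3
        push_cast
        rw [hom_cast hA1 (hb0 w hwW), hom_cast hC1 (hb0 w hwW),
          hom_cast (by omega : U.natDegree ≤ k - 1) (hb0 w hwW),
          hom_cast (by omega : U'.natDegree ≤ k - 1) (hb0 w hwW), ← h2]
        have h4 : (b w : ℚ) ^ (2 * k - 1) = (b w : ℚ) ^ (k - 1) * (b w : ℚ) ^ k := by
          rw [← pow_add]; congr 1; omega
        rw [h4]
        ring
      have h5 : R₀ * b w ^ (2 * k - 1) = hom (k - 1) U (b w) (y w) *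
          hom k A1 (b w) (y w) + hom (k - 1) U' (b w) (y w) * hom k C1 (b w) (y w) := by
        exact_mod_cast h1
      rw [h5, hrelint w hw]
      ring
    have hR0b : |R₀| ≤ 2 * ((H2 h V : ℤ) * H) := by
      refine hR₀.trans ?_
      have h1 : (((2 * k * H) ^ (2 * k - 1) : ℕ) : ℤ) ≤ (H2 h V : ℤ) := by
        exact_mod_cast H2_le hk1 hkh hV
      have h2 : (0 : ℤ) ≤ H := by positivity
      nlinarith [mul_le_mul_of_nonneg_right h1 h2]
    have hdiv : ∀ w ∈ W', (R₀ * b w ^ (2 * k - 1)).natAbs.divisors.card ≤ 𝒟 := by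
      intro w hw
      have hwW := hWW' hw
      refine hD _ (Int.natAbs_ne_zero.2 (mul_ne_zero hR0 (pow_ne_zero _ (hb0 w hwW)))) ?_
      rw [HD]
      have h1 : ((R₀ * b w ^ (2 * k - 1)).natAbs : ℤ) ≤
          ((2 * (H2 h V * H1 h V) * V ^ (2 * h) : ℕ) : ℤ) := by
        rw [Int.natCast_natAbs, abs_mul, abs_pow]
        push_cast
        have h3 : |b w| ^ (2 * k - 1) ≤ (V : ℤ) ^ (2 * h) := by
          calc |b w| ^ (2 * k - 1) ≤ (V : ℤ) ^ (2 * k - 1) :=
                pow_le_pow_left₀ (abs_nonneg _) (hbV w hwW) _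
            _ ≤ _ := pow_le_pow_right₀ (by exact_mod_cast hV) (by omega)
        exact mul_le_mul hR0b h3 (by positivity) (by positivity)
      exact_mod_cast h1
    have hW'card : W'.card ≤ h * ((W.image b).card * (2 * 𝒟)) + f * 𝒟 := by
      rcases Nat.eq_zero_or_pos C1.natDegree with hC1d | hC1d
      · -- `C` is constant
        have hCd : C.natDegree = 0 := by
          by_cases hC0 : C = 0
          · rw [hC0, natDegree_zero]
          · have h1 : (C1.map φ).natDegree ≤ C1.natDegree := natDegree_map_le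
            rw [heC, natDegree_mul he0 hC0] at h1
            omega
        have hAd : A.natDegree = k := by
          rcases hdeg with h1 | h1
          · exact h1
          · omega
        have hlead : A1.coeff k ≠ 0 := by
          intro h0
          have h1 : (A1.map φ).natDegree = k := by
            rw [he, natDegree_mul hA0 he0, hAd, hed, add_zero]
          have h2 : (A1.map φ) ≠ 0 := by rw [he]; exact mul_ne_zero hA0 he0
          have h3 : (A1.map φ).leadingCoeff ≠ 0 := leadingCoeff_ne_zero.2 h2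
          apply h3
          rw [leadingCoeff, h1, coeff_map, h0, map_zero]
        have hbdvd : ∀ w ∈ W', b w ∣ A1.coeff k := by
          intro w hw
          have h1 : b w ∣ hom k A1 (b w) (y w) := by
            rw [hrelint w hw, hom_const hC1d]
            exact Dvd.dvd.mul_left (Dvd.dvd.mul_left (dvd_pow_self _ (by omega)) _) _
          exact (IsCoprime.pow_right (hcop w (hWW' hw))).dvd_of_dvd_mul_right (dvd_lead h1)
        have h1 : W'.card ≤ f * (W'.image b).card := by
          refine Finset.card_le_mul_card_image W' f fun β _ => ?_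
          refine le_trans (Finset.card_le_card ?_) (hf β)
          intro w hw
          have := Finset.mem_filter.1 hw
          exact Finset.mem_filter.2 ⟨hWW' this.1, this.2⟩
        have h2 : (W'.image b).card ≤ 𝒟 := by
          have h3 : (A1.coeff k).natAbs.divisors.card ≤ 𝒟 := by
            refine hD _ (Int.natAbs_ne_zero.2 hlead) ?_
            have h4 : (A1.coeff k).natAbs ≤ H1 h V := by
              have := hA1H k
              rw [← Int.natCast_natAbs] at this
              exact_mod_cast this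
            refine h4.trans ?_
            rw [HD]
            have h5 := one_le_H2 hh hV
            have h6 : 1 ≤ V ^ (2 * h) := Nat.one_le_pow _ _ hV
            calc H1 h V ≤ (H2 h V * H1 h V) := Nat.le_mul_of_pos_left _ h5
              _ ≤ 2 * (H2 h V * H1 h V) := Nat.le_mul_of_pos_left _ (by norm_num)
              _ ≤ _ := Nat.le_mul_of_pos_right _ h6
          refine le_trans ?_ h3
          refine Finset.card_le_card_of_injOn Int.natAbs ?_ ?_
          · intro β hβ
            obtain ⟨w, hw, rfl⟩ := Finset.mem_image.1 (Finset.mem_coe.1 hβ)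
            rw [Finset.mem_coe, Nat.mem_divisors]
            exact ⟨Int.natAbs_dvd_natAbs.2 (hbdvd w hw), Int.natAbs_ne_zero.2 hlead⟩
          · intro β hβ β' hβ' hββ
            obtain ⟨w, hw, rfl⟩ := Finset.mem_image.1 (Finset.mem_coe.1 hβ)
            obtain ⟨w', hw', rfl⟩ := Finset.mem_image.1 (Finset.mem_coe.1 hβ')
            have h3 := hb1 w (hWW' hw)
            have h4 := hb1 w' (hWW' hw')
            omega
        calc W'.card ≤ f * (W'.image b).card := h1
          _ ≤ f * 𝒟 := Nat.mul_le_mul_left _ h2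
          _ ≤ _ := Nat.le_add_left _ _
      · -- `C` is not constant
        let ψ : ι → ℤ × ℤ := fun w => (b w, hom k C1 (b w) (y w))
        have h1 : W'.card ≤ k * (W'.image ψ).card := by
          refine Finset.card_le_mul_card_image W' k fun q hq => ?_
          obtain ⟨w₁, hw₁, rfl⟩ := Finset.mem_image.1 hq
          refine le_trans (Finset.card_le_card ?_) (card_hom_eq_le W b y k C1 hC1 hC1d (b w₁)
            (hom k C1 (b w₁) (y w₁)) (hb0 w₁ (hWW' hw₁)) hinj)
          intro w hw
          have hw' := Finset.mem_filter.1 hw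
          have hψ := hw'.2
          simp only [ψ, Prod.mk.injEq] at hψ
          exact Finset.mem_filter.2 ⟨hWW' hw'.1, hψ⟩
        have h2 : (W'.image ψ).card ≤ (W.image b).card * (2 * 𝒟) := by
          let D : ℤ → Finset (ℤ × ℤ) := fun β =>
            ((R₀ * β ^ (2 * k - 1)).natAbs.divisors.image (fun d : ℕ => (β, (d : ℤ)))) ∪
              ((R₀ * β ^ (2 * k - 1)).natAbs.divisors.image (fun d : ℕ => (β, -(d : ℤ))))
          have h3 : W'.image ψ ⊆ (W'.image b).biUnion D := by
            intro q hq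
            obtain ⟨w, hw, rfl⟩ := Finset.mem_image.1 hq
            refine Finset.mem_biUnion.2 ⟨b w, Finset.mem_image_of_mem b hw, ?_⟩
            have h4 := Int.natAbs_dvd_natAbs.2 (hdvd w hw)
            have h5 : (hom k C1 (b w) (y w)).natAbs ∈
                (R₀ * b w ^ (2 * k - 1)).natAbs.divisors :=
              Nat.mem_divisors.2 ⟨h4, Int.natAbs_ne_zero.2
                (mul_ne_zero hR0 (pow_ne_zero _ (hb0 w (hWW' hw))))⟩
            rcases Int.natAbs_eq (hom k C1 (b w) (y w)) with h6 | h6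
            · exact Finset.mem_union_left _ (Finset.mem_image.2 ⟨_, h5, Prod.ext rfl h6.symm⟩)
            · exact Finset.mem_union_right _ (Finset.mem_image.2 ⟨_, h5, Prod.ext rfl h6.symm⟩)
          calc (W'.image ψ).card ≤ ((W'.image b).biUnion D).card := Finset.card_le_card h3
            _ ≤ (W'.image b).card * (2 * 𝒟) := by
                refine Finset.card_biUnion_le_card_mul _ _ _ fun β hβ => ?_
                obtain ⟨w, hw, rfl⟩ := Finset.mem_image.1 hβ
                refine (Finset.card_union_le _ _).trans ?_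
                have h4 := hdiv w hw
                have h5 := Finset.card_image_le
                  (s := (R₀ * b w ^ (2 * k - 1)).natAbs.divisors) (f := fun d => (b w, (d : ℤ)))
                have h6 := Finset.card_image_le
                  (s := (R₀ * b w ^ (2 * k - 1)).natAbs.divisors) (f := fun d => (b w, -(d : ℤ)))
                omega
            _ ≤ _ := Nat.mul_le_mul_right _ (Finset.card_le_card
                (Finset.image_subset_image hWW'))
        calc W'.card ≤ k * (W'.image ψ).card := h1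
          _ ≤ h * ((W.image b).card * (2 * 𝒟)) := Nat.mul_le_mul hkh h2
          _ ≤ _ := Nat.le_add_right _ _
    omega

end Pool.Agent.Helper73.RK
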