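import Mathlib
import Pool.Agent.Helper73.RK.Endgame

/-!
# The plane lemma
-/

namespace Pool.Agent.Helper73.RK

open Finset Polynomial

lemma hom_modEq (k : ℕ) (P : ℤ[X]) (b : ℤ) {y y' D : ℤ} (h : D ∣ y - y') :
    D ∣ hom k P b y - hom k P b y' := by
  rw [hom, hom, ← Finset.sum_sub_distrib]
  refine Finset.dvd_sum fun j _ => ?_
  have h1 : D ∣ y ^ j - y' ^ j := h.trans (sub_dvd_pow_sub_pow y y' j)
  have h2 : P.coeff j * (b ^ (k - j) * y ^ j) - P.coeff j * (b ^ (k - j) * y' ^ j) =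
      (P.coeff j * b ^ (k - j)) * (y ^ j - y' ^ j) := by ring
  rw [h2]
  exact Dvd.dvd.mul_left h1 _

lemma hom_mul {k : ℕ} {P : ℤ[X]} (hP : P.natDegree ≤ k) (b a : ℤ) :
    hom k P b (a * b) = b ^ k * P.eval a := by
  rw [eval_eq_sum_range' (n := k + 1) (by omega), hom, Finset.mul_sum]
  refine Finset.sum_congr rfl fun j hj => ?_
  have hjk : j ≤ k := Nat.lt_succ_iff.1 (Finset.mem_range.1 hj)
  have h1 : b ^ k = b ^ (k - j) * b ^ j := by
    rw [← pow_add]; congr 1; omega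
  rw [h1, mul_pow]
  ring

/-- the auxiliary polynomial -/
lemma aux_poly (k N L : ℕ) (hk : 1 ≤ k) (hN : 1 ≤ N) (hL : 1 ≤ L) (a τ : Fin (4 * k) → ℤ)
    (ha : ∀ i, |a i| ≤ 4 * L) (hτ : ∀ i, |τ i| ≤ N) :
    ∃ P Q : ℤ[X], ¬ (P = 0 ∧ Q = 0) ∧ P.natDegree ≤ 3 * k ∧ Q.natDegree ≤ 3 * k - 1 ∧
      (∀ j, |P.coeff j| ≤ ((((6 * k + 1) * (N * (4 * L) ^ (3 * k))) ^ 2 : ℕ) : ℤ)) ∧
      (∀ j, |Q.coeff j| ≤ ((((6 * k + 1) * (N * (4 * L) ^ (3 * k))) ^ 2 : ℕ) : ℤ)) ∧
      ∀ i, P.eval (a i) + τ i * Q.eval (a i) = 0 := by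
  classical
  let M : Matrix (Fin (4 * k)) (Fin (3 * k + 1) ⊕ Fin (3 * k)) ℤ := fun i j =>
    Sum.elim (fun j : Fin (3 * k + 1) => a i ^ (j : ℕ))
      (fun j : Fin (3 * k) => τ i * a i ^ (j : ℕ)) j
  have hcardα : Fintype.card (Fin (4 * k)) = 4 * k := Fintype.card_fin _
  have hcardβ : Fintype.card (Fin (3 * k + 1) ⊕ Fin (3 * k)) = 6 * k + 1 := by
    rw [Fintype.card_sum, Fintype.card_fin, Fintype.card_fin]; omega
  have h4L : (1 : ℤ) ≤ 4 * L := by
    have : (1 : ℤ) ≤ L := by exact_mod_cast hL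
    omega
  have hNz : (1 : ℤ) ≤ N := by exact_mod_cast hN
  have hpow : ∀ i, ∀ j ≤ 3 * k, |a i ^ j| ≤ (4 * L : ℤ) ^ (3 * k) := by
    intro i j hj
    rw [abs_pow]
    calc |a i| ^ j ≤ (4 * L : ℤ) ^ j := pow_le_pow_left₀ (abs_nonneg _) (ha i) _
      _ ≤ _ := pow_le_pow_right₀ h4L hj
  obtain ⟨t, ht0, hMt, ht⟩ := siegel M (N * (4 * L) ^ (3 * k))
    (Nat.mul_pos hN (Nat.pow_pos (by omega))) (by
    intro i j
    push_cast
    rcases j with j | j
    · change |a i ^ (j : ℕ)| ≤ _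
      refine (hpow i j (by omega)).trans ?_
      exact le_mul_of_one_le_left (by positivity) hNz
    · change |τ i * a i ^ (j : ℕ)| ≤ _
      rw [abs_mul]
      exact mul_le_mul (hτ i) (hpow i j (by omega)) (abs_nonneg _) (by positivity)) 2
    (by omega) (by omega) (by rw [hcardα, hcardβ]; omega)
  rw [hcardβ] at ht
  refine ⟨ofFn (3 * k + 1) (fun j => t (Sum.inl j)), ofFn (3 * k) (fun j => t (Sum.inr j)), ?_,
    Nat.lt_succ_iff.1 (ofFn_natDegree_lt (by omega) _),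
    Nat.le_sub_one_of_lt (ofFn_natDegree_lt (by omega) _), ?_, ?_, ?_⟩
  · rintro ⟨h1, h2⟩
    apply ht0
    funext j
    rcases j with j | j
    · have := congrArg (fun P => P.coeff (j : ℕ)) h1
      simpa [ofFn_coeff_eq_val_of_lt _ j.2] using this
    · have := congrArg (fun P => P.coeff (j : ℕ)) h2
      simpa [ofFn_coeff_eq_val_of_lt _ j.2] using this
  · intro j
    by_cases hj : j < 3 * k + 1
    · rw [ofFn_coeff_eq_val_of_lt _ hj]; exact ht _
    · rw [ofFn_coeff_eq_zero_of_ge _ (not_lt.1 hj)]; simp only [abs_zero]; positivity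
  · intro j
    by_cases hj : j < 3 * k
    · rw [ofFn_coeff_eq_val_of_lt _ hj]; exact ht _
    · rw [ofFn_coeff_eq_zero_of_ge _ (not_lt.1 hj)]; simp only [abs_zero]; positivity
  · intro i
    have h1 : (M.mulVec t) i = 0 := by rw [hMt]; rfl
    rw [Matrix.mulVec, dotProduct, Fintype.sum_sum_type] at h1
    simp only [M, Sum.elim_inl, Sum.elim_inr] at h1
    rw [eval_eq_sum_range' (ofFn_natDegree_lt (by omega) _), Finset.sum_range,
      eval_eq_sum_range' (ofFn_natDegree_lt (by omega : 1 ≤ 3 * k) _), Finset.sum_range,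
      Finset.mul_sum]
    refine Eq.trans ?_ h1
    congr 1
    · refine Finset.sum_congr rfl fun j _ => ?_
      rw [ofFn_coeff_eq_val_of_lt _ j.2, mul_comm]
    · refine Finset.sum_congr rfl fun j _ => ?_
      rw [ofFn_coeff_eq_val_of_lt _ j.2]
      simp only [Fin.eta]
      ring

/-- The relation between two lines `p₀`, `p = p₀ + a d` and two lines `q = b p₀ - d D`,
`q' = b' p₀ - d D'` of a plane. -/
lemma closure_rel {p₀ p a d b b' q q' D D' E E' t s j j' : ℤ} (hd : 0 < d)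
    (hcop : IsCoprime d p₀) (hp : p = p₀ + a * d) (hq : b * p₀ = q + d * D)
    (hq' : b' * p₀ = q' + d * D') (hE : b * p = q + d * E) (hE' : b' * p = q' + d * E')
    (hcl : t * q' + j * p = s * p₀ + j' * q)
    (hX : |t * b' + j - s - j' * b| < d) :
    E ∣ s * D + t * b * E' := by
  have hE1 : E = a * b + D := by
    refine mul_left_cancel₀ hd.ne' ?_
    linear_combination hq - hE + b * hp
  have hE1' : E' = a * b' + D' := by
    refine mul_left_cancel₀ hd.ne' ?_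
    linear_combination hq' - hE' + b' * hp
  have h1 : p₀ * (t * b' + j - s - j' * b) + d * (-(t * D') + j * a + j' * D) = 0 := by
    linear_combination hcl + t * hq' - j' * hq - j * hp
  have h2 : d ∣ p₀ * (t * b' + j - s - j' * b) :=
    ⟨-(-(t * D') + j * a + j' * D), by linear_combination h1⟩
  have h3 : d ∣ t * b' + j - s - j' * b := hcop.dvd_of_dvd_mul_left h2
  have h4 : t * b' + j - s - j' * b = 0 := Int.eq_zero_of_abs_lt_dvd h3 hX
  have h5 : -(t * D') + j * a + j' * D = 0 := by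
    rw [h4, mul_zero, zero_add] at h1
    exact (mul_eq_zero.1 h1).resolve_left hd.ne'
  refine ⟨t * b' + j, ?_⟩
  rw [hE1, hE1']
  linear_combination (-b) * h5 - D * h4

/-- **Plane lemma.** -/
theorem plane (k L B R N d D₀ f 𝒟 : ℕ) (hk : 1 ≤ k) (hL : 1 ≤ L) (hB1 : 1 ≤ B) (hRN : R ≤ N)
    (p : Fin (4 * k) → ℕ) (i₀ : Fin (4 * k)) (hpinj : Function.Injective p)
    (hp : ∀ i, (p i).Prime) (hpR : ∀ i, R ≤ p i)
    (a : Fin (4 * k) → ℤ) (hpa : ∀ i, (p i : ℤ) = p i₀ + a i * d) (ha : ∀ i, |a i| ≤ 4 * L)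
    (hd : 0 < d) (hdR : d < R)
    (W : Finset (ℕ × ℕ)) (hWb : ∀ w ∈ W, B ≤ w.1 ∧ w.1 < 2 * B) (hWq : ∀ w ∈ W, R ≤ w.2)
    (D : Fin (4 * k) → ℕ × ℕ → ℕ)
    (hDp : ∀ i, ∀ w ∈ W, (D i w).Prime ∧ D₀ ≤ D i w ∧ D i w < 2 * D₀)
    (hDeq : ∀ i, ∀ w ∈ W, w.1 * p i = w.2 + d * D i w)
    (n : Fin (4 * k) → ℕ × ℕ → ℤ) (hn : ∀ i, ∀ w ∈ W, 1 ≤ n i w ∧ n i w ≤ N)
    (hnp : ∀ i, ∀ w ∈ W, ∀ w' ∈ W, (p i : ℤ) ∣ n i w - n i w')
    (hnq : ∀ i i', ∀ w ∈ W, (w.2 : ℤ) ∣ n i w - n i' w)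
    (hB : 2 * B ≤ D₀) (hsize : N * (4 * B + 2) ≤ d * R) (h2D : 2 * D₀ ≤ R)
    (haux : (6 * k + 1) ^ 3 * N ^ 3 * (4 * L) ^ (6 * k) * (2 * D₀) ^ (3 * k) < D₀ ^ (4 * k))
    (hf : ∀ β, (W.filter (fun w => w.1 = β)).card ≤ f)
    (h𝒟 : ∀ m : ℕ, m ≠ 0 → m ≤ HD (3 * k - 1) N → m.divisors.card ≤ 𝒟) :
    (∃ n₀ : ℤ, (W.filter (fun w => n i₀ w ≠ n₀)).card ≤ (3 * k - 1) * (3 * k - 1)) ∨
      W.card ≤ (3 * k - 1) * (3 * k - 1) + (2 * (3 * k - 1) + 1) + (3 * k - 1) * (B * (2 * 𝒟)) +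
        f * 𝒟 := by
  classical
  rcases W.eq_empty_or_nonempty with rfl | ⟨w₁, hw₁⟩
  · right; simp
  have hR1 : 1 ≤ R := by omega
  have hN1 : 1 ≤ N := by omega
  -- multiples along the lines
  obtain ⟨s, hs⟩ : ∃ s : ℕ × ℕ → ℤ, ∀ w ∈ W, n i₀ w - n i₀ w₁ = p i₀ * s w := by
    refine ⟨fun w => (n i₀ w - n i₀ w₁) / p i₀, fun w hw => ?_⟩
    exact (Int.mul_ediv_cancel' (hnp i₀ w hw w₁ hw₁)).symm
  obtain ⟨t, ht⟩ : ∃ t : Fin (4 * k) → ℤ, ∀ i, n i w₁ - n i₀ w₁ = w₁.2 * t i := by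
    refine ⟨fun i => (n i w₁ - n i₀ w₁) / w₁.2, fun i => ?_⟩
    exact (Int.mul_ediv_cancel' (hnq i i₀ w₁ hw₁)).symm
  obtain ⟨u, hu⟩ : ∃ u : Fin (4 * k) → ℕ × ℕ → ℤ, ∀ i, ∀ w ∈ W,
      n i w - n i w₁ = p i * u i w := by
    refine ⟨fun i w => (n i w - n i w₁) / p i, fun i w hw => ?_⟩
    exact (Int.mul_ediv_cancel' (hnp i w hw w₁ hw₁)).symm
  obtain ⟨v, hv⟩ : ∃ v : Fin (4 * k) → ℕ × ℕ → ℤ, ∀ i, ∀ w ∈ W,
      n i w - n i₀ w = w.2 * v i w := by
    refine ⟨fun i w => (n i w - n i₀ w) / w.2, fun i w hw => ?_⟩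
    exact (Int.mul_ediv_cancel' (hnq i i₀ w hw)).symm
  -- sizes
  have hsz : ∀ (r : ℕ) (z x y : ℤ), R ≤ r → 1 ≤ x → x ≤ N → 1 ≤ y → y ≤ N → x - y = r * z →
      |z| * R < N := by
    intro r z x y hr hx1 hxN hy1 hyN he
    have h1 : |(r : ℤ) * z| < N := by
      rw [← he, abs_lt]; constructor <;> omega
    rw [abs_mul, abs_of_nonneg (by positivity : (0 : ℤ) ≤ r)] at h1
    have h2 : (R : ℤ) ≤ r := by exact_mod_cast hr
    nlinarith [abs_nonneg z]
  have hs1 : ∀ w ∈ W, |s w| * R < N := fun w hw =>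
    hsz _ _ _ _ (hpR i₀) (hn i₀ w hw).1 (hn i₀ w hw).2 (hn i₀ w₁ hw₁).1 (hn i₀ w₁ hw₁).2 (hs w hw)
  have ht1 : ∀ i, |t i| * R < N := fun i =>
    hsz _ _ _ _ (hWq w₁ hw₁) (hn i w₁ hw₁).1 (hn i w₁ hw₁).2 (hn i₀ w₁ hw₁).1 (hn i₀ w₁ hw₁).2 (ht i)
  have hu1 : ∀ i, ∀ w ∈ W, |u i w| * R < N := fun i w hw =>
    hsz _ _ _ _ (hpR i) (hn i w hw).1 (hn i w hw).2 (hn i w₁ hw₁).1 (hn i w₁ hw₁).2 (hu i w hw)
  have hv1 : ∀ i, ∀ w ∈ W, |v i w| * R < N := fun i w hw =>
    hsz _ _ _ _ (hWq w hw) (hn i w hw).1 (hn i w hw).2 (hn i₀ w hw).1 (hn i₀ w hw).2 (hv i w hw)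
  have hRz : (1 : ℤ) ≤ R := by exact_mod_cast hR1
  have hNz : (1 : ℤ) ≤ N := by exact_mod_cast hN1
  have hsmall : ∀ z : ℤ, |z| * R < N → |z| ≤ N := by
    intro z hz
    nlinarith [abs_nonneg z]
  -- coprimality
  have hcopd : IsCoprime (d : ℤ) (p i₀ : ℤ) := by
    rw [Nat.isCoprime_iff_coprime]
    refine Nat.Coprime.symm ((Nat.Prime.coprime_iff_not_dvd (hp i₀)).2 fun h => ?_)
    have := Nat.le_of_dvd hd h
    have := hpR i₀
    omega
  -- the congruence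
  have hkey : ∀ i, ∀ w ∈ W, (D i w : ℤ) ∣ s w * D i₀ w + t i * w.1 * D i w₁ := by
    intro i w hw
    have e1 : (w.1 : ℤ) * p i₀ = w.2 + d * D i₀ w := by exact_mod_cast hDeq i₀ w hw
    have e2 : (w₁.1 : ℤ) * p i₀ = w₁.2 + d * D i₀ w₁ := by exact_mod_cast hDeq i₀ w₁ hw₁
    have e3 : (w.1 : ℤ) * p i = w.2 + d * D i w := by exact_mod_cast hDeq i w hw
    have e4 : (w₁.1 : ℤ) * p i = w₁.2 + d * D i w₁ := by exact_mod_cast hDeq i w₁ hw₁
    refine closure_rel (j := u i w) (j' := v i w) (by exact_mod_cast hd) hcopd (hpa i) e1 e2 e3 e4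
      ?_ ?_
    · linear_combination (hs w hw) - ht i - hu i w hw + hv i w hw
    · have h1 := ht1 i
      have h2 := hu1 i w hw
      have h3 := hs1 w hw
      have h4 := hv1 i w hw
      have hb1 := (hWb w₁ hw₁).2
      have hb2 := (hWb w hw).2
      have hb1' : (w₁.1 : ℤ) ≤ 2 * B := by exact_mod_cast hb1.le
      have hb2' : (w.1 : ℤ) ≤ 2 * B := by exact_mod_cast hb2.le
      have h5 : |t i * w₁.1 + u i w - s w - v i w * w.1| ≤
          |t i| * (2 * B) + |u i w| + |s w| + |v i w| * (2 * B) := by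
        calc |t i * w₁.1 + u i w - s w - v i w * w.1|
            ≤ |t i * w₁.1| + |u i w| + |s w| + |v i w * w.1| := by
              refine (abs_sub _ _).trans ?_
              refine add_le_add ((abs_sub _ _).trans ?_) le_rfl
              exact add_le_add (abs_add_le _ _) le_rfl
          _ ≤ _ := by
              rw [abs_mul, abs_mul, Nat.abs_cast, Nat.abs_cast]
              gcongr
      have h6 : |t i * w₁.1 + u i w - s w - v i w * w.1| * R < d * R := by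
        have h7 : (N : ℤ) * (4 * B + 2) ≤ d * R := by exact_mod_cast hsize
        have hBz : (0 : ℤ) ≤ B := by positivity
        calc |t i * w₁.1 + u i w - s w - v i w * w.1| * R
            ≤ (|t i| * (2 * B) + |u i w| + |s w| + |v i w| * (2 * B)) * R :=
              mul_le_mul_of_nonneg_right h5 (by positivity)
          _ = (|t i| * R) * (2 * B) + |u i w| * R + |s w| * R + (|v i w| * R) * (2 * B) := by ring
          _ < (N : ℤ) * (2 * B) + N + N + N * (2 * B) := by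
              have h8 : (|t i| * R) * (2 * B) ≤ N * (2 * B) :=
                mul_le_mul_of_nonneg_right h1.le (by positivity)
              have h9 : (|v i w| * R) * (2 * B) ≤ N * (2 * B) :=
                mul_le_mul_of_nonneg_right h4.le (by positivity)
              linarith
          _ = (N : ℤ) * (4 * B + 2) := by ring
          _ ≤ d * R := h7
      exact lt_of_mul_lt_mul_right h6 (by positivity)
  -- the auxiliary polynomial
  obtain ⟨P, Q, hPQ, hPd, hQd, hPb, hQb, hPQ0⟩ := aux_poly k N L hk hN1 hL a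
    (fun i => -(t i * D i w₁)) ha (by
      intro i
      rw [abs_neg, abs_mul, Nat.abs_cast]
      have h1 := ht1 i
      have h2 : (D i w₁ : ℤ) ≤ R := by
        have := (hDp i w₁ hw₁).2.2
        exact_mod_cast (by omega : D i w₁ ≤ R)
      nlinarith [abs_nonneg (t i)])
  set HF : ℕ := ((6 * k + 1) * (N * (4 * L) ^ (3 * k))) ^ 2 with hHF
  have hFzero : ∀ w ∈ W, hom (3 * k) P w.1 (-(D i₀ w : ℤ)) +
      (s w * D i₀ w) * hom (3 * k - 1) Q w.1 (-(D i₀ w : ℤ)) = 0 := by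
    intro w hw
    set F := hom (3 * k) P w.1 (-(D i₀ w : ℤ)) +
      (s w * D i₀ w) * hom (3 * k - 1) Q w.1 (-(D i₀ w : ℤ)) with hF
    have hDa : ∀ i, (D i w : ℤ) = a i * w.1 + D i₀ w := by
      intro i
      have e1 : (w.1 : ℤ) * p i₀ = w.2 + d * D i₀ w := by exact_mod_cast hDeq i₀ w hw
      have e3 : (w.1 : ℤ) * p i = w.2 + d * D i w := by exact_mod_cast hDeq i w hw
      have hdz : (d : ℤ) ≠ 0 := by exact_mod_cast hd.ne'
      refine mul_left_cancel₀ hdz ?_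
      linear_combination e1 - e3 + w.1 * hpa i
    have hdvd : ∀ i, (D i w : ℤ) ∣ F := by
      intro i
      have h1 : (D i w : ℤ) ∣ -(D i₀ w : ℤ) - a i * w.1 := ⟨-1, by rw [hDa i]; ring⟩
      have h2 := hom_modEq (3 * k) P w.1 h1
      have h3 := hom_modEq (3 * k - 1) Q w.1 h1
      have h4 := hkey i w hw
      rw [hom_mul hPd] at h2
      rw [hom_mul hQd] at h3
      have h5 : (w.1 : ℤ) ^ (3 * k) = w.1 ^ (3 * k - 1) * w.1 := by
        rw [← pow_succ]; congr 1; omega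
      have h6 : F = (hom (3 * k) P w.1 (-(D i₀ w : ℤ)) - (w.1 : ℤ) ^ (3 * k) * P.eval (a i)) +
          (s w * D i₀ w) * (hom (3 * k - 1) Q w.1 (-(D i₀ w : ℤ)) -
            (w.1 : ℤ) ^ (3 * k - 1) * Q.eval (a i)) +
          (s w * D i₀ w + t i * w.1 * D i w₁) * ((w.1 : ℤ) ^ (3 * k - 1) * Q.eval (a i)) := by
        rw [hF]
        linear_combination (w.1 : ℤ) ^ (3 * k) * hPQ0 i +
          (t i * D i w₁ * Q.eval (a i)) * h5
      rw [h6]
      exact dvd_add (dvd_add h2 (Dvd.dvd.mul_left h3 _)) (Dvd.dvd.mul_right h4 _)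
    have hainj : ∀ i j, i ≠ j → a i ≠ a j := by
      intro i j hij he
      apply hij
      apply hpinj
      have h1 := hpa i
      have h2 := hpa j
      rw [he, ← h2] at h1
      exact_mod_cast h1
    have hw1pos : (0 : ℤ) < w.1 := by
      have := (hWb w hw).1
      exact_mod_cast (by omega : 0 < w.1)
    have hprod : (∏ i, (D i w : ℤ)) ∣ F := by
      refine Finset.prod_dvd_of_coprime ?_ fun i _ => hdvd i
      intro i _ j _ hij
      change IsCoprime (D i w : ℤ) (D j w : ℤ)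
      rw [Nat.isCoprime_iff_coprime, Nat.coprime_primes (hDp i w hw).1 (hDp j w hw).1]
      intro he
      have he' : (D i w : ℤ) = D j w := by exact_mod_cast he
      rw [hDa i, hDa j, add_left_inj] at he'
      exact hainj i j hij (mul_right_cancel₀ hw1pos.ne' he')
    have hprodge : ((D₀ ^ (4 * k) : ℕ) : ℤ) ≤ ∏ i, (D i w : ℤ) := by
      have h1 : D₀ ^ (4 * k) ≤ ∏ i, D i w := by
        calc D₀ ^ (4 * k) = ∏ _i : Fin (4 * k), D₀ := by
              rw [Finset.prod_const, Finset.card_univ, Fintype.card_fin]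
          _ ≤ _ := Finset.prod_le_prod' fun i _ => (hDp i w hw).2.1
      calc ((D₀ ^ (4 * k) : ℕ) : ℤ) ≤ ((∏ i, D i w : ℕ) : ℤ) := by exact_mod_cast h1
        _ = _ := by push_cast; rfl
    refine Int.eq_zero_of_abs_lt_dvd hprod (lt_of_lt_of_le ?_ hprodge)
    have hV : |(w.1 : ℤ)| ≤ ((2 * D₀ : ℕ) : ℤ) := by
      rw [Nat.abs_cast]
      have := (hWb w hw).2
      exact_mod_cast (by omega : w.1 ≤ 2 * D₀)
    have hV' : |-(D i₀ w : ℤ)| ≤ ((2 * D₀ : ℕ) : ℤ) := by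
      rw [abs_neg, Nat.abs_cast]
      exact_mod_cast (hDp i₀ w hw).2.2.le
    have hsD : |s w * D i₀ w| ≤ N := by
      rw [abs_mul, Nat.abs_cast]
      have h1 := hs1 w hw
      have h2 : (D i₀ w : ℤ) ≤ R := by
        have := (hDp i₀ w hw).2.2
        exact_mod_cast (by omega : D i₀ w ≤ R)
      nlinarith [abs_nonneg (s w)]
    have hP1 := abs_hom_le (k := 3 * k) hPb hV hV'
    have hQ1 := abs_hom_le (k := 3 * k - 1) hQb hV hV'
    have hDpos : 1 ≤ D₀ := by omega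
    have hbound : |F| ≤ (((6 * k + 1) * N * HF * (2 * D₀) ^ (3 * k) : ℕ) : ℤ) := by
      rw [hF]
      refine (abs_add_le _ _).trans ?_
      rw [abs_mul]
      have h1 : |s w * (D i₀ w : ℤ)| * |hom (3 * k - 1) Q w.1 (-(D i₀ w : ℤ))| ≤
          (N : ℤ) * ((((3 * k - 1 : ℕ) : ℤ) + 1) * ((HF : ℤ) * ((2 * D₀ : ℕ) : ℤ) ^ (3 * k - 1))) :=
        mul_le_mul hsD hQ1 (abs_nonneg _) (by positivity)
      refine (add_le_add hP1 h1).trans ?_
      have h2 : (3 * k + 1) * (HF * (2 * D₀) ^ (3 * k)) +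
          N * ((3 * k - 1 + 1) * (HF * (2 * D₀) ^ (3 * k - 1))) ≤
          (6 * k + 1) * N * HF * (2 * D₀) ^ (3 * k) := by
        have h3 : 3 * k - 1 + 1 = 3 * k := by omega
        have h4 : (2 * D₀) ^ (3 * k - 1) ≤ (2 * D₀) ^ (3 * k) :=
          Nat.pow_le_pow_right (by omega) (by omega)
        rw [h3]
        calc (3 * k + 1) * (HF * (2 * D₀) ^ (3 * k)) +
            N * (3 * k * (HF * (2 * D₀) ^ (3 * k - 1)))
            ≤ N * ((3 * k + 1) * (HF * (2 * D₀) ^ (3 * k))) +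
            N * (3 * k * (HF * (2 * D₀) ^ (3 * k))) := by
              refine add_le_add (Nat.le_mul_of_pos_left _ hN1) ?_
              gcongr
          _ = _ := by ring
      exact_mod_cast h2
    refine lt_of_le_of_lt hbound ?_
    have h5 : (6 * k + 1) * N * HF * (2 * D₀) ^ (3 * k) < D₀ ^ (4 * k) := by
      refine lt_of_le_of_lt (le_of_eq ?_) haux
      rw [hHF]
      ring
    exact_mod_cast h5
  -- `P` vanishes at `0`
  have hti₀ : t i₀ = 0 := by
    have h1 := ht i₀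
    rw [sub_self] at h1
    have h2 : (w₁.2 : ℤ) ≠ 0 := by
      have := hWq w₁ hw₁
      exact_mod_cast (by omega : w₁.2 ≠ 0)
    exact (mul_eq_zero.1 h1.symm).resolve_left h2
  have hai₀ : a i₀ = 0 := by
    have h1 := hpa i₀
    have h2 : a i₀ * (d : ℤ) = 0 := by linear_combination -h1
    exact (mul_eq_zero.1 h2).resolve_right (by exact_mod_cast hd.ne')
  have hP0 : X ∣ P := by
    rw [X_dvd_iff]
    have h1 := hPQ0 i₀
    rw [hti₀, hai₀] at h1
    rw [← coeff_zero_eq_eval_zero] at h1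
    simpa using h1
  obtain ⟨P1, hP1⟩ := hP0
  have hP1d : P1.natDegree ≤ 3 * k - 1 := by
    by_cases h0 : P1 = 0
    · rw [h0, natDegree_zero]; exact Nat.zero_le _
    · have h1 : P.natDegree = 1 + P1.natDegree := by
        rw [hP1, natDegree_mul X_ne_zero h0, natDegree_X]
      omega
  -- apply the endgame
  have hrel : ∀ w ∈ W, (P1.map (Int.castRingHom ℚ)).eval (((-(D i₀ w : ℤ) : ℤ) : ℚ) / ((w.1 : ℤ) : ℚ)) =
      s w * (Q.map (Int.castRingHom ℚ)).eval (((-(D i₀ w : ℤ) : ℤ) : ℚ) / ((w.1 : ℤ) : ℚ)) := by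
    intro w hw
    have hw1 : (w.1 : ℤ) ≠ 0 := by
      have := (hWb w hw).1
      exact_mod_cast (by omega : w.1 ≠ 0)
    have hw1q : ((w.1 : ℤ) : ℚ) ≠ 0 := by exact_mod_cast hw1
    have hD0 : ((D i₀ w : ℤ) : ℚ) ≠ 0 := by
      have := (hDp i₀ w hw).1.pos
      exact_mod_cast this.ne'
    have h1 := congrArg (fun z : ℤ => (z : ℚ)) (hFzero w hw)
    simp only [Int.cast_add, Int.cast_mul, Int.cast_zero] at h1
    rw [hom_cast hPd hw1, hom_cast hQd hw1, hP1, Polynomial.map_mul, map_X, eval_mul, eval_X] at h1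
    set x : ℚ := ((-(D i₀ w : ℤ) : ℤ) : ℚ) / ((w.1 : ℤ) : ℚ) with hx
    have hxw : x * ((w.1 : ℤ) : ℚ) = -((D i₀ w : ℤ) : ℚ) := by
      rw [hx, div_mul_cancel₀ _ hw1q]; push_cast; rfl
    have h5 : ((w.1 : ℤ) : ℚ) ^ (3 * k) = ((w.1 : ℤ) : ℚ) ^ (3 * k - 1) * ((w.1 : ℤ) : ℚ) := by
      rw [← pow_succ]; congr 1; omega
    have h6 : (((w.1 : ℤ) : ℚ) ^ (3 * k - 1) * ((D i₀ w : ℤ) : ℚ)) *
        ((P1.map (Int.castRingHom ℚ)).eval x) = (((w.1 : ℤ) : ℚ) ^ (3 * k - 1) * ((D i₀ w : ℤ) : ℚ)) *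
        (s w * (Q.map (Int.castRingHom ℚ)).eval x) := by
      linear_combination -h1 + x * (P1.map (Int.castRingHom ℚ)).eval x * h5 +
        ((w.1 : ℤ) : ℚ) ^ (3 * k - 1) * (P1.map (Int.castRingHom ℚ)).eval x * hxw
    exact mul_left_cancel₀ (mul_ne_zero (pow_ne_zero _ hw1q) hD0) h6
  have hcast : Function.Injective (Int.castRingHom ℚ) := Int.cast_injective
  have hend := endgame W (fun w => (w.1 : ℤ)) (fun w => -(D i₀ w : ℤ)) s (3 * k - 1) N 𝒟 f
    (by omega) hN1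
    (by
      intro w hw
      have := (hWb w hw).1
      exact_mod_cast (by omega : 1 ≤ w.1))
    (by
      intro w hw
      rw [Nat.abs_cast]
      have := (hWb w hw).2
      exact_mod_cast (by omega : w.1 ≤ N))
    (by
      intro w hw
      rw [abs_neg, Nat.abs_cast]
      have := (hDp i₀ w hw).2.2
      exact_mod_cast (by omega : D i₀ w ≤ N))
    (fun w hw => hsmall _ (hs1 w hw))
    (by
      intro w hw
      refine IsCoprime.neg_right ?_
      rw [Nat.isCoprime_iff_coprime]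
      refine Nat.Coprime.symm ((Nat.Prime.coprime_iff_not_dvd (hDp i₀ w hw).1).2 fun h => ?_)
      have h1 := Nat.le_of_dvd (by have := (hWb w hw).1; omega) h
      have h2 := (hWb w hw).2
      have h3 := (hDp i₀ w hw).2.1
      omega)
    (by
      intro w hw w' hw' hb hy
      have h1 : w.1 = w'.1 := by exact_mod_cast hb
      have h2 : D i₀ w = D i₀ w' := by
        have : (D i₀ w : ℤ) = D i₀ w' := by linarith
        exact_mod_cast this
      have h3 := hDeq i₀ w hw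
      have h4 := hDeq i₀ w' hw'
      rw [h1, h2, h4] at h3
      exact Prod.ext h1 (by omega))
    (by
      intro β
      by_cases hβ : ∃ w ∈ W, (w.1 : ℤ) = β
      · obtain ⟨w₀, hw₀, rfl⟩ := hβ
        refine le_trans (Finset.card_le_card ?_) (hf w₀.1)
        intro w hw
        have := Finset.mem_filter.1 hw
        exact Finset.mem_filter.2 ⟨this.1, by exact_mod_cast this.2⟩
      · push Not at hβ
        rw [Finset.filter_false_of_mem (fun w hw => hβ w hw)]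
        simp)
    (P1.map (Int.castRingHom ℚ)) (Q.map (Int.castRingHom ℚ))
    (by
      rintro ⟨h1, h2⟩
      apply hPQ
      rw [Polynomial.map_eq_zero_iff hcast] at h1 h2
      rw [hP1, h1, h2]
      simp)
    (natDegree_map_le.trans hP1d) (natDegree_map_le.trans hQd) hrel h𝒟
  have himg : (W.image (fun w => (w.1 : ℤ))).card ≤ B := by
    calc (W.image (fun w => (w.1 : ℤ))).card ≤ (Finset.Ico (B : ℤ) (2 * B)).card := by
          refine Finset.card_le_card ?_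
          intro z hz
          obtain ⟨w, hw, rfl⟩ := Finset.mem_image.1 hz
          have := hWb w hw
          rw [Finset.mem_Ico]
          exact ⟨by exact_mod_cast this.1, by exact_mod_cast this.2⟩
      _ = B := by rw [Int.card_Ico]; omega
  rcases hend with ⟨s₀, hs₀⟩ | hcard
  · left
    refine ⟨n i₀ w₁ + p i₀ * s₀, le_trans (Finset.card_le_card ?_) hs₀⟩
    intro w hw
    obtain ⟨hw1, hw2⟩ := Finset.mem_filter.1 hw
    refine Finset.mem_filter.2 ⟨hw1, fun he => hw2 ?_⟩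
    have := hs w hw1
    rw [he] at this
    linarith
  · right
    refine hcard.trans ?_
    gcongr

end Pool.Agent.Helper73.RK
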