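import Mathlib
import Pool.Agent.Helper73.RK.Plane
import Pool.Agent.Helper73.RK.Biclique
import Pool.Agent.Helper73.RK.Edges

/-!
# The core argument
-/

namespace Pool.Agent.Helper73.RK

open Finset

lemma class_card_nat {R d r L : ℕ} (hd : 0 < d) (hdR : R ≤ 4 * L * d) (hL : 1 ≤ L) :
    ((Ico R (2 * R)).filter (fun q => q ≡ r [MOD d])).card ≤ 5 * L := by
  have h1 := (class_card R (2 * R) d r (by omega) hd).1
  have hdr : (0 : ℝ) < d := by exact_mod_cast hd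
  have h2 : (((2 * R : ℕ) : ℝ) - R) / d ≤ 4 * L := by
    rw [div_le_iff₀ hdr]
    have : (R : ℝ) ≤ 4 * L * d := by exact_mod_cast hdR
    push_cast
    linarith
  have h3 : (1 : ℝ) ≤ L := by exact_mod_cast hL
  have h4 : (((Ico R (2 * R)).filter (fun q => q ≡ r [MOD d])).card : ℝ) ≤ ((5 * L : ℕ) : ℝ) := by
    push_cast
    linarith
  exact_mod_cast h4

/-- the lower bound for the number of edges -/
lemma edges_large {R B D₀ F₀ N Λ V : ℕ} {P 𝓓 : Finset ℕ} {a : ℕ → ℤ}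
    (hP : ∀ p ∈ P, p.Prime ∧ R ≤ p ∧ p < 2 * R)
    (h𝓓 : ∀ D ∈ 𝓓, D.Prime ∧ D₀ ≤ D ∧ D < 2 * D₀) (hB : B ≤ D₀) (hD₀ : 1 ≤ D₀)
    (hDR : 2 * D₀ ≤ R)
    (hF : 4 * F₀ * D₀ ≤ B * 𝓓.card) (hVF : V ≤ F₀) (hV : 1 ≤ V) (hR : 16 * (D₀ * D₀) * V ≤ R)
    (hG : 8 * R ^ 2 ≤ (GG P a N Λ).card * V) :
    (GG P a N Λ).card * F₀ ≤ 2 * (edges P a N Λ B 𝓓).card := by
  classical
  set G := GG P a N Λ with hGdef
  set bad := G.filter (fun g => rep B 𝓓 g.1 g.2 < F₀) with hbad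
  have h1 : bad.card * V ≤ 4 * R ^ 2 := by
    have h2 : bad ⊆ (P ×ˢ Ico R (2 * R)).filter (fun g => rep B 𝓓 g.1 g.2 < F₀) := by
      intro g hg
      obtain ⟨hg1, hg2⟩ := Finset.mem_filter.1 hg
      obtain ⟨hg3, hg4, -, -⟩ := mem_GG.1 hg1
      refine Finset.mem_filter.2 ⟨Finset.mem_product.2 ⟨hg3, ?_⟩, hg2⟩
      exact Finset.mem_Ico.2 (hP _ hg4).2
    have h3 : ((P ×ˢ Ico R (2 * R)).filter (fun g => rep B 𝓓 g.1 g.2 < F₀)).card =
        ∑ p ∈ P, ((Ico R (2 * R)).filter (fun q => rep B 𝓓 p q < F₀)).card := by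
      simp only [Finset.card_filter]
      exact Finset.sum_product _ _ _
    have h4 : P.card ≤ R := by
      calc P.card ≤ (Ico R (2 * R)).card := Finset.card_le_card fun p hp =>
            Finset.mem_Ico.2 (hP p hp).2
        _ = R := by rw [Nat.card_Ico]; omega
    calc bad.card * V ≤ (∑ p ∈ P, ((Ico R (2 * R)).filter (fun q => rep B 𝓓 p q < F₀)).card) * V :=
          Nat.mul_le_mul_right _ ((Finset.card_le_card h2).trans h3.le)
      _ = ∑ p ∈ P, ((Ico R (2 * R)).filter (fun q => rep B 𝓓 p q < F₀)).card * V :=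
          Finset.sum_mul _ _ _
      _ ≤ ∑ _p ∈ P, 4 * R := by
          refine Finset.sum_le_sum fun p hp => ?_
          exact variance R B D₀ p F₀ V 𝓓 h𝓓 (hP p hp).1 (hDR.trans (hP p hp).2.1) hB hD₀ hF hVF hR
      _ = P.card * (4 * R) := by rw [Finset.sum_const, smul_eq_mul]
      _ ≤ R * (4 * R) := Nat.mul_le_mul_right _ h4
      _ = _ := by ring
  have h5 : (G.card - bad.card) * F₀ ≤ (edges P a N Λ B 𝓓).card := by
    rw [card_edges, ← hGdef]
    have h6 : G.card - bad.card = (G.filter (fun g => ¬ rep B 𝓓 g.1 g.2 < F₀)).card := by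
      have h7 : bad.card + (G.filter (fun g => ¬ rep B 𝓓 g.1 g.2 < F₀)).card = G.card := by
        rw [hbad]
        convert Finset.card_filter_add_card_filter_not (s := G)
          (fun g => rep B 𝓓 g.1 g.2 < F₀) using 2
      omega
    rw [h6]
    calc (G.filter (fun g => ¬ rep B 𝓓 g.1 g.2 < F₀)).card * F₀
        = ∑ _g ∈ G.filter (fun g => ¬ rep B 𝓓 g.1 g.2 < F₀), F₀ := by
          rw [Finset.sum_const, smul_eq_mul]
      _ ≤ ∑ g ∈ G.filter (fun g => ¬ rep B 𝓓 g.1 g.2 < F₀), rep B 𝓓 g.1 g.2 :=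
          Finset.sum_le_sum fun g hg => not_lt.1 (Finset.mem_filter.1 hg).2
      _ ≤ _ := Finset.sum_le_sum_of_subset (Finset.filter_subset _ _)
  have h8 : 2 * bad.card ≤ G.card := by
    have h9 : (2 * bad.card) * V ≤ G.card * V := by
      have : (2 * bad.card) * V = 2 * (bad.card * V) := by ring
      omega
    exact Nat.le_of_mul_le_mul_right h9 hV
  calc G.card * F₀ ≤ (2 * (G.card - bad.card)) * F₀ := Nat.mul_le_mul_right _ (by omega)
    _ = 2 * ((G.card - bad.card) * F₀) := by ring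
    _ ≤ _ := Nat.mul_le_mul_left _ h5

/-- **The core argument.** -/
theorem core (k L B R N Λ c₀ F₀ V K₀ E₀ Mk 𝒟 : ℕ) (P 𝓓 : Finset ℕ) (a : ℕ → ℤ)
    (hk : 1 ≤ k) (hL : 5 ≤ L) (hB : 4 ≤ B)
    (hP : ∀ p ∈ P, p.Prime ∧ R ≤ p ∧ p < 2 * R)
    (h𝓓 : ∀ D ∈ 𝓓, D.Prime ∧ L * B ≤ D ∧ D < 2 * (L * B))
    (hRN : R ≤ N) (hNR : N ≤ R * R)
    (hsize : N * (4 * B + 2) * (4 * L) ≤ R * R)
    (hsmall : (2 * (L * B)) * (2 * (L * B)) ≤ R)
    (haux : (6 * k + 1) ^ 3 * N ^ 3 * (4 * L) ^ (6 * k) * (2 * (L * B)) ^ (3 * k) <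
      (L * B) ^ (4 * k))
    (hF : 4 * F₀ * (L * B) ≤ B * 𝓓.card) (hVF : V ≤ F₀) (hV : 1 ≤ V)
    (hR : 16 * ((L * B) * (L * B)) * V ≤ R)
    (hc₀ : 4 * Λ ≤ c₀ * F₀) (hc1 : 1 ≤ c₀) (hMk : 4 * R < L * Mk)
    (hK₀ : 4 * k < K₀) (hE : 10 * (L * B) * K₀ ≤ E₀)
    (h𝒟 : ∀ m : ℕ, m ≠ 0 → m ≤ HD (3 * k - 1) N → m.divisors.card ≤ 𝒟)
    (hW : 2 * (((3 * k - 1) * (3 * k - 1) + (2 * (3 * k - 1) + 1) + (3 * k - 1) * (B * (2 * 𝒟)) +
      5 * L * 𝒟 + c₀ + B) * (5 * L) ^ (4 * k + 1)) < E₀ * (K₀ - 4 * k) ^ (4 * k))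
    (hG1 : 8 * R ^ 2 ≤ (GG P a N Λ).card * V)
    (hG2 : 4 * (Mk ^ 2 * E₀) ≤ (GG P a N Λ).card * F₀) : False := by
  classical
  have hLB : 1 ≤ L * B := Nat.mul_pos (by omega) (by omega)
  have hBLB : 2 * B ≤ L * B := Nat.mul_le_mul_right _ (by omega)
  have h2LB : 2 * (L * B) ≤ R := by
    refine le_trans ?_ hsmall
    exact Nat.le_mul_of_pos_left _ (by omega)
  have hP' : ∀ p ∈ P, p.Prime ∧ R ≤ p := fun p hp => ⟨(hP p hp).1, (hP p hp).2.1⟩
  set 𝓔 := edges P a N Λ B 𝓓 with h𝓔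
  set G := GG P a N Λ with hG
  -- Step 1
  have h1 : G.card * F₀ ≤ 2 * 𝓔.card :=
    edges_large hP h𝓓 (by omega) hLB h2LB hF hVF hV hR hG1
  -- Step 2: poor edges
  set 𝓔r := 𝓔.filter (fun e => c₀ < (near P a N Λ B 𝓓 e).card) with h𝓔r
  set 𝓔p := 𝓔.filter (fun e => ¬ c₀ < (near P a N Λ B 𝓓 e).card) with h𝓔p
  have h2 : 𝓔r.card * c₀ ≤ G.card * Λ := by
    refine le_trans ?_ (sum_near (a := a) (Λ := Λ) (B := B) (D₀ := L * B) hP h𝓓 (by omega) (by omega) hsmall hNR)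
    calc 𝓔r.card * c₀ = ∑ _e ∈ 𝓔r, c₀ := by rw [Finset.sum_const, smul_eq_mul]
      _ ≤ ∑ e ∈ 𝓔r, (near P a N Λ B 𝓓 e).card :=
          Finset.sum_le_sum fun e he => (Finset.mem_filter.1 he).2.le
      _ ≤ _ := Finset.sum_le_sum_of_subset (Finset.filter_subset _ _)
  have h3 : 2 * 𝓔r.card ≤ 𝓔.card := by
    have h4 : 4 * (𝓔r.card * c₀) ≤ 2 * (𝓔.card * c₀) := by
      calc 4 * (𝓔r.card * c₀) ≤ 4 * (G.card * Λ) := Nat.mul_le_mul_left _ h2
        _ = G.card * (4 * Λ) := by ring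
        _ ≤ G.card * (c₀ * F₀) := Nat.mul_le_mul_left _ hc₀
        _ = (G.card * F₀) * c₀ := by ring
        _ ≤ (2 * 𝓔.card) * c₀ := Nat.mul_le_mul_right _ h1
        _ = _ := by ring
    have h5 : (2 * 𝓔r.card) * c₀ ≤ 𝓔.card * c₀ := by
      have : (2 * 𝓔r.card) * c₀ = 2 * (𝓔r.card * c₀) := by ring
      omega
    exact Nat.le_of_mul_le_mul_right h5 hc1
  have h4 : 𝓔.card ≤ 2 * 𝓔p.card := by
    have h34 : 𝓔r.card + 𝓔p.card = 𝓔.card := by
      rw [h𝓔r, h𝓔p]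
      convert Finset.card_filter_add_card_filter_not (s := 𝓔)
        (fun e => c₀ < (near P a N Λ B 𝓓 e).card) using 2
    omega
  -- Step 3: a good plane
  have hkeyfacts : ∀ e ∈ 𝓔, 0 < dd e ∧ dd e < Mk ∧ R ≤ 4 * L * dd e ∧ dd e * L < 4 * R := by
    intro e he
    have h5 := edge_eq hP (by omega) he
    obtain ⟨h6, h7, h8, -⟩ := mem_edges.1 he
    obtain ⟨h9, h10, -, -⟩ := mem_GG.1 h6
    have h11 := (hP _ h9).2
    have h12 := (hP _ h10).2
    have h13 := (h𝓓 _ h8).2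
    have h14 : B * R ≤ e.2.1 * e.1.1 := Nat.mul_le_mul h7.1 h11.1
    have h15 : e.2.1 * e.1.1 < (2 * B) * (2 * R) := Nat.mul_lt_mul'' h7.2 h11.2
    have h16 : 4 * R ≤ B * R := Nat.mul_le_mul_right _ hB
    have h17 : 0 < dd e := by
      rcases Nat.eq_zero_or_pos (dd e) with h | h
      · rw [h, zero_mul, add_zero] at h5; omega
      · exact h
    have h18 : dd e * (L * B) < 4 * (B * R) := by
      calc dd e * (L * B) ≤ dd e * e.2.2 := Nat.mul_le_mul_left _ h13.1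
        _ ≤ e.2.1 * e.1.1 := by omega
        _ < (2 * B) * (2 * R) := h15
        _ = 4 * (B * R) := by ring
    have h19 : dd e * L < 4 * R := by
      have h20 : (dd e * L) * B < (4 * R) * B := by
        calc (dd e * L) * B = dd e * (L * B) := by ring
          _ < 4 * (B * R) := h18
          _ = _ := by ring
      exact lt_of_mul_lt_mul_right h20 (Nat.zero_le _)
    have h21 : dd e < Mk := by
      have h22 : L * dd e < L * Mk := by
        calc L * dd e = dd e * L := mul_comm _ _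
          _ < 4 * R := h19
          _ < _ := hMk
      exact lt_of_mul_lt_mul_left h22 (Nat.zero_le _)
    refine ⟨h17, h21, ?_, h19⟩
    have h23 : B * R ≤ B * (4 * L * dd e) := by
      have h24 : dd e * e.2.2 < dd e * (2 * (L * B)) := Nat.mul_lt_mul_of_pos_left h13.2 h17
      have h25 : dd e * (2 * (L * B)) * 2 = B * (4 * L * dd e) := by ring
      have h26 : 2 * (B * R) ≤ 2 * (dd e * e.2.2) + 2 * e.1.2 := by omega
      omega
    exact Nat.le_of_mul_le_mul_left h23 (by omega)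
  have h5 : ∃ key ∈ range Mk ×ˢ range Mk, E₀ ≤
      (𝓔p.filter (fun e => (dd e, e.1.1 % dd e) = key)).card := by
    have hMk0 : 0 < Mk := by
      rcases Nat.eq_zero_or_pos Mk with h | h
      · rw [h, mul_zero] at hMk; omega
      · exact h
    refine Finset.exists_le_card_fiber_of_mul_le_card_of_maps_to ?_ ?_ ?_
    · intro e he
      have h6 := hkeyfacts e (Finset.mem_filter.1 he).1
      rw [Finset.mem_product, Finset.mem_range, Finset.mem_range]
      exact ⟨h6.2.1, lt_trans (Nat.mod_lt _ h6.1) h6.2.1⟩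
    · exact ⟨(0, 0), Finset.mem_product.2 ⟨Finset.mem_range.2 hMk0, Finset.mem_range.2 hMk0⟩⟩
    · rw [Finset.card_product, Finset.card_range]
      have h7 : Mk * Mk * E₀ = Mk ^ 2 * E₀ := by ring
      omega
  obtain ⟨⟨d, r⟩, -, h6⟩ := h5
  set F := 𝓔p.filter (fun e => (dd e, e.1.1 % dd e) = (d, r)) with hFdef
  have hF𝓔 : ∀ e ∈ F, e ∈ 𝓔 := fun e he => (Finset.mem_filter.1 (Finset.mem_filter.1 he).1).1
  have hFdd : ∀ e ∈ F, dd e = d ∧ e.1.1 % d = r := by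
    intro e he
    have h7 := (Finset.mem_filter.1 he).2
    rw [Prod.mk.injEq] at h7
    refine ⟨h7.1, ?_⟩
    rw [← h7.1]; exact h7.2
  have hE₀ : 0 < E₀ := by
    refine lt_of_lt_of_le ?_ hE
    exact Nat.mul_pos (Nat.mul_pos (by norm_num) hLB) (by omega)
  obtain ⟨e₁, he₁⟩ := Finset.card_pos.1 (lt_of_lt_of_le hE₀ h6)
  have hdfacts : 0 < d ∧ d < Mk ∧ R ≤ 4 * L * d ∧ d * L < 4 * R := by
    have := hkeyfacts e₁ (hF𝓔 e₁ he₁)
    rwa [(hFdd e₁ he₁).1] at this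
  obtain ⟨hd, -, hdR, hdL⟩ := hdfacts
  have hFeq : ∀ e ∈ F, e.2.1 * e.1.1 = e.1.2 + d * e.2.2 := by
    intro e he
    have := edge_eq hP (by omega) (hF𝓔 e he)
    rwa [(hFdd e he).1] at this
  -- Step 4: the bipartite graph
  let φ : (ℕ × ℕ) × (ℕ × ℕ) → ℕ × (ℕ × ℕ) := fun e => (e.1.1, (e.2.1, e.1.2))
  have hφinj : Set.InjOn φ F := by
    intro e he e' he' hee
    simp only [φ, Prod.mk.injEq] at hee
    obtain ⟨h7, h8, h9⟩ := hee
    have h10 := hFeq e he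
    have h11 := hFeq e' he'
    rw [h7, h8, h9, h11] at h10
    have h12 : e'.2.2 = e.2.2 := Nat.eq_of_mul_eq_mul_left hd (by omega)
    exact Prod.ext (Prod.ext h7 h9) (Prod.ext h8 h12.symm)
  set E := F.image φ with hEdef
  have hEcard : E₀ ≤ E.card := by
    rw [hEdef, Finset.card_image_of_injOn hφinj]
    exact h6
  set X := P.filter (fun p => p % d = r) with hX
  set Y := (Ico B (2 * B) ×ˢ Ico R (2 * R)).filter (fun w => w.2 ≡ w.1 * r [MOD d]) with hY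
  have hXcard : X.card ≤ 5 * L := by
    refine le_trans (Finset.card_le_card ?_) (class_card_nat (r := r) hd hdR (by omega))
    intro p hp
    obtain ⟨hp1, hp2⟩ := Finset.mem_filter.1 hp
    refine Finset.mem_filter.2 ⟨Finset.mem_Ico.2 (hP p hp1).2, ?_⟩
    have h7 : r % d = r := by rw [← hp2]; exact Nat.mod_mod _ _
    rw [Nat.ModEq, hp2, h7]
  have hYcard : Y.card ≤ 5 * (L * B) := by
    have h7 : Y.card = ∑ b ∈ Ico B (2 * B),
        ((Ico R (2 * R)).filter (fun q => q ≡ b * r [MOD d])).card := by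
      rw [hY]
      simp only [Finset.card_filter]
      exact Finset.sum_product _ _ _
    rw [h7]
    calc ∑ b ∈ Ico B (2 * B), ((Ico R (2 * R)).filter (fun q => q ≡ b * r [MOD d])).card
        ≤ ∑ _b ∈ Ico B (2 * B), 5 * L :=
          Finset.sum_le_sum fun b _ => class_card_nat hd hdR (by omega)
      _ = B * (5 * L) := by
          rw [Finset.sum_const, Nat.card_Ico, smul_eq_mul]
          congr 1
          omega
      _ = _ := by ring
  have hEXY : E ⊆ X ×ˢ Y := by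
    intro z hz
    obtain ⟨e, he, rfl⟩ := Finset.mem_image.1 hz
    obtain ⟨h7, h8, h9, -⟩ := mem_edges.1 (hF𝓔 e he)
    obtain ⟨h10, h11, -, -⟩ := mem_GG.1 h7
    refine Finset.mem_product.2 ⟨Finset.mem_filter.2 ⟨h10, (hFdd e he).2⟩,
      Finset.mem_filter.2 ⟨Finset.mem_product.2 ⟨Finset.mem_Ico.2 h8,
        Finset.mem_Ico.2 (hP _ h11).2⟩, ?_⟩⟩
    change e.1.2 ≡ e.2.1 * r [MOD d]
    have h12 : e.1.1 ≡ r [MOD d] := by
      have h13 := (hFdd e he).2
      have h14 : r % d = r := by rw [← h13]; exact Nat.mod_mod _ _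
      rw [Nat.ModEq, h13, h14]
    have h15 : e.2.1 * e.1.1 ≡ e.2.1 * r [MOD d] := Nat.ModEq.mul_left _ h12
    refine Nat.ModEq.trans ?_ h15
    rw [hFeq e he, Nat.ModEq, Nat.add_mul_mod_self_left]
  obtain ⟨T, hTX, hTcard, W, hWY, hWE, hcard⟩ := biclique E X Y hEXY (4 * k) K₀ hK₀ (by
    refine le_trans ?_ (hE.trans hEcard)
    calc 2 * (Y.card * K₀) ≤ 2 * (5 * (L * B) * K₀) :=
          Nat.mul_le_mul_left _ (Nat.mul_le_mul_right _ hYcard)
      _ = _ := by ring) (lt_of_lt_of_le hE₀ hEcard)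
  set W₀ := (3 * k - 1) * (3 * k - 1) + (2 * (3 * k - 1) + 1) + (3 * k - 1) * (B * (2 * 𝒟)) +
      5 * L * 𝒟 + c₀ + B with hW₀
  have hWcard : W₀ < W.card := by
    have h7 : 2 * (W₀ * (5 * L) ^ (4 * k + 1)) < 2 * (W.card * (5 * L) ^ (4 * k + 1)) := by
      calc 2 * (W₀ * (5 * L) ^ (4 * k + 1)) < E₀ * (K₀ - 4 * k) ^ (4 * k) := hW
        _ ≤ E.card * (K₀ - 4 * k) ^ (4 * k) := Nat.mul_le_mul_right _ hEcard
        _ ≤ 2 * (W.card * X.card ^ (4 * k + 1)) := hcard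
        _ ≤ _ := Nat.mul_le_mul_left _ (Nat.mul_le_mul_left _ (Nat.pow_le_pow_left hXcard _))
    have h8 := lt_of_mul_lt_mul_left h7 (Nat.zero_le _)
    exact lt_of_mul_lt_mul_right h8 (Nat.zero_le _)
  -- Step 5: the plane lemma
  let p : Fin (4 * k) → ℕ := fun i => T.orderEmbOfFin hTcard i
  have hpinj : Function.Injective p := (T.orderEmbOfFin hTcard).injective
  have hpT : ∀ i, p i ∈ T := fun i => Finset.orderEmbOfFin_mem T hTcard i
  have hpP : ∀ i, p i ∈ P := fun i => (Finset.mem_filter.1 (hTX (hpT i))).1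
  have hpr : ∀ i, p i % d = r := fun i => (Finset.mem_filter.1 (hTX (hpT i))).2
  let i₀ : Fin (4 * k) := ⟨0, by omega⟩
  have hWF : ∀ i, ∀ w ∈ W, ∃ D, ((p i, w.2), (w.1, D)) ∈ F := by
    intro i w hw
    obtain ⟨e, he, hee⟩ := Finset.mem_image.1 (hWE w hw (p i) (hpT i))
    simp only [φ, Prod.mk.injEq] at hee
    refine ⟨e.2.2, ?_⟩
    have h7 : ((p i, w.2), (w.1, e.2.2)) = e := by
      refine Prod.ext (Prod.ext hee.1.symm ?_) (Prod.ext ?_ rfl)
      · rw [← hee.2]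
      · rw [← hee.2]
    rw [h7]; exact he
  choose! D hD using hWF
  have hDfacts : ∀ i, ∀ w ∈ W, (D i w).Prime ∧ L * B ≤ D i w ∧ D i w < 2 * (L * B) :=
    fun i w hw => h𝓓 _ (mem_edges.1 (hF𝓔 _ (hD i w hw))).2.2.1
  have hDeq : ∀ i, ∀ w ∈ W, w.1 * p i = w.2 + d * D i w := fun i w hw => hFeq _ (hD i w hw)
  have hDG : ∀ i, ∀ w ∈ W, (p i, w.2) ∈ GG P a N Λ := fun i w hw =>
    (mem_edges.1 (hF𝓔 _ (hD i w hw))).1
  have hmeet : ∀ i, ∀ w ∈ W, Meet a N (p i) w.2 (pt a N (p i) w.2) := fun i w hw =>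
    (GG_pt hP' hNR (hDG i w hw)).1
  have hdvd : ∀ i, (d : ℤ) ∣ (p i : ℤ) - p i₀ := by
    intro i
    have h7 : p i₀ ≡ p i [MOD d] := by rw [Nat.ModEq, hpr, hpr]
    exact (Nat.modEq_iff_dvd).1 h7
  choose α hα using hdvd
  have hdz : (0 : ℤ) < d := by exact_mod_cast hd
  have hαb : ∀ i, |α i| ≤ 4 * (L : ℤ) := by
    intro i
    have h7 : |(p i : ℤ) - p i₀| < R := by
      have h8 := (hP _ (hpP i)).2
      have h9 := (hP _ (hpP i₀)).2
      rw [abs_lt]; constructor <;> omega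
    rw [hα i, abs_mul, Nat.abs_cast] at h7
    have h8 : (R : ℤ) ≤ 4 * L * d := by exact_mod_cast hdR
    have h9 : (d : ℤ) * |α i| < d * (4 * L) := by linarith
    exact (lt_of_mul_lt_mul_left h9 hdz.le).le
  have hWb : ∀ w ∈ W, (B ≤ w.1 ∧ w.1 < 2 * B) ∧ (R ≤ w.2 ∧ w.2 < 2 * R) ∧
      w.2 ≡ w.1 * r [MOD d] := by
    intro w hw
    obtain ⟨h7, h8⟩ := Finset.mem_filter.1 (hWY hw)
    obtain ⟨h9, h10⟩ := Finset.mem_product.1 h7
    exact ⟨Finset.mem_Ico.1 h9, Finset.mem_Ico.1 h10, h8⟩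
  have hdltR : d < R := by
    have h7 : 5 * d ≤ d * L := by rw [mul_comm 5 d]; exact Nat.mul_le_mul_left _ hL
    omega
  have hplane := plane k L B R N d (L * B) (5 * L) 𝒟 hk (by omega) (by omega) hRN p i₀ hpinj
    (fun i => (hP _ (hpP i)).1) (fun i => (hP _ (hpP i)).2.1) α
    (fun i => by have := hα i; linarith) hαb hd hdltR W (fun w hw => (hWb w hw).1)
    (fun w hw => (hWb w hw).2.1.1) D hDfacts hDeq (fun i w => pt a N (p i) w.2)
    (fun i w hw => ⟨(hmeet i w hw).1, (hmeet i w hw).2.1⟩)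
    (fun i w hw w' hw' => by
      have := dvd_sub (hmeet i w hw).2.2.1 (hmeet i w' hw').2.2.1
      rwa [sub_sub_sub_cancel_right] at this)
    (fun i i' w hw => by
      have := dvd_sub (hmeet i w hw).2.2.2 (hmeet i' w hw).2.2.2
      rwa [sub_sub_sub_cancel_right] at this)
    hBLB
    (by
      have h7 : (N * (4 * B + 2)) * (4 * L) ≤ (d * R) * (4 * L) := by
        calc (N * (4 * B + 2)) * (4 * L) ≤ R * R := hsize
          _ ≤ R * (4 * L * d) := Nat.mul_le_mul_left _ hdR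
          _ = _ := by ring
      exact Nat.le_of_mul_le_mul_right h7 (by omega))
    h2LB haux
    (fun β => by
      refine le_trans (Finset.card_le_card_of_injOn (t := (Ico R (2 * R)).filter
        (fun q => q ≡ β * r [MOD d])) Prod.snd ?_ ?_) (class_card_nat hd hdR (by omega))
      · intro w hw
        obtain ⟨h7, h8⟩ := Finset.mem_filter.1 (Finset.mem_coe.1 hw)
        have h9 := (hWb w h7).2
        rw [h8] at h9
        exact Finset.mem_coe.2 (Finset.mem_filter.2 ⟨Finset.mem_Ico.2 h9.1, h9.2⟩)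
      · intro w hw w' hw' hww
        have h7 := (Finset.mem_filter.1 (Finset.mem_coe.1 hw)).2
        have h8 := (Finset.mem_filter.1 (Finset.mem_coe.1 hw')).2
        exact Prod.ext (h7.trans h8.symm) hww)
    h𝒟
  rcases hplane with ⟨n₀, hn₀⟩ | hbig
  · set W0 := W.filter (fun w => pt a N (p i₀) w.2 = n₀) with hW0
    have h7 : W.card = W0.card + (W.filter (fun w => pt a N (p i₀) w.2 ≠ n₀)).card := by
      rw [hW0]
      exact (Finset.card_filter_add_card_filter_not (s := W)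
        (fun w => pt a N (p i₀) w.2 = n₀)).symm
    have h8 : c₀ + B < W0.card := by omega
    obtain ⟨w₀, hw₀⟩ := Finset.card_pos.1 (lt_of_le_of_lt (Nat.zero_le _) h8)
    have hw₀' := Finset.mem_filter.1 hw₀
    have h9 : ((p i₀, w₀.2), (w₀.1, D i₀ w₀)) ∈ 𝓔p :=
      (Finset.mem_filter.1 (hD i₀ w₀ hw₀'.1)).1
    have h10 := not_lt.1 (Finset.mem_filter.1 h9).2
    have h11 : (W0.filter (fun w => w.2 ≠ w₀.2)).card ≤ c₀ := by
      refine le_trans ?_ h10
      refine Finset.card_le_card_of_injOn (fun w => ((p i₀, w.2), (w.1, D i₀ w))) ?_ ?_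
      · intro w hw
        obtain ⟨hw1, hw2⟩ := Finset.mem_filter.1 (Finset.mem_coe.1 hw)
        obtain ⟨hw3, hw4⟩ := Finset.mem_filter.1 hw1
        refine Finset.mem_coe.2 (Finset.mem_filter.2 ⟨hF𝓔 _ (hD i₀ w hw3), rfl, ?_, ?_, hw2⟩)
        · rw [(hFdd _ (hD i₀ w hw3)).1, (hFdd _ (hD i₀ w₀ hw₀'.1)).1]
        · exact hw4.trans hw₀'.2.symm
      · intro w _ w' _ hww
        simp only [Prod.mk.injEq] at hww
        exact Prod.ext hww.2.1 hww.1.2
    have h12 : (W0.filter (fun w => ¬ w.2 ≠ w₀.2)).card ≤ B := by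
      calc (W0.filter (fun w => ¬ w.2 ≠ w₀.2)).card ≤ (Ico B (2 * B)).card := by
            refine Finset.card_le_card_of_injOn Prod.fst ?_ ?_
            · intro w hw
              have hw1 := (Finset.mem_filter.1 (Finset.mem_coe.1 hw)).1
              exact Finset.mem_coe.2 (Finset.mem_Ico.2 (hWb w (Finset.mem_filter.1 hw1).1).1)
            · intro w hw w' hw' hww
              have h13 := (Finset.mem_filter.1 (Finset.mem_coe.1 hw)).2
              have h14 := (Finset.mem_filter.1 (Finset.mem_coe.1 hw')).2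
              push Not at h13 h14
              exact Prod.ext hww (h13.trans h14.symm)
        _ = B := by rw [Nat.card_Ico]; omega
    have h13 := Finset.card_filter_add_card_filter_not (s := W0) (fun w => w.2 ≠ w₀.2)
    omega
  · omega

end Pool.Agent.Helper73.RK
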