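import Mathlib
import Pool.Agent.Helper73.RK.Core
import Pool.Agent.Helper73.RK.Primes

/-!
# The main theorem in integers
-/

namespace Pool.Agent.Helper73.RK

open Finset

lemma class_card_int (N : ℕ) (v : ℤ) (p : ℕ) (hp : 0 < p) :
    (N : ℝ) / p - 1 ≤ (((Icc (1 : ℤ) N).filter (fun n => (p : ℤ) ∣ n - v)).card : ℝ) := by
  have hp' : (0 : ℤ) < p := by exact_mod_cast hp
  have h0 : (Icc (1 : ℤ) N).filter (fun n => (p : ℤ) ∣ n - v) =
      (Ioc (0 : ℤ) N).filter (fun n => n ≡ v [ZMOD p]) := by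
    ext n
    rw [Finset.mem_filter, Finset.mem_filter, Finset.mem_Icc, Finset.mem_Ioc]
    constructor
    · rintro ⟨h1, h2⟩
      exact ⟨⟨by omega, h1.2⟩, (Int.modEq_iff_dvd.2 h2).symm⟩
    · rintro ⟨h1, h2⟩
      exact ⟨⟨by omega, h1.2⟩, Int.modEq_iff_dvd.1 h2.symm⟩
  rw [h0]
  have h1 := Int.Ioc_filter_modEq_card 0 (N : ℤ) hp' v
  set c := ((Ioc (0 : ℤ) N).filter (fun n => n ≡ v [ZMOD p])).card with hc
  have h2 : ((N : ℤ) - v : ℚ) / (p : ℤ) - 1 < ⌊((N : ℤ) - v : ℚ) / (p : ℤ)⌋ := Int.sub_one_lt_floor _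
  have h3 : (⌊(((0 : ℤ) : ℚ) - v) / (p : ℤ)⌋ : ℚ) ≤ (((0 : ℤ) : ℚ) - v) / (p : ℤ) := Int.floor_le _
  have h4 : (c : ℚ) = max ((⌊((N : ℤ) - v : ℚ) / (p : ℤ)⌋ : ℚ) - ⌊(((0 : ℤ) : ℚ) - v) / (p : ℤ)⌋) 0 := by
    have := congrArg (fun z : ℤ => (z : ℚ)) h1
    push_cast at this
    push_cast
    exact this
  have h5 : (N : ℚ) / p - 1 ≤ (c : ℚ) := by
    rw [h4]
    refine le_max_of_le_left ?_
    have h6 : ((N : ℤ) - v : ℚ) / (p : ℤ) - (((0 : ℤ) : ℚ) - v) / (p : ℤ) = (N : ℚ) / p := by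
      push_cast; ring
    linarith
  have h7 : (((((N : ℚ)) / p - 1 : ℚ)) : ℝ) ≤ ((c : ℚ) : ℝ) := by exact_mod_cast h5
  push_cast at h7
  exact h7

lemma dyadic_card_le (n : ℕ) : (dyadic n).card ≤ n := by
  calc (dyadic n).card ≤ (Ioc n (2 * n)).card := Finset.card_le_card (Finset.filter_subset _ _)
    _ = n := by rw [Nat.card_Ioc]; omega

lemma mem_dyadic {n p : ℕ} (hn : 2 ≤ n) (h : p ∈ dyadic n) : p.Prime ∧ n < p ∧ p < 2 * n := by
  obtain ⟨h1, h2⟩ := Finset.mem_filter.1 h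
  rw [Finset.mem_Ioc] at h1
  refine ⟨h2, h1.1, lt_of_le_of_ne h1.2 ?_⟩
  rintro rfl
  rcases (Nat.prime_mul_iff.1 h2) with ⟨-, h3⟩ | ⟨-, h3⟩ <;> omega

lemma HD_le (h e : ℕ) : ∃ κ x₀ : ℕ, ∀ x : ℕ, x₀ ≤ x → ∀ V : ℕ, V ≤ x ^ e → HD h V ≤ x ^ κ := by
  refine ⟨1 + (((1 + (1 + e * (h + 1)) * (2 * h + 1)) * (2 * h)) +
    (1 + e * (h + 1)) * (2 * h + 1)) + e * (2 * h), 2 * h + 2, fun x hx V hV => ?_⟩
  have h1 : H1 h V ≤ x ^ ((1 + e * (h + 1)) * (2 * h + 1)) := by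
    unfold H1
    calc ((2 * h + 2) * V ^ (h + 1)) ^ (2 * h + 1)
        ≤ (x ^ 1 * (x ^ e) ^ (h + 1)) ^ (2 * h + 1) := by
          refine Nat.pow_le_pow_left (Nat.mul_le_mul ?_ (Nat.pow_le_pow_left hV _)) _
          rw [pow_one]; exact hx
      _ = _ := by rw [← pow_mul, ← pow_add, ← pow_mul]
  have h2 : H2 h V ≤ x ^ ((1 + (1 + e * (h + 1)) * (2 * h + 1)) * (2 * h)) := by
    unfold H2
    calc (2 * h * H1 h V) ^ (2 * h)
        ≤ (x ^ 1 * x ^ ((1 + e * (h + 1)) * (2 * h + 1))) ^ (2 * h) := by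
          refine Nat.pow_le_pow_left (Nat.mul_le_mul ?_ h1) _
          rw [pow_one]; omega
      _ = _ := by rw [← pow_add, ← pow_mul]
  unfold HD
  calc 2 * (H2 h V * H1 h V) * V ^ (2 * h)
      ≤ x ^ 1 * (x ^ ((1 + (1 + e * (h + 1)) * (2 * h + 1)) * (2 * h)) *
        x ^ ((1 + e * (h + 1)) * (2 * h + 1))) * (x ^ e) ^ (2 * h) := by
        refine Nat.mul_le_mul (Nat.mul_le_mul ?_ (Nat.mul_le_mul h2 h1)) (Nat.pow_le_pow_left hV _)
        rw [pow_one]; omega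
    _ = _ := by rw [← pow_mul, ← pow_add, ← pow_add, ← pow_add]

/-- the constants absorbed into one factor `x` -/
def xmin : ℕ := (6 * 240 + 1) ^ 3 * 4 ^ (6 * 240) * 2 ^ (3 * 240) + 4 * 5 ^ (4 * 240 + 1) + 10 ^ 9

lemma xmin_ge1 : (6 * 240 + 1) ^ 3 * 4 ^ (6 * 240) * 2 ^ (3 * 240) ≤ xmin := by
  unfold xmin
  exact (Nat.le_add_right _ _).trans (Nat.le_add_right _ _)

lemma xmin_ge2 : 4 * 5 ^ (4 * 240 + 1) ≤ xmin := by
  unfold xmin
  exact (Nat.le_add_left _ _).trans (Nat.le_add_right _ _)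

lemma xmin_ge3 : 10 ^ 9 ≤ xmin := by
  unfold xmin
  exact Nat.le_add_left _ _

lemma num_aux {w x N : ℕ} (hx : xmin ≤ x) (hw : 1 ≤ w) (hN2 : N ≤ x ^ (1000 * w + 1)) :
    (6 * 240 + 1) ^ 3 * N ^ 3 * (4 * x ^ w) ^ (6 * 240) * (2 * (x ^ w * x ^ (18 * w))) ^ (3 * 240) <
      (x ^ w * x ^ (18 * w)) ^ (4 * 240) := by
  have hx0 : 1 < x := lt_of_lt_of_le (by norm_num) (xmin_ge3.trans hx)
  have e1 : x ^ w * x ^ (18 * w) = x ^ (19 * w) := by rw [← pow_add]; congr 1; ring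
  rw [e1]
  have h1 : (6 * 240 + 1) ^ 3 * N ^ 3 * (4 * x ^ w) ^ (6 * 240) * (2 * x ^ (19 * w)) ^ (3 * 240) =
      ((6 * 240 + 1) ^ 3 * 4 ^ (6 * 240) * 2 ^ (3 * 240)) *
        (N ^ 3 * (x ^ w) ^ (6 * 240) * (x ^ (19 * w)) ^ (3 * 240)) := by
    rw [mul_pow 4, mul_pow 2]
    generalize (6 * 240 + 1) ^ 3 = A
    generalize (4 : ℕ) ^ (6 * 240) = B
    generalize (2 : ℕ) ^ (3 * 240) = C
    ring
  rw [h1]
  calc ((6 * 240 + 1) ^ 3 * 4 ^ (6 * 240) * 2 ^ (3 * 240)) *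
        (N ^ 3 * (x ^ w) ^ (6 * 240) * (x ^ (19 * w)) ^ (3 * 240))
      ≤ x * ((x ^ (1000 * w + 1)) ^ 3 * (x ^ w) ^ (6 * 240) * (x ^ (19 * w)) ^ (3 * 240)) :=
        Nat.mul_le_mul (xmin_ge1.trans hx)
          (Nat.mul_le_mul_right _ (Nat.mul_le_mul_right _ (Nat.pow_le_pow_left hN2 3)))
    _ = x ^ (1 + ((1000 * w + 1) * 3 + w * (6 * 240) + 19 * w * (3 * 240))) := by
        rw [← pow_mul, ← pow_mul, ← pow_mul, pow_add x 1, pow_one, pow_add x, pow_add x]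
    _ < x ^ (19 * w * (4 * 240)) := Nat.pow_lt_pow_right hx0 (by omega)
    _ = _ := by rw [← pow_mul]


/-- upper bound for a residue class -/
lemma class_card_int' (N : ℕ) (v : ℤ) (p : ℕ) (hp : 0 < p) :
    (((Icc (1 : ℤ) N).filter (fun n => (p : ℤ) ∣ n - v)).card : ℝ) ≤ (N : ℝ) / p + 1 := by
  have hp' : (0 : ℤ) < p := by exact_mod_cast hp
  have h0 : (Icc (1 : ℤ) N).filter (fun n => (p : ℤ) ∣ n - v) =
      (Ioc (0 : ℤ) N).filter (fun n => n ≡ v [ZMOD p]) := by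
    ext n
    rw [Finset.mem_filter, Finset.mem_filter, Finset.mem_Icc, Finset.mem_Ioc]
    constructor
    · rintro ⟨h1, h2⟩
      exact ⟨⟨by omega, h1.2⟩, (Int.modEq_iff_dvd.2 h2).symm⟩
    · rintro ⟨h1, h2⟩
      exact ⟨⟨by omega, h1.2⟩, Int.modEq_iff_dvd.1 h2.symm⟩
  rw [h0]
  have h1 := Int.Ioc_filter_modEq_card 0 (N : ℤ) hp' v
  set c := ((Ioc (0 : ℤ) N).filter (fun n => n ≡ v [ZMOD p])).card with hc
  have h2 : (⌊((N : ℤ) - v : ℚ) / (p : ℤ)⌋ : ℚ) ≤ ((N : ℤ) - v : ℚ) / (p : ℤ) := Int.floor_le _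
  have h3 : (((0 : ℤ) : ℚ) - v) / (p : ℤ) - 1 < (⌊(((0 : ℤ) : ℚ) - v) / (p : ℤ)⌋ : ℚ) :=
    Int.sub_one_lt_floor _
  have h4 : (c : ℚ) = max ((⌊((N : ℤ) - v : ℚ) / (p : ℤ)⌋ : ℚ) - ⌊(((0 : ℤ) : ℚ) - v) / (p : ℤ)⌋) 0 := by
    have := congrArg (fun z : ℤ => (z : ℚ)) h1
    push_cast at this
    push_cast
    exact this
  have h5 : (c : ℚ) ≤ (N : ℚ) / p + 1 := by
    rw [h4]
    have h6 : ((N : ℤ) - v : ℚ) / (p : ℤ) - (((0 : ℤ) : ℚ) - v) / (p : ℤ) = (N : ℚ) / p := by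
      push_cast; ring
    refine max_le (by linarith) ?_
    positivity
  have h7 : ((c : ℚ) : ℝ) ≤ (((((N : ℚ)) / p + 1 : ℚ)) : ℝ) := by exact_mod_cast h5
  push_cast at h7
  exact h7

lemma inc_upper {N R : ℕ} {a : ℕ → ℤ} {P : Finset ℕ} (hR : 1 ≤ R) (hP : ∀ p ∈ P, R ≤ p)
    (hc : P.card ≤ R) : inc P a N ≤ N + R := by
  have h1 : (inc P a N : ℝ) ≤ N + R := by
    unfold inc
    push_cast
    have hR' : (0 : ℝ) < R := by exact_mod_cast hR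
    calc ∑ p ∈ P, (((Icc (1 : ℤ) N).filter (fun n => (p : ℤ) ∣ n - a p)).card : ℝ)
        ≤ ∑ _p ∈ P, ((N : ℝ) / R + 1) := by
          refine Finset.sum_le_sum fun p hp => ?_
          have h2 := hP p hp
          refine (class_card_int' N (a p) p (by omega)).trans ?_
          have h3 : (R : ℝ) ≤ p := by exact_mod_cast h2
          gcongr
      _ = P.card * ((N : ℝ) / R + 1) := by rw [Finset.sum_const, nsmul_eq_mul]
      _ ≤ R * ((N : ℝ) / R + 1) := by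
          refine mul_le_mul_of_nonneg_right (by exact_mod_cast hc) (by positivity)
      _ = N + R := by field_simp
  exact_mod_cast h1

lemma inc_lower {N R x : ℕ} {a : ℕ → ℤ} (hR : 3 ≤ R) (hN : 4 * R ≤ N)
    (hc : R - 1 ≤ x * (dyadic (R - 1)).card) : N ≤ 8 * x * inc (dyadic (R - 1)) a N := by
  have h1 : (N : ℝ) ≤ 8 * x * (inc (dyadic (R - 1)) a N : ℝ) := by
    have hR' : (0 : ℝ) < R := by positivity
    have h2 : ((dyadic (R - 1)).card : ℝ) * ((N : ℝ) / (4 * R)) ≤ (inc (dyadic (R - 1)) a N : ℝ) := by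
      unfold inc
      push_cast
      rw [← nsmul_eq_mul, ← Finset.sum_const]
      refine Finset.sum_le_sum fun p hp => ?_
      obtain ⟨h3, h4, h5⟩ := mem_dyadic (by omega) hp
      refine le_trans ?_ (class_card_int N (a p) p (by omega))
      have h6 : (p : ℝ) ≤ 2 * R := by
        have : p ≤ 2 * R := by omega
        exact_mod_cast this
      have hp0 : (0 : ℝ) < p := by
        have : 0 < p := by omega
        exact_mod_cast this
      have h7 : (N : ℝ) / (2 * R) ≤ (N : ℝ) / p := by gcongr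
      have h8 : (1 : ℝ) ≤ (N : ℝ) / (4 * R) := by
        rw [le_div_iff₀ (by positivity), one_mul]
        exact_mod_cast hN
      have h9 : (N : ℝ) / (2 * R) = 2 * ((N : ℝ) / (4 * R)) := by field_simp; norm_num
      linarith
    have h3 : (R : ℝ) ≤ 2 * (x * (dyadic (R - 1)).card) := by
      have : R ≤ 2 * (x * (dyadic (R - 1)).card) := by omega
      exact_mod_cast this
    calc (N : ℝ) = R * (4 * ((N : ℝ) / (4 * R))) := by field_simp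
      _ ≤ 2 * (x * (dyadic (R - 1)).card) * (4 * ((N : ℝ) / (4 * R))) :=
          mul_le_mul_of_nonneg_right h3 (by positivity)
      _ = 8 * x * (((dyadic (R - 1)).card : ℝ) * ((N : ℝ) / (4 * R))) := by ring
      _ ≤ _ := mul_le_mul_of_nonneg_left h2 (by positivity)
  exact_mod_cast h1

end Pool.Agent.Helper73.RK
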