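import Mathlib
import Pool.Agent.Helper73.RK.Main

/-!
# The main theorem in integers, for general exponents
-/

namespace Pool.Agent.Helper73.RK

open Finset

/-- powers of `x` absorb the constants -/
lemma absorb {x c m n : ℕ} (hx : 1 < x) (hc : c ≤ x) (h : m + 1 ≤ n) : c * x ^ m ≤ x ^ n := by
  calc c * x ^ m ≤ x * x ^ m := Nat.mul_le_mul_right _ hc
    _ = x ^ (m + 1) := by rw [pow_succ]; ring
    _ ≤ x ^ n := Nat.pow_le_pow_right (by omega) h

lemma absorb_lt {x c m n : ℕ} (hx : 1 < x) (hc : c < x) (h : m + 1 ≤ n) : c * x ^ m < x ^ n := by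
  calc c * x ^ m < x * x ^ m := Nat.mul_lt_mul_of_pos_right hc (Nat.pow_pos (by omega))
    _ = x ^ (m + 1) := by rw [pow_succ]; ring
    _ ≤ x ^ n := Nat.pow_le_pow_right (by omega) h

/-- the constants absorbed into one factor `x` -/
def cmin (k : ℕ) : ℕ :=
  (6 * k + 1) ^ 3 * 4 ^ (6 * k) * 2 ^ (3 * k) + 4 * 5 ^ (4 * k + 1) +
    ((3 * k - 1) * (3 * k - 1) + (2 * (3 * k - 1) + 1)) + 10 * (k + 1) + 100

lemma cmin_ge1 (k : ℕ) : (6 * k + 1) ^ 3 * 4 ^ (6 * k) * 2 ^ (3 * k) ≤ cmin k := by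
  unfold cmin
  exact (((Nat.le_add_right _ _).trans (Nat.le_add_right _ _)).trans
    (Nat.le_add_right _ _)).trans (Nat.le_add_right _ _)

lemma cmin_ge2 (k : ℕ) : 4 * 5 ^ (4 * k + 1) ≤ cmin k := by
  unfold cmin
  exact (((Nat.le_add_left _ _).trans (Nat.le_add_right _ _)).trans
    (Nat.le_add_right _ _)).trans (Nat.le_add_right _ _)

lemma cmin_ge3 (k : ℕ) : (3 * k - 1) * (3 * k - 1) + (2 * (3 * k - 1) + 1) ≤ cmin k := by
  unfold cmin
  exact ((Nat.le_add_left _ _).trans (Nat.le_add_right _ _)).trans (Nat.le_add_right _ _)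

lemma cmin_ge4 (k : ℕ) : 10 * (k + 1) + 100 ≤ cmin k := by
  unfold cmin
  rw [add_assoc]
  exact Nat.le_add_left _ _

lemma num_aux_gen {k n l b x N : ℕ} (hx : cmin k ≤ x) (h : 3 * n + 4 + 5 * (k * l) < k * b)
    (hN2 : N ≤ x ^ (n + 1)) :
    (6 * k + 1) ^ 3 * N ^ 3 * (4 * x ^ l) ^ (6 * k) * (2 * (x ^ l * x ^ b)) ^ (3 * k) <
      (x ^ l * x ^ b) ^ (4 * k) := by
  have hx0 : 1 < x := by have := (cmin_ge4 k).trans hx; omega
  have e1 : x ^ l * x ^ b = x ^ (l + b) := by rw [← pow_add]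
  rw [e1]
  have h1 : (6 * k + 1) ^ 3 * N ^ 3 * (4 * x ^ l) ^ (6 * k) * (2 * x ^ (l + b)) ^ (3 * k) =
      ((6 * k + 1) ^ 3 * 4 ^ (6 * k) * 2 ^ (3 * k)) *
        (N ^ 3 * (x ^ l) ^ (6 * k) * (x ^ (l + b)) ^ (3 * k)) := by
    rw [mul_pow 4, mul_pow 2]
    ring
  rw [h1]
  calc ((6 * k + 1) ^ 3 * 4 ^ (6 * k) * 2 ^ (3 * k)) *
        (N ^ 3 * (x ^ l) ^ (6 * k) * (x ^ (l + b)) ^ (3 * k))
      ≤ x * ((x ^ (n + 1)) ^ 3 * (x ^ l) ^ (6 * k) * (x ^ (l + b)) ^ (3 * k)) :=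
        Nat.mul_le_mul ((cmin_ge1 k).trans hx)
          (Nat.mul_le_mul_right _ (Nat.mul_le_mul_right _ (Nat.pow_le_pow_left hN2 3)))
    _ = x ^ (1 + ((n + 1) * 3 + l * (6 * k) + (l + b) * (3 * k))) := by
        rw [← pow_mul, ← pow_mul, ← pow_mul, pow_add x 1, pow_one, pow_add x, pow_add x]
    _ < x ^ ((l + b) * (4 * k)) := by
        refine Nat.pow_lt_pow_right hx0 ?_
        nlinarith
    _ = _ := by rw [← pow_mul]

/-- the lower bound for the number of good pairs -/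
lemma GG_lower_gen {k n r s g x N R : ℕ} {a : ℕ → ℤ} (hx : cmin k ≤ x)
    (hrn : r + 3 ≤ n) (hnr : n + 1 ≤ 2 * r) (hs : s + g + 5 ≤ 2 * n) (hg : n + 2 ≤ g)
    (hN1 : x ^ n ≤ N) (hN2 : N ≤ x ^ (n + 1))
    (hR1 : x ^ r ≤ R) (hR2 : R ≤ x ^ (r + 2))
    (hc : R - 1 ≤ x * (dyadic (R - 1)).card)
    (hS : ((Icc (1 : ℤ) N).filter (fun n => (AA (dyadic (R - 1)) a n).Nonempty)).card ≤ x ^ s) :
    x ^ g ≤ (GG (dyadic (R - 1)) a N (x ^ (2 * r - n + 7))).card := by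
  have hx100 : 100 ≤ x := by have := (cmin_ge4 k).trans hx; omega
  have hx0 : 1 < x := by omega
  have hRbig : x ≤ R := by
    calc x = x ^ 1 := (pow_one x).symm
      _ ≤ x ^ r := Nat.pow_le_pow_right (by omega) (by omega)
      _ ≤ R := hR1
  have h4RN : 4 * R ≤ N := by
    calc 4 * R ≤ 4 * x ^ (r + 2) := Nat.mul_le_mul_left _ hR2
      _ ≤ x ^ n := absorb hx0 (by omega) (by omega)
      _ ≤ N := hN1
  have hNR : N ≤ R * R := by
    calc N ≤ x ^ (n + 1) := hN2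
      _ ≤ x ^ (r + r) := Nat.pow_le_pow_right (by omega) (by omega)
      _ = x ^ r * x ^ r := pow_add _ _ _
      _ ≤ R * R := Nat.mul_le_mul hR1 hR1
  have hP : ∀ p ∈ dyadic (R - 1), p.Prime ∧ R ≤ p := by
    intro p hp
    obtain ⟨h1, h2, -⟩ := mem_dyadic (by omega) hp
    exact ⟨h1, by omega⟩
  have hPc : (dyadic (R - 1)).card ≤ R := (dyadic_card_le _).trans (by omega)
  have hincU : inc (dyadic (R - 1)) a N ≤ N + R :=
    inc_upper (by omega) (fun p hp => (hP p hp).2) hPc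
  have hincL := inc_lower (a := a) (by omega) h4RN hc
  set I := inc (dyadic (R - 1)) a N with hI
  have hI1 : x ^ (n - 2) ≤ I := by
    have h1 : x ^ (n - 2) * (8 * x) ≤ I * (8 * x) := by
      calc x ^ (n - 2) * (8 * x) = 8 * x ^ (n - 2 + 1) := by rw [pow_succ]; ring
        _ ≤ x ^ n := absorb hx0 (by omega) (by omega)
        _ ≤ N := hN1
        _ ≤ 8 * x * I := hincL
        _ = I * (8 * x) := by ring
    exact Nat.le_of_mul_le_mul_right h1 (by omega)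
  have hI2 : I ≤ x ^ (n + 2) := by
    calc I ≤ N + R := hincU
      _ ≤ 2 * x ^ (n + 1) := by omega
      _ ≤ _ := absorb hx0 (by omega) (by omega)
  have hΛ : 2 * (I + (dyadic (R - 1)).card ^ 2) ≤ x ^ (2 * r - n + 7) * I := by
    have h1 : (dyadic (R - 1)).card ^ 2 ≤ x ^ (2 * r + 4) := by
      calc (dyadic (R - 1)).card ^ 2 ≤ (x ^ (r + 2)) ^ 2 :=
            Nat.pow_le_pow_left (hPc.trans hR2) 2
        _ = x ^ (2 * r + 4) := by rw [← pow_mul]; congr 1; ring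
    have h2 : I ≤ x ^ (2 * r + 4) := hI2.trans (Nat.pow_le_pow_right (by omega) (by omega))
    have h3 : x ^ (2 * r + 5) ≤ x ^ (2 * r - n + 7) * I := by
      calc x ^ (2 * r + 5) = x ^ (2 * r - n + 7) * x ^ (n - 2) := by
            rw [← pow_add]; congr 1; omega
        _ ≤ _ := Nat.mul_le_mul_left _ hI1
    have h4 : 4 * x ^ (2 * r + 4) ≤ x ^ (2 * r + 5) := absorb hx0 (by omega) (by omega)
    omega
  have hmain := GG_large (a := a) (Λ := x ^ (2 * r - n + 7)) hP hNR hΛ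
  by_contra hcon
  push Not at hcon
  have h1 : (GG (dyadic (R - 1)) a N (x ^ (2 * r - n + 7))).card + I ≤ 2 * x ^ g := by
    have : I ≤ x ^ g := hI2.trans (Nat.pow_le_pow_right (by omega) (by omega))
    omega
  have h2 : I ^ 2 ≤ 8 * x ^ (s + g) := by
    calc I ^ 2 ≤ 4 * (((Icc (1 : ℤ) N).filter (fun n => (AA (dyadic (R - 1)) a n).Nonempty)).card *
          ((GG (dyadic (R - 1)) a N (x ^ (2 * r - n + 7))).card + I)) := hmain
      _ ≤ 4 * (x ^ s * (2 * x ^ g)) :=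
          Nat.mul_le_mul_left _ (Nat.mul_le_mul hS h1)
      _ = 8 * x ^ (s + g) := by rw [pow_add]; ring
  have h3 : x ^ (2 * n - 4) ≤ I ^ 2 := by
    calc x ^ (2 * n - 4) = (x ^ (n - 2)) ^ 2 := by rw [← pow_mul]; congr 1; omega
      _ ≤ _ := Nat.pow_le_pow_left hI1 2
  have h4 : 8 * x ^ (s + g) < x ^ (2 * n - 4) := absorb_lt hx0 (by omega) (by omega)
  omega

lemma num_W_gen {k e c D l b x : ℕ} (hx : cmin k ≤ x) (hk : 1 ≤ k)
    (hb : 1 ≤ b) (hlb : l ≤ b)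
    (hl : (D + 16) * (4 * k + 1) + 2 ≤ l)
    (hc : c + (D + 16) * (4 * k + 1) ≤ b + l) (he : e = b + 2 * l - D - 14) :
    2 * (((3 * k - 1) * (3 * k - 1) + (2 * (3 * k - 1) + 1) +
      (3 * k - 1) * (x ^ b * (2 * x)) + 5 * x ^ l * x + x ^ c + x ^ b) *
      (5 * x ^ l) ^ (4 * k + 1)) <
      x ^ e * (x ^ (l - D - 15) - 4 * k) ^ (4 * k) := by
  have hx9 := (cmin_ge4 k).trans hx
  have hx0 : 1 < x := by omega
  have hDl : D + 18 ≤ l := by
    have : (D + 16) * 1 ≤ (D + 16) * (4 * k + 1) := Nat.mul_le_mul_left _ (by omega)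
    omega
  obtain ⟨W, hW1, hW2, hW3⟩ : ∃ W, b + 2 ≤ W ∧ c ≤ W ∧ W + (D + 16) * (4 * k + 1) ≤ b + l :=
    ⟨max (b + 2) c, le_max_left _ _, le_max_right _ _, by
      rcases le_total (b + 2) c with h | h
      · rw [max_eq_right h]; exact hc
      · rw [max_eq_left h]; omega⟩
  have hW : (3 * k - 1) * (3 * k - 1) + (2 * (3 * k - 1) + 1) +
      (3 * k - 1) * (x ^ b * (2 * x)) + 5 * x ^ l * x + x ^ c + x ^ b ≤
      x ^ (W + 1) := by
    have h1 : (3 * k - 1) * (3 * k - 1) + (2 * (3 * k - 1) + 1) ≤ x ^ W := by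
      calc (3 * k - 1) * (3 * k - 1) + (2 * (3 * k - 1) + 1) ≤ x ^ 1 := by
            rw [pow_one]; exact (cmin_ge3 k).trans hx
        _ ≤ _ := Nat.pow_le_pow_right (by omega) (by omega)
    have h2 : (3 * k - 1) * (x ^ b * (2 * x)) ≤ x ^ W := by
      calc (3 * k - 1) * (x ^ b * (2 * x)) = ((3 * k - 1) * 2) * x ^ (b + 1) := by
            rw [pow_succ]; ring
        _ ≤ _ := absorb hx0 (by omega) (by omega)
    have h3 : 5 * x ^ l * x ≤ x ^ W := by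
      calc 5 * x ^ l * x = 5 * x ^ (l + 1) := by rw [pow_succ]; ring
        _ ≤ _ := absorb hx0 (by omega) (by omega)
    have h4 : x ^ c ≤ x ^ W := Nat.pow_le_pow_right (by omega) (by omega)
    have h5 : x ^ b ≤ x ^ W := Nat.pow_le_pow_right (by omega) (by omega)
    have h6 : 5 * x ^ W ≤ x ^ (W + 1) := absorb hx0 (by omega) (by omega)
    omega
  have hK : x ^ (l - D - 16) ≤ x ^ (l - D - 15) - 4 * k := by
    have h1 : (4 * k + 4) * x ^ (l - D - 16) ≤ x ^ (l - D - 15) :=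
      absorb hx0 (by omega) (by omega)
    have h2 : 1 ≤ x ^ (l - D - 16) := Nat.one_le_pow _ _ (by omega)
    have h3 : 4 * k + x ^ (l - D - 16) ≤ (4 * k + 4) * x ^ (l - D - 16) := by nlinarith
    omega
  calc 2 * (((3 * k - 1) * (3 * k - 1) + (2 * (3 * k - 1) + 1) +
      (3 * k - 1) * (x ^ b * (2 * x)) + 5 * x ^ l * x + x ^ c + x ^ b) *
      (5 * x ^ l) ^ (4 * k + 1))
      ≤ 2 * (x ^ (W + 1) * (5 * x ^ l) ^ (4 * k + 1)) :=
        Nat.mul_le_mul_left _ (Nat.mul_le_mul_right _ hW)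
    _ = (2 * 5 ^ (4 * k + 1)) * x ^ (W + 1 + l * (4 * k + 1)) := by
        rw [mul_pow 5, ← pow_mul, pow_add x (W + 1)]
        ring
    _ < x ^ (e + (l - D - 16) * (4 * k)) := by
        refine absorb_lt hx0 ?_ ?_
        · have h1 := (cmin_ge2 k).trans hx
          have h2 : 0 < 5 ^ (4 * k + 1) := Nat.pow_pos (by norm_num)
          omega
        · obtain ⟨m, rfl⟩ : ∃ m, l = m + (D + 16) := ⟨l - (D + 16), by omega⟩
          have h1 : m + (D + 16) - D - 16 = m := by omega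
          rw [h1]
          have h2 : (m + (D + 16)) * (4 * k + 1) = m * (4 * k) + (D + 16) * (4 * k + 1) + m := by
            ring
          rw [h2]
          omega
    _ = x ^ e * (x ^ (l - D - 16)) ^ (4 * k) := by
        rw [pow_add, ← pow_mul]
    _ ≤ _ := Nat.mul_le_mul_left _ (Nat.pow_le_pow_left hK _)

/-- **The main theorem in integers.** -/
theorem main_gen (n r l b k D : ℕ) (hk : 1 ≤ k) (hrn : r + 3 ≤ n) (hlb : l ≤ b)
    (hsize : n + b + l + 2 ≤ 2 * r) (hvar : 2 * b + 2 * l + D + 11 ≤ r)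
    (haux : 3 * n + 4 + 5 * (k * l) < k * b)
    (hl : (D + 16) * (4 * k + 1) + 2 ≤ l)
    (hc : 2 * r + 10 + (D + 16) * (4 * k + 1) ≤ n + 2 * b + l)
    (hnD : n + 7 + D ≤ 2 * r) :
    ∃ X₀ : ℕ, ∀ x : ℕ, X₀ ≤ x → ∀ N R : ℕ, ∀ a : ℕ → ℤ,
      x ^ n ≤ N → N ≤ x ^ (n + 1) → x ^ r ≤ R → R ≤ x ^ (r + 2) →
      x ^ (2 * n - 2 * r + D) <
        ((Icc (1 : ℤ) N).filter (fun n => (AA (dyadic (R - 1)) a n).Nonempty)).card := by
  obtain ⟨κ, x₁, hHD⟩ := HD_le (3 * k - 1) (n + 1)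
  obtain ⟨x₂, hdiv⟩ := card_divisors_le κ
  obtain ⟨x₃, hdy⟩ := le_mul_card_dyadic n
  refine ⟨max (cmin k) (max x₁ (max x₂ x₃)), fun x hX N R a hN1 hN2 hR1 hR2 => ?_⟩
  have hx : cmin k ≤ x := (le_max_left _ _).trans hX
  have hx1 : x₁ ≤ x := ((le_max_left _ _).trans (le_max_right _ _)).trans hX
  have hx2 : x₂ ≤ x :=
    (((le_max_left _ _).trans (le_max_right _ _)).trans (le_max_right _ _)).trans hX
  have hx3 : x₃ ≤ x :=
    (((le_max_right _ _).trans (le_max_right _ _)).trans (le_max_right _ _)).trans hX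
  by_contra hS
  push Not at hS
  have hx9 := (cmin_ge4 k).trans hx
  have hx0 : 1 < x := by omega
  have hDl : 5 * (D + 16) + 2 ≤ l := by
    have : (D + 16) * 5 ≤ (D + 16) * (4 * k + 1) := Nat.mul_le_mul_left _ (by omega)
    omega
  have hRbig : x * x ≤ R := by
    calc x * x = x ^ 2 := (sq x).symm
      _ ≤ x ^ r := Nat.pow_le_pow_right (by omega) (by omega)
      _ ≤ R := hR1
  have hxx : 3 * x ≤ x * x := Nat.mul_le_mul_right _ (by omega)
  have hdyR : R - 1 ≤ x * (dyadic (R - 1)).card := by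
    refine hdy x hx3 (R - 1) (by omega) ?_
    calc R - 1 ≤ R := Nat.sub_le _ _
      _ ≤ x ^ (r + 2) := hR2
      _ ≤ _ := Nat.pow_le_pow_right (by omega) (by omega)
  have hGG := GG_lower_gen (g := 2 * r - D - 5) hx hrn (by omega) (by omega) (by omega)
    hN1 hN2 hR1 hR2 hdyR hS
  have eLB : x ^ l * x ^ b = x ^ (l + b) := by rw [← pow_add]
  have hxl : x ≤ x ^ l := by
    calc x = x ^ 1 := (pow_one x).symm
      _ ≤ _ := Nat.pow_le_pow_right (by omega) (by omega)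
  have hxB : x ≤ x ^ b := by
    calc x = x ^ 1 := (pow_one x).symm
      _ ≤ _ := Nat.pow_le_pow_right (by omega) (by omega)
  have hdyD : x ^ l * x ^ b ≤ x * (dyadic (x ^ l * x ^ b)).card := by
    refine hdy x hx3 _ ?_ ?_
    · exact hxl.trans (Nat.le_mul_of_pos_right _ (Nat.pow_pos (by omega)))
    · rw [eLB]; exact Nat.pow_le_pow_right (by omega) (by omega)
  have hDc := dyadic_card_le (x ^ l * x ^ b)
  have hLB2 : 2 ≤ x ^ l * x ^ b := by
    rw [eLB]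
    calc 2 ≤ x ^ 1 := by rw [pow_one]; omega
      _ ≤ _ := Nat.pow_le_pow_right (by omega) (by omega)
  refine core k (x ^ l) (x ^ b) R N (x ^ (2 * r - n + 7)) (x ^ (2 * r - n + 10 - b)) (x ^ (b - 2))
    (x ^ (D + 10)) (x ^ (l - D - 15)) (x ^ (b + 2 * l - D - 14)) (x ^ (r + 3 - l)) x
    (dyadic (R - 1)) (dyadic (x ^ l * x ^ b)) a hk (by omega) (by omega) ?_ ?_ ?_ ?_ ?_ ?_
    (num_aux_gen hx haux hN2) ?_ ?_ ?_ ?_ ?_ ?_ ?_ ?_ ?_ ?_
    (num_W_gen hx hk (by omega) hlb hl (by omega) rfl) ?_ ?_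
  · intro p hp
    obtain ⟨h1, h2, h3⟩ := mem_dyadic (by omega) hp
    exact ⟨h1, by omega, by omega⟩
  · intro d hd
    obtain ⟨h1, h2, h3⟩ := mem_dyadic hLB2 hd
    exact ⟨h1, h2.le, h3⟩
  · calc R ≤ x ^ (r + 2) := hR2
      _ ≤ x ^ n := Nat.pow_le_pow_right (by omega) (by omega)
      _ ≤ N := hN1
  · calc N ≤ x ^ (n + 1) := hN2
      _ ≤ x ^ (r + r) := Nat.pow_le_pow_right (by omega) (by omega)
      _ = x ^ r * x ^ r := pow_add _ _ _
      _ ≤ R * R := Nat.mul_le_mul hR1 hR1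
  · have h1 : N * (4 * x ^ b + 2) * (4 * x ^ l) ≤ x ^ (n + 1) * (5 * x ^ b) * (4 * x ^ l) := by
      refine Nat.mul_le_mul_right _ (Nat.mul_le_mul hN2 ?_)
      omega
    calc N * (4 * x ^ b + 2) * (4 * x ^ l)
        ≤ x ^ (n + 1) * (5 * x ^ b) * (4 * x ^ l) := h1
      _ = 20 * x ^ (n + 1 + b + l) := by rw [pow_add, pow_add]; ring
      _ ≤ x ^ (r + r) := absorb hx0 (by omega) (by omega)
      _ = x ^ r * x ^ r := pow_add _ _ _
      _ ≤ R * R := Nat.mul_le_mul hR1 hR1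
  · rw [eLB]
    calc 2 * x ^ (l + b) * (2 * x ^ (l + b)) = 4 * x ^ (l + b + (l + b)) := by
          rw [pow_add x (l + b)]; ring
      _ ≤ x ^ r := absorb hx0 (by omega) (by omega)
      _ ≤ R := hR1
  · calc 4 * x ^ (b - 2) * (x ^ l * x ^ b)
        ≤ 4 * x ^ (b - 2) * (x * (dyadic (x ^ l * x ^ b)).card) :=
          Nat.mul_le_mul_left _ hdyD
      _ = (4 * x ^ (b - 2 + 1)) * (dyadic (x ^ l * x ^ b)).card := by
          rw [pow_succ]; ring
      _ ≤ _ := Nat.mul_le_mul_right _ (absorb hx0 (by omega) (by omega))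
  · exact Nat.pow_le_pow_right (by omega) (by omega)
  · exact Nat.one_le_pow _ _ (by omega)
  · rw [eLB]
    calc 16 * (x ^ (l + b) * x ^ (l + b)) * x ^ (D + 10) = 16 * x ^ (l + b + (l + b) + (D + 10)) := by
          rw [pow_add x (l + b + (l + b)), pow_add x (l + b)]; ring
      _ ≤ x ^ r := absorb hx0 (by omega) (by omega)
      _ ≤ R := hR1
  · calc 4 * x ^ (2 * r - n + 7) ≤ x ^ (2 * r - n + 10 - b + (b - 2)) :=
        absorb hx0 (by omega) (by omega)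
      _ = _ := pow_add _ _ _
  · exact Nat.one_le_pow _ _ (by omega)
  · calc 4 * R ≤ 4 * x ^ (r + 2) := Nat.mul_le_mul_left _ hR2
      _ < x ^ (l + (r + 3 - l)) := absorb_lt hx0 (by omega) (by omega)
      _ = _ := pow_add _ _ _
  · calc 4 * k < x ^ 1 := by rw [pow_one]; omega
      _ ≤ _ := Nat.pow_le_pow_right (by omega) (by omega)
  · rw [eLB]
    calc 10 * x ^ (l + b) * x ^ (l - D - 15) = 10 * x ^ (l + b + (l - D - 15)) := by
          rw [pow_add x (l + b)]; ring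
      _ ≤ _ := absorb hx0 (by omega) (by omega)
  · intro m hm0 hm
    exact hdiv x hx2 m hm0 (hm.trans (hHD x hx1 N hN2))
  · calc 8 * R ^ 2 ≤ 8 * (x ^ (r + 2)) ^ 2 := Nat.mul_le_mul_left _ (Nat.pow_le_pow_left hR2 2)
      _ = 8 * x ^ ((r + 2) * 2) := by rw [← pow_mul]
      _ ≤ x ^ (2 * r - D - 5 + (D + 10)) := absorb hx0 (by omega) (by omega)
      _ = x ^ (2 * r - D - 5) * x ^ (D + 10) := pow_add _ _ _
      _ ≤ _ := Nat.mul_le_mul_right _ hGG
  · calc 4 * ((x ^ (r + 3 - l)) ^ 2 * x ^ (b + 2 * l - D - 14))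
        = 4 * x ^ ((r + 3 - l) * 2 + (b + 2 * l - D - 14)) := by
          rw [← pow_mul, pow_add x ((r + 3 - l) * 2)]
      _ ≤ x ^ (2 * r - D - 5 + (b - 2)) := absorb hx0 (by omega) (by omega)
      _ = x ^ (2 * r - D - 5) * x ^ (b - 2) := pow_add _ _ _
      _ ≤ _ := Nat.mul_le_mul_right _ hGG

end Pool.Agent.Helper73.RK
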