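import Mathlib
import Pool.Prelude.Def_F_b2ee6af0
import Pool.Agent.Helper73.RK.MainGen

/-!
# The main theorem for real exponents
-/

namespace Pool.Agent.Helper73.RK

open Finset Filter Topology

lemma sub_sieved {N R : ℕ} {a : ℕ → ℤ} {y : ℝ} (hR : R = ⌈y⌉₊) (hR3 : 3 ≤ R) :
    (((Icc (1 : ℤ) N).filter (fun n => (AA (dyadic (R - 1)) a n).Nonempty)).card : ℝ) ≤
      (N7c497599.sievedCard N a y (2 * y) : ℝ) := by
  classical
  have h1 : (Icc (1 : ℤ) N).filter (fun n => (AA (dyadic (R - 1)) a n).Nonempty) ⊆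
      N7c497599.sievedSet N a y (2 * y) := by
    intro n hn
    obtain ⟨hn1, p, hp⟩ := Finset.mem_filter.1 hn
    obtain ⟨hp1, hp2⟩ := Finset.mem_filter.1 hp
    obtain ⟨h2, h3, h4⟩ := mem_dyadic (by omega) hp1
    have h5 : y ≤ R := by rw [hR]; exact Nat.le_ceil y
    have h6 : (R : ℝ) - 1 < y := by
      have h7 : R - 1 < ⌈y⌉₊ := by omega
      have h8 := Nat.lt_ceil.1 h7
      have h9 : ((R - 1 : ℕ) : ℝ) = R - 1 := by
        rw [Nat.cast_sub (by omega), Nat.cast_one]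
      rwa [h9] at h8
    unfold N7c497599.sievedSet
    refine Finset.mem_filter.2 ⟨hn1, p, h2, ?_, ?_, hp2⟩
    · have : R ≤ p := by omega
      have : (R : ℝ) ≤ p := by exact_mod_cast this
      linarith
    · have h7 : p + 2 < 2 * R := by omega
      have h8 : (p : ℝ) + 2 < 2 * R := by exact_mod_cast h7
      linarith
  unfold N7c497599.sievedCard
  exact_mod_cast Finset.card_le_card h1

theorem transfer (α σ : ℝ) (n r s : ℕ) (hn : 1 ≤ n) (hr0 : 1 ≤ r) (hr1 : (r : ℝ) ≤ n * α)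
    (hr2 : n * α ≤ r + 1) (hα0 : 0 < α) (hα : α < 1) (hσ0 : 0 ≤ σ) (hσ : (n + 1) * σ ≤ s)
    (hmain : ∃ X₀ : ℕ, ∀ x : ℕ, X₀ ≤ x → ∀ N R : ℕ, ∀ a : ℕ → ℤ,
      x ^ n ≤ N → N ≤ x ^ (n + 1) → x ^ r ≤ R → R ≤ x ^ (r + 2) →
      x ^ s < ((Icc (1 : ℤ) N).filter (fun n => (AA (dyadic (R - 1)) a n).Nonempty)).card) :
    ∀ᶠ N : ℕ in atTop, ∀ a : ℕ → ℤ,
      (N : ℝ) ^ σ ≤ (N7c497599.sievedCard N a ((N : ℝ) ^ α) (2 * (N : ℝ) ^ α) : ℝ) := by
  obtain ⟨X₀, hX₀⟩ := hmain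
  have hnR : (0 : ℝ) < n := by exact_mod_cast hn
  -- the integer `x`
  have t1 : Tendsto (fun N : ℕ => (N : ℝ) ^ ((n : ℝ)⁻¹)) atTop atTop :=
    (tendsto_rpow_atTop (inv_pos.2 hnR)).comp tendsto_natCast_atTop_atTop
  have t2 : Tendsto (fun N : ℕ => ⌊(N : ℝ) ^ ((n : ℝ)⁻¹)⌋₊) atTop atTop :=
    tendsto_nat_floor_atTop.comp t1
  have t3 : Tendsto (fun x : ℕ => (x : ℝ) ^ (1 - α)) atTop atTop :=
    (tendsto_rpow_atTop (by linarith)).comp tendsto_natCast_atTop_atTop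
  have t4 : ∀ᶠ x : ℕ in atTop, (2 : ℝ) ≤ (x : ℝ) ^ (1 - α) := t3.eventually_ge_atTop 2
  have t5 : ∀ᶠ x : ℕ in atTop, X₀ ≤ x ∧ 2 ^ n ≤ x ∧ 4 ≤ x ∧ (2 : ℝ) ≤ (x : ℝ) ^ (1 - α) :=
    (eventually_ge_atTop X₀).and ((eventually_ge_atTop _).and ((eventually_ge_atTop _).and t4))
  filter_upwards [t2.eventually t5, eventually_ge_atTop 1] with N hN hN1 a
  set y : ℝ := (N : ℝ) ^ ((n : ℝ)⁻¹) with hy
  set x : ℕ := ⌊y⌋₊ with hx
  obtain ⟨hx0, hx2, hx4, hxα⟩ := hN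
  have hNpos : (0 : ℝ) < N := by exact_mod_cast hN1
  have hy0 : 0 ≤ y := Real.rpow_nonneg hNpos.le _
  have hyn : y ^ n = N := by
    rw [hy, ← Real.rpow_natCast, ← Real.rpow_mul hNpos.le, inv_mul_cancel₀ hnR.ne', Real.rpow_one]
  have hxy : (x : ℝ) ≤ y := Nat.floor_le hy0
  have hyx : y < x + 1 := Nat.lt_floor_add_one y
  have hxR : (4 : ℝ) ≤ x := by exact_mod_cast hx4
  have hNlow : x ^ n ≤ N := by
    have : (x : ℝ) ^ n ≤ N := by
      rw [← hyn]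
      exact pow_le_pow_left₀ (by linarith) hxy n
    exact_mod_cast this
  have hNup : N ≤ x ^ (n + 1) := by
    have h1 : (N : ℝ) ≤ (x : ℝ) ^ (n + 1) := by
      rw [← hyn]
      calc y ^ n ≤ (2 * x) ^ n := pow_le_pow_left₀ hy0 (by linarith) n
        _ = 2 ^ n * (x : ℝ) ^ n := mul_pow _ _ _
        _ ≤ x * (x : ℝ) ^ n := by
            refine mul_le_mul_of_nonneg_right ?_ (by positivity)
            exact_mod_cast hx2
        _ = (x : ℝ) ^ (n + 1) := by rw [pow_succ]; ring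
    exact_mod_cast h1
  have hx0' : (0 : ℝ) < x := by linarith
  have hx1' : (1 : ℝ) ≤ x := by linarith
  have hNupR : (N : ℝ) ≤ (x : ℝ) ^ ((n : ℝ) + 1) := by
    have : (N : ℝ) ≤ (x : ℝ) ^ (n + 1) := by exact_mod_cast hNup
    rwa [← Real.rpow_natCast, Nat.cast_add, Nat.cast_one] at this
  have hNlowR : (x : ℝ) ^ (n : ℝ) ≤ N := by
    rw [Real.rpow_natCast]; exact_mod_cast hNlow
  -- the integer `R`
  set R : ℕ := ⌈(N : ℝ) ^ α⌉₊ with hR
  have hNα1 : (x : ℝ) ^ (r : ℝ) ≤ (N : ℝ) ^ α := by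
    calc (x : ℝ) ^ (r : ℝ) ≤ (x : ℝ) ^ ((n : ℝ) * α) := Real.rpow_le_rpow_of_exponent_le hx1' hr1
      _ = ((x : ℝ) ^ (n : ℝ)) ^ α := Real.rpow_mul hx0'.le _ _
      _ ≤ (N : ℝ) ^ α := Real.rpow_le_rpow (by positivity) hNlowR hα0.le
  have hNα2 : 2 * (N : ℝ) ^ α ≤ (x : ℝ) ^ ((r : ℝ) + 2) := by
    calc 2 * (N : ℝ) ^ α ≤ (x : ℝ) ^ (1 - α) * ((x : ℝ) ^ ((n : ℝ) + 1)) ^ α :=
          mul_le_mul hxα (Real.rpow_le_rpow hNpos.le hNupR hα0.le) (by positivity) (by positivity)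
      _ = (x : ℝ) ^ ((1 - α) + ((n : ℝ) + 1) * α) := by
          rw [← Real.rpow_mul hx0'.le, ← Real.rpow_add hx0']
      _ ≤ (x : ℝ) ^ ((r : ℝ) + 2) := by
          refine Real.rpow_le_rpow_of_exponent_le hx1' ?_
          linarith
  have hRlow : x ^ r ≤ R := by
    have h1 : (x : ℝ) ^ r ≤ (R : ℝ) := by
      rw [← Real.rpow_natCast]
      exact hNα1.trans (Nat.le_ceil _)
    exact_mod_cast h1
  have hR4 : 4 ≤ R := by
    calc 4 ≤ x := hx4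
      _ = x ^ 1 := (pow_one x).symm
      _ ≤ x ^ r := Nat.pow_le_pow_right (by omega) hr0
      _ ≤ R := hRlow
  have hRup : R ≤ x ^ (r + 2) := by
    have h1 : (R : ℝ) < (N : ℝ) ^ α + 1 := Nat.ceil_lt_add_one (by positivity)
    have h2 : (1 : ℝ) ≤ (N : ℝ) ^ α := Real.one_le_rpow (by exact_mod_cast hN1) hα0.le
    have h3 : (R : ℝ) ≤ (x : ℝ) ^ ((r : ℝ) + 2) := by linarith
    have h4 : (x : ℝ) ^ ((r : ℝ) + 2) = (x : ℝ) ^ (r + 2) := by
      rw [← Real.rpow_natCast, Nat.cast_add, Nat.cast_ofNat]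
    rw [h4] at h3
    exact_mod_cast h3
  have hmain := hX₀ x hx0 N R a hNlow hNup hRlow hRup
  have h1 : ((x ^ s : ℕ) : ℝ) ≤
      (((Icc (1 : ℤ) N).filter (fun n => (AA (dyadic (R - 1)) a n).Nonempty)).card : ℝ) := by
    exact_mod_cast hmain.le
  have h2 := h1.trans (sub_sieved (N := N) (a := a) hR (by omega))
  refine le_trans ?_ h2
  calc (N : ℝ) ^ σ ≤ ((x : ℝ) ^ ((n : ℝ) + 1)) ^ σ := Real.rpow_le_rpow hNpos.le hNupR hσ0
    _ = (x : ℝ) ^ (((n : ℝ) + 1) * σ) := (Real.rpow_mul hx0'.le _ _).symm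
    _ ≤ (x : ℝ) ^ (s : ℝ) := Real.rpow_le_rpow_of_exponent_le hx1' hσ
    _ = ((x ^ s : ℕ) : ℝ) := by rw [Real.rpow_natCast]; push_cast; rfl


lemma ev_ge {c : ℝ} (hc : 0 < c) (C : ℝ) : ∀ᶠ n : ℕ in atTop, C ≤ (n : ℝ) * c :=
  (tendsto_natCast_atTop_atTop.atTop_mul_const hc).eventually_ge_atTop C

/-- **Beyond Cauchy-Schwarz.** -/
theorem main_real (α : ℝ) (h1 : 1 / 2 < α) (h2 : α < 1) :
    ∀ᶠ N : ℕ in atTop, ∀ a : ℕ → ℤ,
      (N : ℝ) ^ (2 - 2 * α + (2 * α - 1) ^ 2 * (1 - α) / 400) ≤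
        (N7c497599.sievedCard N a ((N : ℝ) ^ α) (2 * (N : ℝ) ^ α) : ℝ) := by
  obtain ⟨ε, hε⟩ : ∃ ε, ε = 2 * α - 1 := ⟨_, rfl⟩
  obtain ⟨η, hη⟩ : ∃ η, η = 2 - 2 * α := ⟨_, rfl⟩
  have hε0 : 0 < ε := by linarith
  have hε1 : ε < 1 := by linarith
  have hη0 : 0 < η := by linarith
  have hη1 : η < 1 := by linarith
  have hηε : η = 1 - ε := by linarith
  have hαε : α = (1 + ε) / 2 := by linarith
  have hεη : 0 < ε * η := mul_pos hε0 hη0
  obtain ⟨δ, hδ⟩ : ∃ δ, δ = ε ^ 2 * η / 800 := ⟨_, rfl⟩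
  have hδ0 : 0 < δ := by rw [hδ]; positivity
  have hδ1 : δ < ε / 800 := by
    rw [hδ, div_lt_div_iff_of_pos_right (by norm_num)]
    nlinarith
  have hδ2 : δ < η / 800 := by
    rw [hδ, div_lt_div_iff_of_pos_right (by norm_num)]
    nlinarith
  obtain ⟨lam, hlam⟩ : ∃ lam, lam = ε * η / 20 := ⟨_, rfl⟩
  obtain ⟨bet, hbet⟩ : ∃ bet, bet = ε * (1 / 2 + 3 * η / 20) := ⟨_, rfl⟩
  have hlam0 : 0 < lam := by rw [hlam]; positivity
  have hbet0 : 0 < bet := by rw [hbet]; positivity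
  have hlb : lam ≤ bet := by rw [hlam, hbet]; nlinarith
  -- the degree parameter
  obtain ⟨k, hk1, hk2⟩ : ∃ k : ℕ, (15 / 2) / ε < k ∧ (k : ℝ) ≤ (15 / 2) / ε + 2 := by
    refine ⟨⌈(15 / 2) / ε⌉₊ + 1, ?_, ?_⟩
    · push_cast
      have := Nat.le_ceil ((15 / 2) / ε)
      linarith
    · push_cast
      have := Nat.ceil_lt_add_one (show 0 ≤ (15 / 2) / ε by positivity)
      linarith
  have hk3 : 15 / 2 < k * ε := by rwa [div_lt_iff₀ hε0] at hk1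
  have hk4 : k * ε ≤ 15 / 2 + 2 * ε := by
    have h := mul_le_mul_of_nonneg_right hk2 hε0.le
    have h' : ((15 / 2) / ε + 2) * ε = 15 / 2 + 2 * ε := by field_simp
    linarith
  have hk0 : 1 ≤ k := by
    rcases Nat.eq_zero_or_pos k with h | h
    · rw [h, Nat.cast_zero, zero_mul] at hk3; linarith
    · exact h
  have hkε : ε * (4 * k + 1) ≤ 39 := by nlinarith
  -- the positive slacks
  have s1 : 0 < 1 - α := by linarith
  have s2 : 0 < ε - bet - lam := by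
    rw [hbet, hlam]
    nlinarith
  have s3 : 0 < α - 2 * bet - 2 * lam - δ := by
    have h : α - 2 * bet - 2 * lam = η / 2 - 2 * (ε * η) / 5 := by
      rw [hbet, hlam, hαε, hηε]; ring
    rw [h]
    nlinarith
  have s4 : 0 < k * (bet - 5 * lam) - 3 := by
    have h : bet - 5 * lam = ε * (1 / 2 - η / 10) := by rw [hbet, hlam]; ring
    rw [h]
    have h' : k * (ε * (1 / 2 - η / 10)) = (k * ε) * (1 / 2 - η / 10) := by ring
    rw [h']
    nlinarith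
  have s5 : 0 < lam - δ * (4 * k + 1) := by
    have h : lam - δ * (4 * k + 1) = ε * η * (1 / 20 - ε * (4 * k + 1) / 800) := by
      rw [hlam, hδ]; ring
    rw [h]
    have h' : 0 < 1 / 20 - ε * (4 * k + 1) / 800 := by linarith
    positivity
  have s6 : 0 < 2 * bet + lam - ε - δ * (4 * k + 1) := by
    have h : 2 * bet + lam - ε = 7 * (ε * η) / 20 := by rw [hbet, hlam]; ring
    have h' : lam < 2 * bet + lam - ε := by rw [h, hlam]; linarith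
    linarith
  have s7 : 0 < ε - δ := by linarith
  have hev := ((ev_ge s1 3).and (ev_ge s2 4)).and (((ev_ge s3 (14 + δ)).and (ev_ge s4 (5 + k))).and
    (((ev_ge s5 ((δ + 18) * (4 * k + 1) + 3)).and
      (ev_ge s6 (13 + (δ + 18) * (4 * k + 1)))).and ((ev_ge s7 (11 + δ)).and
      (eventually_ge_atTop 4))))
  obtain ⟨n, ⟨e1, e2⟩, ⟨e3, e4⟩, ⟨e5, e6⟩, e7, e8⟩ := hev.exists
  have hn0 : (4 : ℝ) ≤ n := by exact_mod_cast e8
  obtain ⟨l, hl⟩ : ∃ l : ℕ, l = ⌊(n : ℝ) * lam⌋₊ := ⟨_, rfl⟩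
  obtain ⟨b, hb⟩ : ∃ b : ℕ, b = ⌊(n : ℝ) * bet⌋₊ := ⟨_, rfl⟩
  obtain ⟨r, hr⟩ : ∃ r : ℕ, r = ⌊(n : ℝ) * α⌋₊ := ⟨_, rfl⟩
  obtain ⟨D, hD⟩ : ∃ D : ℕ, D = ⌈(n + 1 : ℝ) * δ⌉₊ + 1 := ⟨_, rfl⟩
  have hα0 : 0 < α := by linarith
  have l1 : (l : ℝ) ≤ n * lam := by rw [hl]; exact Nat.floor_le (by positivity)
  have l2 : (n : ℝ) * lam < l + 1 := by rw [hl]; exact Nat.lt_floor_add_one _
  have b1 : (b : ℝ) ≤ n * bet := by rw [hb]; exact Nat.floor_le (by positivity)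
  have b2 : (n : ℝ) * bet < b + 1 := by rw [hb]; exact Nat.lt_floor_add_one _
  have r1 : (r : ℝ) ≤ n * α := by rw [hr]; exact Nat.floor_le (by positivity)
  have r2 : (n : ℝ) * α < r + 1 := by rw [hr]; exact Nat.lt_floor_add_one _
  have d1 : (n + 1 : ℝ) * δ + 1 ≤ D := by
    rw [hD]; push_cast
    have := Nat.le_ceil ((n + 1 : ℝ) * δ)
    linarith
  have d2 : (D : ℝ) ≤ (n + 1 : ℝ) * δ + 2 := by
    rw [hD]; push_cast
    have := Nat.ceil_lt_add_one (show 0 ≤ (n + 1 : ℝ) * δ by positivity)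
    linarith
  have hkR : (1 : ℝ) ≤ k := by exact_mod_cast hk0
  have dk : ((D : ℝ) + 16) * (4 * k + 1) ≤ ((n + 1 : ℝ) * δ + 18) * (4 * k + 1) :=
    mul_le_mul_of_nonneg_right (by linarith) (by positivity)
  have f1 : r + 3 ≤ n := by
    have : (r : ℝ) + 3 ≤ n := by linarith
    exact_mod_cast this
  have f2 : l ≤ b := by
    rw [hl, hb]
    exact Nat.floor_le_floor (mul_le_mul_of_nonneg_left hlb (by positivity))
  have f3 : n + b + l + 2 ≤ 2 * r := by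
    have : (n : ℝ) + b + l + 2 ≤ 2 * r := by
      have : (n : ℝ) * ε = 2 * (n * α) - n := by rw [hε]; ring
      linarith
    exact_mod_cast this
  have f4 : 2 * b + 2 * l + D + 11 ≤ r := by
    have : 2 * (b : ℝ) + 2 * l + D + 11 ≤ r := by linarith
    exact_mod_cast this
  have f5 : 3 * n + 4 + 5 * (k * l) < k * b := by
    have : 3 * (n : ℝ) + 4 + 5 * (k * l) < k * b := by
      have h3 : (k : ℝ) * l ≤ k * (n * lam) := mul_le_mul_of_nonneg_left l1 (by positivity)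
      have h4 : (k : ℝ) * (n * bet) ≤ k * (b + 1) := mul_le_mul_of_nonneg_left b2.le (by positivity)
      linarith
    exact_mod_cast this
  have f6 : (D + 16) * (4 * k + 1) + 2 ≤ l := by
    have : ((D : ℝ) + 16) * (4 * k + 1) + 2 ≤ l := by linarith
    exact_mod_cast this
  have f7 : 2 * r + 10 + (D + 16) * (4 * k + 1) ≤ n + 2 * b + l := by
    have : 2 * (r : ℝ) + 10 + ((D : ℝ) + 16) * (4 * k + 1) ≤ n + 2 * b + l := by
      have : (n : ℝ) * ε = 2 * (n * α) - n := by rw [hε]; ring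
      linarith
    exact_mod_cast this
  have f8 : n + 7 + D ≤ 2 * r := by
    have : (n : ℝ) + 7 + D ≤ 2 * r := by
      have : (n : ℝ) * ε = 2 * (n * α) - n := by rw [hε]; ring
      linarith
    exact_mod_cast this
  have hexp : 2 - 2 * α + (2 * α - 1) ^ 2 * (1 - α) / 400 = 2 - 2 * α + δ := by
    rw [hδ, hε, hη]; ring
  rw [hexp]
  refine transfer α (2 - 2 * α + δ) n r (2 * n - 2 * r + D) (by omega) ?_ r1 r2.le (by linarith)
    (by linarith) (by linarith) ?_ (main_gen n r l b k D hk0 f1 f2 f3 f4 f5 f6 f7 f8)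
  · omega
  · have h3 : ((2 * n - 2 * r + D : ℕ) : ℝ) = 2 * n - 2 * r + D := by
      rw [Nat.cast_add, Nat.cast_sub (by omega)]
      push_cast
      ring
    rw [h3]
    linarith

end Pool.Agent.Helper73.RK
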